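import Mathlib

set_option autoImplicit false

open Finset

namespace Pool.Agent.MP_fdd1d3_nt

theorem tensor_fin {A Ω : Type*} [Fintype A] [Fintype Ω] (s : ℝ) (n : ℕ) :
    ∀ (w : Fin n → Ω → ℝ) (f : Fin n → A → Ω → ℝ) (d : Fin n → A → ℝ)
      (_hw : ∀ p o, 0 ≤ w p o) (_hd : ∀ p a, 0 ≤ d p a)
      (_h : ∀ p (v : A → ℝ), s * ∑ o, w p o * (∑ a, v a * f p a o) ^ 2 ≤
        s * ∑ a, d p a * v a ^ 2) (C : (Fin n → A) → ℝ),
      s * ∑ o : Fin n → Ω, (∏ p, w p (o p)) * (∑ σ, C σ * ∏ p, f p (σ p) (o p)) ^ 2 ≤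
        s * ∑ σ, (∏ p, d p (σ p)) * C σ ^ 2 := by
  induction n with
  | zero =>
    intro w f d _ _ _ C
    simp
  | succ n ih =>
    intro w f d hw hd h C
    have e1 : ∀ {B : Type _} [Fintype B] (G : (Fin (n + 1) → B) → ℝ),
        ∑ x, G x = ∑ b : B, ∑ x : Fin n → B, G (Fin.cons b x) := by
      intro B _ G
      rw [← Fintype.sum_prod_type']
      exact (Equiv.sum_comp (Fin.consEquiv (fun _ => B)) G).symm
    have e1A := @e1 A _
    have e1O : ∀ (G : (Fin (n + 1) → Ω) → ℝ),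
        ∑ x, G x = ∑ b : Ω, ∑ x : Fin n → Ω, G (Fin.cons b x) := by
      intro G
      rw [← Fintype.sum_prod_type']
      exact (Equiv.sum_comp (Fin.consEquiv (fun _ => Ω)) G).symm
    set V : A → (Fin n → Ω) → ℝ := fun a o =>
      ∑ σ : Fin n → A, C (Fin.cons a σ) * ∏ p, f p.succ (σ p) (o p) with hV
    have l1 : ∑ o : Fin (n + 1) → Ω, (∏ p, w p (o p)) * (∑ σ, C σ * ∏ p, f p (σ p) (o p)) ^ 2 =
        ∑ o : Fin n → Ω, (∏ p : Fin n, w p.succ (o p)) *
          ∑ o0, w 0 o0 * (∑ a, V a o * f 0 a o0) ^ 2 := by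
      rw [e1O, Finset.sum_comm]
      refine Finset.sum_congr rfl fun o _ => ?_
      rw [Finset.mul_sum]
      refine Finset.sum_congr rfl fun o0 _ => ?_
      rw [e1A]
      simp only [Fin.prod_univ_succ, Fin.cons_zero, Fin.cons_succ, hV, Finset.sum_mul]
      have : ∀ a, ∑ σ : Fin n → A, C (Fin.cons a σ) * (f 0 a o0 * ∏ p : Fin n, f p.succ (σ p) (o p))
          = ∑ σ : Fin n → A, (C (Fin.cons a σ) * ∏ p : Fin n, f p.succ (σ p) (o p)) * f 0 a o0 := by
        intro a
        refine Finset.sum_congr rfl fun σ _ => ?_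
        ring
      simp only [this]
      ring
    have l2 : ∑ σ, (∏ p, d p (σ p)) * C σ ^ 2 =
        ∑ a, d 0 a * ∑ σ : Fin n → A, (∏ p : Fin n, d p.succ (σ p)) * C (Fin.cons a σ) ^ 2 := by
      rw [e1A]
      refine Finset.sum_congr rfl fun a _ => ?_
      rw [Finset.mul_sum]
      refine Finset.sum_congr rfl fun σ _ => ?_
      simp only [Fin.prod_univ_succ, Fin.cons_zero, Fin.cons_succ]
      ring
    rw [l1, l2]
    calc s * ∑ o : Fin n → Ω, (∏ p : Fin n, w p.succ (o p)) *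
          ∑ o0, w 0 o0 * (∑ a, V a o * f 0 a o0) ^ 2
        = ∑ o : Fin n → Ω, (∏ p : Fin n, w p.succ (o p)) *
          (s * ∑ o0, w 0 o0 * (∑ a, V a o * f 0 a o0) ^ 2) := by
          rw [Finset.mul_sum]
          refine Finset.sum_congr rfl fun o _ => ?_
          ring
      _ ≤ ∑ o : Fin n → Ω, (∏ p : Fin n, w p.succ (o p)) * (s * ∑ a, d 0 a * V a o ^ 2) := by
          refine Finset.sum_le_sum fun o _ => ?_
          exact mul_le_mul_of_nonneg_left (h 0 (fun a => V a o))
            (Finset.prod_nonneg fun p _ => hw _ _)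
      _ = ∑ a, d 0 a * (s * ∑ o : Fin n → Ω, (∏ p : Fin n, w p.succ (o p)) * V a o ^ 2) := by
          simp only [Finset.mul_sum]
          rw [Finset.sum_comm]
          refine Finset.sum_congr rfl fun a _ => Finset.sum_congr rfl fun o _ => ?_
          ring
      _ ≤ ∑ a, d 0 a * (s * ∑ σ : Fin n → A, (∏ p : Fin n, d p.succ (σ p)) *
            C (Fin.cons a σ) ^ 2) := by
          refine Finset.sum_le_sum fun a _ => ?_
          exact mul_le_mul_of_nonneg_left
            (ih (fun p => w p.succ) (fun p => f p.succ) (fun p => d p.succ) (fun p => hw _)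
              (fun p => hd _) (fun p => h _) (fun σ => C (Fin.cons a σ))) (hd _ _)
      _ = _ := by
          rw [Finset.mul_sum]
          refine Finset.sum_congr rfl fun a _ => ?_
          ring

theorem tensor {ι A Ω : Type*} [Fintype ι] [DecidableEq ι] [Fintype A] [Fintype Ω] (s : ℝ)
    (w : ι → Ω → ℝ) (f : ι → A → Ω → ℝ) (d : ι → A → ℝ)
    (hw : ∀ p o, 0 ≤ w p o) (hd : ∀ p a, 0 ≤ d p a)
    (h : ∀ p (v : A → ℝ), s * ∑ o, w p o * (∑ a, v a * f p a o) ^ 2 ≤
        s * ∑ a, d p a * v a ^ 2) (C : (ι → A) → ℝ) :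
    s * ∑ o : ι → Ω, (∏ p, w p (o p)) * (∑ σ, C σ * ∏ p, f p (σ p) (o p)) ^ 2 ≤
        s * ∑ σ, (∏ p, d p (σ p)) * C σ ^ 2 := by
  set e := (Fintype.equivFin ι).symm with he
  have key := tensor_fin s (Fintype.card ι) (fun p => w (e p)) (fun p => f (e p))
    (fun p => d (e p)) (fun p => hw _) (fun p => hd _) (fun p => h _)
    (fun σ => C (fun p => σ (e.symm p)))
  have eA : ∀ G : (ι → A) → ℝ, ∑ σ, G σ =
      ∑ σ : Fin (Fintype.card ι) → A, G (fun p => σ (e.symm p)) := fun G =>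
    (Equiv.sum_comp (Equiv.arrowCongr e (Equiv.refl A)) G).symm
  have eO : ∀ G : (ι → Ω) → ℝ, ∑ σ, G σ =
      ∑ σ : Fin (Fintype.card ι) → Ω, G (fun p => σ (e.symm p)) := fun G =>
    (Equiv.sum_comp (Equiv.arrowCongr e (Equiv.refl Ω)) G).symm
  rw [eO, eA (fun σ => (∏ p, d p (σ p)) * C σ ^ 2)]
  simp only [eA (fun σ => C σ * _)]
  simp only [← Equiv.prod_comp e, Equiv.symm_apply_apply]
  exact key

/-- site weights -/
noncomputable def wt {J : Type*} [Fintype J] (q : ℝ) : Option J → ℝ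
  | none => 1 - Fintype.card J / q
  | some _ => 1 / q

/-- site functions -/
noncomputable def fn {J : Type*} [DecidableEq J] (q : ℝ) : Option J → Option J → ℝ
  | none, _ => 1
  | some i, o => 1 / q - if o = some i then 1 else 0

/-- upper diagonal -/
noncomputable def hi {J : Type*} (q : ℝ) : Option J → ℝ
  | none => 1
  | some _ => 1 / q

/-- lower diagonal -/
noncomputable def lo {J : Type*} [Fintype J] (q : ℝ) : Option J → ℝ
  | none => 1
  | some _ => 1 / q * (1 - Fintype.card J / q)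

theorem site_eq {J : Type*} [Fintype J] [DecidableEq J] (q : ℝ) (v : Option J → ℝ) :
    ∑ o, wt q o * (∑ a, v a * fn q a o) ^ 2 =
      v none ^ 2 + 1 / q * ∑ i, v (some i) ^ 2 - (1 / q) ^ 2 * (∑ i, v (some i)) ^ 2 := by
  have h1 : ∀ o : Option J, ∑ a, v a * fn q a o =
      v none + 1 / q * (∑ i, v (some i)) - (Option.elim o 0 (fun i => v (some i))) := by
    intro o
    rw [Fintype.sum_option]
    simp only [fn, mul_one, mul_sub, Finset.sum_sub_distrib, ← Finset.sum_mul]
    cases o with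
    | none => simp; ring
    | some j => simp; ring
  simp only [h1]
  rw [Fintype.sum_option]
  simp only [wt, Option.elim]
  set S := ∑ i, v (some i) with hS
  have : ∑ i : J, 1 / q * (v none + 1 / q * S - v (some i)) ^ 2 =
      1 / q * (Fintype.card J * (v none + 1 / q * S) ^ 2 - 2 * (v none + 1 / q * S) * S +
        ∑ i, v (some i) ^ 2) := by
    rw [← Finset.mul_sum]
    congr 1
    simp only [sub_sq, Finset.sum_add_distrib, Finset.sum_sub_distrib, ← Finset.mul_sum]
    simp [hS]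
  rw [this]
  ring

theorem gram_upper {ι J : Type*} [Fintype ι] [DecidableEq ι] [Fintype J] [DecidableEq J]
    (q : ι → ℝ) (hq : ∀ p, 0 < q p) (hk : ∀ p, (Fintype.card J : ℝ) ≤ q p)
    (C : (ι → Option J) → ℝ) :
    ∑ o : ι → Option J, (∏ p, wt (q p) (o p)) * (∑ σ, C σ * ∏ p, fn (q p) (σ p) (o p)) ^ 2 ≤
        ∑ σ, (∏ p, hi (q p) (σ p)) * C σ ^ 2 := by
  have := tensor (1 : ℝ) (fun p => wt (J := J) (q p)) (fun p => fn (q p)) (fun p => hi (q p))
    ?_ ?_ ?_ C
  · simpa using this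
  · intro p o
    cases o with
    | none =>
      simp only [wt, sub_nonneg]
      exact (div_le_one (hq p)).2 (hk p)
    | some i => simp only [wt]; exact (one_div_pos.2 (hq p)).le
  · intro p o
    cases o with
    | none => simp [hi]
    | some i => simp only [hi]; exact (one_div_pos.2 (hq p)).le
  · intro p v
    rw [one_mul, one_mul, site_eq, Fintype.sum_option]
    simp only [hi, one_mul, ← Finset.mul_sum]
    nlinarith [sq_nonneg (1 / q p * ∑ i, v (some i))]

theorem gram_lower {ι J : Type*} [Fintype ι] [DecidableEq ι] [Fintype J] [DecidableEq J]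
    (q : ι → ℝ) (hq : ∀ p, 0 < q p) (hk : ∀ p, (Fintype.card J : ℝ) ≤ q p)
    (C : (ι → Option J) → ℝ) :
    ∑ σ, (∏ p, lo (q p) (σ p)) * C σ ^ 2 ≤
    ∑ o : ι → Option J, (∏ p, wt (q p) (o p)) * (∑ σ, C σ * ∏ p, fn (q p) (σ p) (o p)) ^ 2 := by
  have := tensor (-1 : ℝ) (fun p => wt (J := J) (q p)) (fun p => fn (q p)) (fun p => lo (q p))
    ?_ ?_ ?_ C
  · simpa using this
  · intro p o
    cases o with
    | none =>
      simp only [wt, sub_nonneg]
      exact (div_le_one (hq p)).2 (hk p)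
    | some i => simp only [wt]; exact (one_div_pos.2 (hq p)).le
  · intro p o
    cases o with
    | none => simp [lo]
    | some i =>
      simp only [lo]
      exact mul_nonneg (one_div_pos.2 (hq p)).le
        (sub_nonneg.2 ((div_le_one (hq p)).2 (hk p)))
  · intro p v
    rw [site_eq, Fintype.sum_option]
    simp only [lo, one_mul, ← Finset.mul_sum]
    have cs : (∑ i, v (some i)) ^ 2 ≤ Fintype.card J * ∑ i, v (some i) ^ 2 := by
      simpa using sq_sum_le_card_mul_sum_sq (s := (univ : Finset J)) (f := fun i => v (some i))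
    have h2 : (1 / q p) ^ 2 * (∑ i, v (some i)) ^ 2 ≤
        (1 / q p) ^ 2 * (Fintype.card J * ∑ i, v (some i) ^ 2) :=
      mul_le_mul_of_nonneg_left cs (sq_nonneg _)
    have h3 : (Fintype.card J : ℝ) / q p = Fintype.card J * (1 / q p) := by ring
    rw [h3]
    nlinarith

end Pool.Agent.MP_fdd1d3_nt
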