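import Mathlib
import Pool.Agent.MP_fdd1d3_nt.Gram

set_option autoImplicit false

open Finset

namespace Pool.Agent.MP_fdd1d3_nt

theorem period_sum_mul (m p : ℕ) (hm : 0 < m) (hp : 0 < p) (hcop : Nat.Coprime m p)
    (F H : ℕ → ℝ) (hF : Function.Periodic F m) (hH : Function.Periodic H p) :
    ∑ t ∈ range (m * p), F t * H t = (∑ t ∈ range m, F t) * ∑ t ∈ range p, H t := by
  rw [Finset.sum_mul_sum, ← Finset.sum_product']
  refine Finset.sum_nbij' (fun t => (t % m, t % p))
    (fun x => (Nat.chineseRemainder hcop x.1 x.2 : ℕ)) ?_ ?_ ?_ ?_ ?_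
  · intro t _
    simp [Nat.mod_lt _ hm, Nat.mod_lt _ hp]
  · intro x _
    simpa using Nat.chineseRemainder_lt_mul hcop x.1 x.2 hm.ne' hp.ne'
  · intro t ht
    have h1 := (Nat.chineseRemainder hcop (t % m) (t % p)).2
    have h2 : (Nat.chineseRemainder hcop (t % m) (t % p) : ℕ) ≡ t [MOD m * p] :=
      (Nat.modEq_and_modEq_iff_modEq_mul hcop).1
        ⟨h1.1.trans (Nat.mod_modEq t m), h1.2.trans (Nat.mod_modEq t p)⟩
    exact Nat.ModEq.eq_of_lt_of_lt h2
      (Nat.chineseRemainder_lt_mul hcop _ _ hm.ne' hp.ne') (by simpa using ht)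
  · intro x hx
    have h1 := (Nat.chineseRemainder hcop x.1 x.2).2
    simp only [Finset.mem_product, Finset.mem_range] at hx
    ext
    · simpa [Nat.ModEq, Nat.mod_eq_of_lt hx.1] using h1.1
    · simpa [Nat.ModEq, Nat.mod_eq_of_lt hx.2] using h1.2
  · intro t _
    simp only [hF.map_mod_nat, hH.map_mod_nat]

theorem periodic_prod {ι : Type*} (s : Finset ι) (q : ι → ℕ) (h : ι → ℕ → ℝ)
    (hper : ∀ p, Function.Periodic (h p) (q p)) :
    Function.Periodic (fun t => ∏ p ∈ s, h p t) (∏ p ∈ s, q p) := by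
  intro t
  refine Finset.prod_congr rfl fun p hp => ?_
  obtain ⟨c, hc⟩ := Finset.dvd_prod_of_mem q hp
  rw [hc, mul_comm]
  exact (hper p).nat_mul c t

theorem period_sum_prod {ι : Type*} [DecidableEq ι] (s : Finset ι) (q : ι → ℕ)
    (hq : ∀ p, 0 < q p)
    (hcop : ∀ p p', p ≠ p' → Nat.Coprime (q p) (q p')) (h : ι → ℕ → ℝ)
    (hper : ∀ p, Function.Periodic (h p) (q p)) :
    ∑ t ∈ range (∏ p ∈ s, q p), ∏ p ∈ s, h p t = ∏ p ∈ s, ∑ t ∈ range (q p), h p t := by
  induction s using Finset.induction_on with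
  | empty => simp
  | insert a s ha ih =>
    simp only [Finset.prod_insert ha]
    rw [period_sum_mul (q a) (∏ p ∈ s, q p) (hq a) (Finset.prod_pos fun p _ => hq p)
      (Nat.Coprime.prod_right fun p hp => hcop a p (by rintro rfl; exact ha hp))
      (h a) (fun t => ∏ p ∈ s, h p t) (hper a) (periodic_prod s q h hper), ih]

theorem shift_sum (M : ℕ) (F : ℕ → ℝ) (hF : Function.Periodic F M) (a : ℕ) :
    ∑ t ∈ range M, F (a + t) = ∑ t ∈ range M, F t := by
  induction a with
  | zero => simp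
  | succ a ih =>
    have h1 := Finset.sum_range_succ (fun t => F (a + t)) M
    have h2 := Finset.sum_range_succ' (fun t => F (a + t)) M
    have h3 : F (a + M) = F a := hF a
    have h4 : ∑ t ∈ range M, F (a + 1 + t) = ∑ t ∈ range M, F (a + (t + 1)) :=
      Finset.sum_congr rfl fun t _ => by congr 1; ring
    rw [h4, ← ih]
    simp only [add_zero] at h2
    linarith

theorem block_sum (M : ℕ) (F : ℕ → ℝ) (hF : Function.Periodic F M) (a u : ℕ) :
    ∑ t ∈ range (M * u), F (a + t) = u * ∑ t ∈ range M, F t := by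
  induction u with
  | zero => simp
  | succ u ih =>
    rw [Nat.mul_succ, Finset.sum_range_add, ih]
    have := shift_sum M F hF (a + M * u)
    simp only [add_assoc] at this
    rw [this]
    push_cast
    ring

theorem interval_sum (M : ℕ) (hM : 0 < M) (F : ℕ → ℝ) (hF : Function.Periodic F M)
    (hb : ∀ t, |F t| ≤ 1) (a N : ℕ) :
    |∑ t ∈ range N, F (a + t) - N * ((∑ t ∈ range M, F t) / M)| ≤ 2 * M := by
  have hN : N = M * (N / M) + N % M := (Nat.div_add_mod N M).symm
  have hr : N % M < M := Nat.mod_lt _ hM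
  set u := N / M
  set r := N % M
  have hM' : (0 : ℝ) < M := by exact_mod_cast hM
  have hr' : (r : ℝ) ≤ M := by exact_mod_cast hr.le
  have b1 : ∀ (c n : ℕ), |∑ t ∈ range n, F (c + t)| ≤ n := by
    intro c n
    calc _ ≤ ∑ t ∈ range n, |F (c + t)| := Finset.abs_sum_le_sum_abs _ _
      _ ≤ ∑ t ∈ range n, (1 : ℝ) := Finset.sum_le_sum fun t _ => hb _
      _ = n := by simp
  have b2 : |(∑ t ∈ range M, F t) / M| ≤ 1 := by
    rw [abs_div, abs_of_pos hM', div_le_one hM']
    simpa using b1 0 M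
  have e1 : ∑ t ∈ range N, F (a + t) =
      u * ∑ t ∈ range M, F t + ∑ t ∈ range r, F (a + M * u + t) := by
    conv_lhs => rw [hN]
    rw [Finset.sum_range_add, block_sum M F hF]
    simp only [add_assoc]
  have e2 : (N : ℝ) = M * u + r := by exact_mod_cast hN
  have e3 : ∑ t ∈ range N, F (a + t) - N * ((∑ t ∈ range M, F t) / M) =
      ∑ t ∈ range r, F (a + M * u + t) - r * ((∑ t ∈ range M, F t) / M) := by
    rw [e1, e2]
    field_simp
    ring
  rw [e3]
  have b3 := b1 (a + M * u) r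
  have b4 : |r * ((∑ t ∈ range M, F t) / M)| ≤ r := by
    rw [abs_mul, Nat.abs_cast]
    exact mul_le_of_le_one_right (Nat.cast_nonneg _) b2
  have := abs_sub (∑ t ∈ range r, F (a + M * u + t)) (r * ((∑ t ∈ range M, F t) / M))
  linarith

theorem equi_prod {ι : Type*} [DecidableEq ι] (s : Finset ι) (q : ι → ℕ)
    (hq : ∀ p, 0 < q p)
    (hcop : ∀ p p', p ≠ p' → Nat.Coprime (q p) (q p')) (h : ι → ℕ → ℝ)
    (hper : ∀ p, Function.Periodic (h p) (q p)) (hb : ∀ p t, |h p t| ≤ 1) (a N : ℕ) :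
    |∑ t ∈ range N, ∏ p ∈ s, h p (a + t) -
      N * ∏ p ∈ s, ((∑ t ∈ range (q p), h p t) / q p)| ≤ 2 * ∏ p ∈ s, (q p : ℝ) := by
  have := interval_sum (∏ p ∈ s, q p) (Finset.prod_pos fun p _ => hq p)
    (fun t => ∏ p ∈ s, h p t) (periodic_prod s q h hper) (fun t => by
      rw [Finset.abs_prod]
      exact Finset.prod_le_one (fun _ _ => abs_nonneg _) (fun p _ => hb p t)) a N
  rw [period_sum_prod s q hq hcop h hper] at this
  rw [Finset.prod_div_distrib]
  simpa using this

/-- averaging a function of the state over one period -/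
theorem site_avg {J : Type*} [Fintype J] [DecidableEq J] (q : ℕ) (hq : 0 < q)
    (ω : ℕ → Option J) (hω : ∀ i, ((range q).filter (fun t => ω t = some i)).card = 1)
    (h : Option J → ℝ) :
    (∑ t ∈ range q, h (ω t)) / q = ∑ o, wt (q : ℝ) o * h o := by
  have hq' : (0 : ℝ) < q := by exact_mod_cast hq
  have e1 : ∑ t ∈ range q, h (ω t) =
      ∑ o, (((range q).filter (fun t => ω t = o)).card : ℝ) * h o := by
    rw [← Finset.sum_fiberwise (range q) ω]
    refine Finset.sum_congr rfl fun o _ => ?_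
    rw [Finset.sum_congr rfl (g := fun _ => h o)]
    · simp
    · intro t ht
      rw [(Finset.mem_filter.1 ht).2]
  have e2 : (q : ℝ) = ∑ o, (((range q).filter (fun t => ω t = o)).card : ℝ) := by
    have := Finset.card_eq_sum_card_fiberwise (s := range q) (t := univ) (f := ω)
      (fun _ _ => by simp)
    rw [Finset.card_range] at this
    exact_mod_cast this
  rw [Fintype.sum_option] at e2
  simp only [hω, Nat.cast_one, Finset.sum_const, Finset.card_univ, nsmul_eq_mul, mul_one] at e2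
  rw [e1, Fintype.sum_option, Fintype.sum_option]
  simp only [hω, wt, Nat.cast_one, one_mul, ← Finset.mul_sum]
  have e3 : (((range q).filter (fun t => ω t = none)).card : ℝ) = q - Fintype.card J := by
    linarith
  rw [e3]
  field_simp

/-- the modulus attached to a labelling -/
noncomputable def dm {ι J : Type*} [Fintype ι] (q : ι → ℕ) (σ : ι → Option J) : ℝ :=
  ∏ p, (Option.elim (σ p) 1 (fun _ => (q p : ℝ)))

theorem abs_fn_le {J : Type*} [DecidableEq J] (q : ℝ) (hq : 1 ≤ q) (a o : Option J) :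
    |fn q a o| ≤ 1 := by
  have h1 : 0 < 1 / q := by positivity
  have h2 : 1 / q ≤ 1 := (div_le_one (by linarith)).2 hq
  cases a with
  | none => simp [fn]
  | some i =>
    simp only [fn]
    split_ifs
    · rw [abs_le]; constructor <;> linarith
    · rw [abs_le]; constructor <;> linarith

theorem equi_pair {ι J : Type*} [Fintype ι] [DecidableEq ι] [Fintype J] [DecidableEq J]
    (q : ι → ℕ) (hq : ∀ p, 0 < q p)
    (hcop : ∀ p p', p ≠ p' → Nat.Coprime (q p) (q p')) (ω : ι → ℕ → Option J)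
    (hper : ∀ p, Function.Periodic (ω p) (q p))
    (hω : ∀ p i, ((range (q p)).filter (fun t => ω p t = some i)).card = 1)
    (σ τ : ι → Option J) (a N : ℕ) :
    |∑ t ∈ range N, (∏ p, fn (q p : ℝ) (σ p) (ω p (a + t))) *
        (∏ p, fn (q p : ℝ) (τ p) (ω p (a + t))) -
      N * ∑ o : ι → Option J, (∏ p, wt (q p : ℝ) (o p)) *
        ((∏ p, fn (q p : ℝ) (σ p) (o p)) * (∏ p, fn (q p : ℝ) (τ p) (o p)))| ≤
      2 * (dm q σ * dm q τ) := by
  have hq1 : ∀ p, (1 : ℝ) ≤ q p := fun p => by exact_mod_cast hq p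
  set s : Finset ι := univ.filter (fun p => σ p ≠ none ∨ τ p ≠ none) with hs
  set H : ι → Option J → ℝ := fun p o => fn (q p : ℝ) (σ p) o * fn (q p : ℝ) (τ p) o with hH
  have hH1 : ∀ p, p ∉ s → ∀ o, H p o = 1 := by
    intro p hp o
    simp only [hs, Finset.mem_filter, Finset.mem_univ, true_and, not_or, not_not] at hp
    simp [hH, hp.1, hp.2, fn]
  have key := equi_prod s q hq hcop (fun p t => H p (ω p t))
    (fun p t => by simp only [hper p t]) (fun p t => by
      simp only [hH, abs_mul]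
      exact mul_le_one₀ (abs_fn_le _ (hq1 p) _ _) (abs_nonneg _) (abs_fn_le _ (hq1 p) _ _)) a N
  have e1 : ∀ t, (∏ p, fn (q p : ℝ) (σ p) (ω p t)) * (∏ p, fn (q p : ℝ) (τ p) (ω p t)) =
      ∏ p ∈ s, H p (ω p t) := by
    intro t
    rw [← Finset.prod_mul_distrib]
    exact (Finset.prod_subset (Finset.subset_univ s) (fun p _ hp => hH1 p hp _)).symm
  have e2 : ∑ o : ι → Option J, (∏ p, wt (q p : ℝ) (o p)) *
        ((∏ p, fn (q p : ℝ) (σ p) (o p)) * (∏ p, fn (q p : ℝ) (τ p) (o p))) =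
      ∏ p ∈ s, ((∑ t ∈ range (q p), H p (ω p t)) / q p) := by
    simp only [← Finset.prod_mul_distrib]
    rw [← Fintype.prod_sum (fun p o => wt (q p : ℝ) o * H p o)]
    rw [Finset.prod_subset (Finset.subset_univ s)]
    · refine Finset.prod_congr rfl fun p _ => ?_
      exact (site_avg (q p) (hq p) (ω p) (hω p) (H p)).symm
    · intro p _ hp
      simp only [hH1 p hp, Finset.sum_const, Finset.card_range, nsmul_eq_mul, mul_one]
      exact div_self (by linarith [hq1 p])
  simp only [e1, e2]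
  refine key.trans ?_
  refine mul_le_mul_of_nonneg_left ?_ (by norm_num)
  rw [dm, dm, ← Finset.prod_mul_distrib]
  have g1 : ∀ (p : ι) (o : Option J), (1 : ℝ) ≤ Option.elim o 1 (fun _ => (q p : ℝ)) := by
    intro p o
    cases o with
    | none => simp
    | some i => simpa using hq1 p
  calc ∏ p ∈ s, (q p : ℝ)
      ≤ ∏ p ∈ s, (Option.elim (σ p) 1 (fun _ => (q p : ℝ)) *
          Option.elim (τ p) 1 (fun _ => (q p : ℝ))) := by
        refine Finset.prod_le_prod (fun p _ => by linarith [hq1 p]) fun p hp => ?_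
        simp only [hs, Finset.mem_filter, Finset.mem_univ, true_and] at hp
        rcases hp with hp | hp
        · obtain ⟨i, hi⟩ := Option.ne_none_iff_exists'.1 hp
          rw [hi]
          exact le_mul_of_one_le_right (by linarith [hq1 p]) (g1 p _)
        · obtain ⟨i, hi⟩ := Option.ne_none_iff_exists'.1 hp
          rw [hi]
          exact le_mul_of_one_le_left (by linarith [hq1 p]) (g1 p _)
    _ ≤ _ := by
        refine Finset.prod_le_prod_of_subset_of_one_le (Finset.subset_univ s) ?_ ?_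
        · intro p _
          exact mul_nonneg (by linarith [g1 p (σ p)]) (by linarith [g1 p (τ p)])
        · intro p _ _
          exact one_le_mul_of_one_le_of_one_le (g1 p _) (g1 p _)

theorem equi_sq {ι J : Type*} [Fintype ι] [DecidableEq ι] [Fintype J] [DecidableEq J]
    (q : ι → ℕ) (hq : ∀ p, 0 < q p)
    (hcop : ∀ p p', p ≠ p' → Nat.Coprime (q p) (q p')) (ω : ι → ℕ → Option J)
    (hper : ∀ p, Function.Periodic (ω p) (q p))
    (hω : ∀ p i, ((range (q p)).filter (fun t => ω p t = some i)).card = 1)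
    (C : (ι → Option J) → ℝ) (a N : ℕ) :
    |∑ t ∈ range N, (∑ σ, C σ * ∏ p, fn (q p : ℝ) (σ p) (ω p (a + t))) ^ 2 -
      N * ∑ o : ι → Option J, (∏ p, wt (q p : ℝ) (o p)) *
        (∑ σ, C σ * ∏ p, fn (q p : ℝ) (σ p) (o p)) ^ 2| ≤
      2 * (∑ σ, |C σ| * dm q σ) ^ 2 := by
  have e0 : ∀ F : (ι → Option J) → ℝ, (∑ σ, C σ * F σ) ^ 2 =
      ∑ σ, ∑ τ, (C σ * C τ) * (F σ * F τ) := by
    intro F
    rw [sq, Finset.sum_mul_sum]
    refine Finset.sum_congr rfl fun σ _ => Finset.sum_congr rfl fun τ _ => ?_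
    ring
  have e1 : ∑ t ∈ range N, (∑ σ, C σ * ∏ p, fn (q p : ℝ) (σ p) (ω p (a + t))) ^ 2 -
      N * ∑ o : ι → Option J, (∏ p, wt (q p : ℝ) (o p)) *
        (∑ σ, C σ * ∏ p, fn (q p : ℝ) (σ p) (o p)) ^ 2 =
      ∑ σ, ∑ τ, (C σ * C τ) * (∑ t ∈ range N, (∏ p, fn (q p : ℝ) (σ p) (ω p (a + t))) *
        (∏ p, fn (q p : ℝ) (τ p) (ω p (a + t))) -
      N * ∑ o : ι → Option J, (∏ p, wt (q p : ℝ) (o p)) *
        ((∏ p, fn (q p : ℝ) (σ p) (o p)) * (∏ p, fn (q p : ℝ) (τ p) (o p)))) := by
    simp only [e0, mul_sub, Finset.sum_sub_distrib, Finset.mul_sum]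
    congr 1
    · rw [Finset.sum_comm]
      refine Finset.sum_congr rfl fun σ _ => ?_
      rw [Finset.sum_comm]
    · rw [Finset.sum_comm]
      refine Finset.sum_congr rfl fun σ _ => ?_
      rw [Finset.sum_comm]
      refine Finset.sum_congr rfl fun τ _ => Finset.sum_congr rfl fun o _ => ?_
      ring
  rw [e1]
  calc _ ≤ ∑ σ, ∑ τ, |C σ| * |C τ| * (2 * (dm q σ * dm q τ)) := by
        refine (Finset.abs_sum_le_sum_abs _ _).trans (Finset.sum_le_sum fun σ _ => ?_)
        refine (Finset.abs_sum_le_sum_abs _ _).trans (Finset.sum_le_sum fun τ _ => ?_)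
        rw [abs_mul, abs_mul]
        exact mul_le_mul_of_nonneg_left (equi_pair q hq hcop ω hper hω σ τ a N) (by positivity)
    _ = _ := by
        rw [sq, Finset.sum_mul_sum, Finset.mul_sum]
        refine Finset.sum_congr rfl fun σ _ => ?_
        rw [Finset.mul_sum]
        refine Finset.sum_congr rfl fun τ _ => ?_
        ring

end Pool.Agent.MP_fdd1d3_nt
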