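import Mathlib
import Pool.Agent.MP_fdd1d3_nt.Equi

set_option autoImplicit false

open Finset

namespace Pool.Agent.MP_fdd1d3_nt

/-- product of the moduli in a set -/
noncomputable def nn {ι : Type*} (q : ι → ℕ) (s : Finset ι) : ℝ := ∏ p ∈ s, (q p : ℝ)

/-- logarithm of the product of the moduli in a set -/
noncomputable def LL {ι : Type*} (q : ι → ℕ) (s : Finset ι) : ℝ := ∑ p ∈ s, Real.log (q p)

/-- the set of sites with a given label -/
def SS {ι J : Type*} [Fintype ι] [DecidableEq J] (σ : ι → Option J) (j : J) : Finset ι :=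
  univ.filter (fun p => σ p = some j)

theorem mem_SS {ι J : Type*} [Fintype ι] [DecidableEq J] (σ : ι → Option J) (j : J) (p : ι) :
    p ∈ SS σ j ↔ σ p = some j := by simp [SS]

theorem nn_pos {ι : Type*} (q : ι → ℕ) (s : Finset ι) (hq : ∀ p ∈ s, 0 < q p) : 0 < nn q s :=
  Finset.prod_pos fun p hp => by exact_mod_cast hq p hp

theorem exp_LL {ι : Type*} (q : ι → ℕ) (s : Finset ι) (hq : ∀ p ∈ s, 0 < q p) :
    Real.exp (LL q s) = nn q s := by
  rw [LL, Real.exp_sum, nn]
  exact Finset.prod_congr rfl fun p hp => Real.exp_log (by exact_mod_cast hq p hp)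

theorem LL_nonneg {ι : Type*} (q : ι → ℕ) (s : Finset ι) : 0 ≤ LL q s :=
  Finset.sum_nonneg fun _ _ => Real.log_natCast_nonneg _

theorem prod_label {ι J : Type*} [Fintype ι] [Fintype J] [DecidableEq J]
    (σ : ι → Option J) (u : ι → ℝ) :
    ∏ p, (Option.elim (σ p) 1 (fun _ => u p)) = ∏ j, ∏ p ∈ SS σ j, u p := by
  simp only [SS, Finset.prod_filter]
  rw [Finset.prod_comm]
  refine Finset.prod_congr rfl fun p _ => ?_
  cases σ p with
  | none => simp
  | some i => simp

theorem sum_label {ι J : Type*} [Fintype ι] [Fintype J] [DecidableEq J]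
    (σ : ι → Option J) (u : ι → ℝ) :
    ∑ p, (Option.elim (σ p) 0 (fun _ => u p)) = ∑ j, ∑ p ∈ SS σ j, u p := by
  simp only [SS, Finset.sum_filter]
  rw [Finset.sum_comm]
  refine Finset.sum_congr rfl fun p _ => ?_
  cases σ p with
  | none => simp
  | some i => simp

theorem dm_eq {ι J : Type*} [Fintype ι] [Fintype J] [DecidableEq J] (q : ι → ℕ)
    (σ : ι → Option J) : dm q σ = ∏ j, nn q (SS σ j) := prod_label σ _

theorem dm_eq_exp {ι J : Type*} [Fintype ι] [Fintype J] [DecidableEq J] (q : ι → ℕ)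
    (hq : ∀ p, 0 < q p) (σ : ι → Option J) : dm q σ = Real.exp (∑ j, LL q (SS σ j)) := by
  rw [dm_eq, Real.exp_sum]
  exact Finset.prod_congr rfl fun j _ => (exp_LL q _ fun p _ => hq p).symm

theorem prod_hi {ι J : Type*} [Fintype ι] [Fintype J] [DecidableEq J] (q : ι → ℕ)
    (σ : ι → Option J) : ∏ p, hi (q p : ℝ) (σ p) = ∏ j, (1 / nn q (SS σ j)) := by
  have : ∀ p, hi (q p : ℝ) (σ p) = Option.elim (σ p) 1 (fun _ => 1 / (q p : ℝ)) := by
    intro p
    cases σ p <;> simp [hi]
  simp only [this]
  rw [prod_label]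
  refine Finset.prod_congr rfl fun j _ => ?_
  simp [nn, Finset.prod_inv_distrib]

theorem SS_injective {ι J : Type*} [Fintype ι] [DecidableEq J] :
    Function.Injective (fun (σ : ι → Option J) => SS σ) := by
  intro σ τ h
  funext p
  have h1 : ∀ j, σ p = some j ↔ τ p = some j := by
    intro j
    rw [← mem_SS, ← mem_SS]
    have : SS σ j = SS τ j := congrFun h j
    rw [this]
  exact Option.ext h1

theorem sum_SS_le {ι J : Type*} [Fintype ι] [DecidableEq ι] [Fintype J] [DecidableEq J]
    (G : (J → Finset ι) → ℝ) (hG : ∀ S, 0 ≤ G S) :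
    ∑ σ : ι → Option J, G (SS σ) ≤ ∑ S, G S := by
  rw [← Finset.sum_image (s := univ) (g := fun σ : ι → Option J => SS σ) (f := G)
    (fun σ _ τ _ h => SS_injective h)]
  exact Finset.sum_le_sum_of_subset_of_nonneg (Finset.subset_univ _) fun S _ _ => hG S

open Classical in
theorem sum_le_SS {ι J : Type*} [Fintype ι] [DecidableEq ι] [Fintype J] [DecidableEq J]
    (G : (J → Finset ι) → ℝ) (hG : ∀ S, 0 ≤ G S) :
    ∑ S, G S ≤ ∑ σ : ι → Option J, G (SS σ) +
      ∑ S : J → Finset ι, if ∃ j j' p, j ≠ j' ∧ p ∈ S j ∧ p ∈ S j' then G S else 0 := by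
  rw [← Finset.sum_image (s := univ) (g := fun σ : ι → Option J => SS σ) (f := G)
    (fun σ _ τ _ h => SS_injective h)]
  rw [← Finset.sum_filter, ← Finset.sum_filter_add_sum_filter_not univ
    (fun S : J → Finset ι => ∃ j j' p, j ≠ j' ∧ p ∈ S j ∧ p ∈ S j'), add_comm]
  refine add_le_add ?_ le_rfl
  refine Finset.sum_le_sum_of_subset_of_nonneg ?_ fun S _ _ => hG S
  intro S hS
  simp only [Finset.mem_filter, Finset.mem_univ, true_and, not_exists, not_and] at hS
  refine Finset.mem_image.2 ⟨fun p => if h : ∃ j, p ∈ S j then some h.choose else none,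
    Finset.mem_univ _, ?_⟩
  funext j
  ext p
  rw [mem_SS]
  constructor
  · intro h
    split_ifs at h with h1
    have := h1.choose_spec
    rwa [Option.some.inj h] at this
  · intro h
    have h1 : ∃ j, p ∈ S j := ⟨j, h⟩
    rw [dif_pos h1]
    by_contra h2
    exact hS h1.choose j p (fun h3 => h2 (by rw [h3])) h1.choose_spec h

theorem sum_mem_le {ι : Type*} [DecidableEq ι] (q : ι → ℕ) (U : Finset ι)
    (hq : ∀ p ∈ U, 0 < q p) (p : ι) :
    ∑ s ∈ U.powerset.filter (fun s => p ∈ s), 1 / nn q s ≤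
      1 / (q p : ℝ) * ∑ s ∈ U.powerset, 1 / nn q s := by
  have e1 : ∑ s ∈ U.powerset.filter (fun s => p ∈ s), 1 / nn q s =
      1 / (q p : ℝ) * ∑ s ∈ U.powerset.filter (fun s => p ∈ s), 1 / nn q (s.erase p) := by
    rw [Finset.mul_sum]
    refine Finset.sum_congr rfl fun s hs => ?_
    have hp := (Finset.mem_filter.1 hs).2
    rw [nn, nn, ← Finset.mul_prod_erase s _ hp, one_div_mul_one_div]
  rw [e1]
  refine mul_le_mul_of_nonneg_left ?_ (by positivity)
  rw [← Finset.sum_image (s := U.powerset.filter (fun s => p ∈ s)) (g := fun s => s.erase p)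
    (f := fun s => 1 / nn q s)]
  · refine Finset.sum_le_sum_of_subset_of_nonneg ?_ ?_
    · intro s hs
      obtain ⟨s', hs', rfl⟩ := Finset.mem_image.1 hs
      exact Finset.mem_powerset.2 ((Finset.erase_subset _ _).trans
        (Finset.mem_powerset.1 (Finset.mem_filter.1 hs').1))
    · intro s hs _
      exact (one_div_pos.2 (nn_pos q s fun p hp => hq p (Finset.mem_powerset.1 hs hp))).le
  · intro s hs s' hs' h
    have hp := (Finset.mem_filter.1 (Finset.mem_coe.1 hs)).2
    have hp' := (Finset.mem_filter.1 (Finset.mem_coe.1 hs')).2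
    rw [← Finset.insert_erase hp, ← Finset.insert_erase hp']
    simp only at h
    rw [h]

theorem exp_le_one_add_two_mul (u : ℝ) (h0 : 0 ≤ u) (h1 : u ≤ 1) : Real.exp u ≤ 1 + 2 * u := by
  have := Real.exp_bound' h0 h1 (n := 1) one_pos
  simp at this
  linarith

theorem tail_bound {X J : Type*} [Fintype X] [Fintype J] [DecidableEq J] (ν L : X → ℝ)
    (T c D : ℝ) (hT : 0 < T) (hc : 0 ≤ c) (hν : ∀ s, 0 ≤ ν s) (hL : ∀ s, 0 ≤ L s)
    (hLT : ∀ s, ν s ≠ 0 → L s ≤ T) (hνL : ∑ s, ν s * L s ≤ c) (hZ : 1 ≤ ∑ s, ν s) :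
    ∑ S : J → X, (if D < ∑ j, L (S j) then ∏ j, ν (S j) else 0) ≤
      (∑ s, ν s) ^ Fintype.card J * Real.exp ((2 * c * Fintype.card J - D) / T) := by
  set Z := ∑ s, ν s with hZd
  have h1 : ∑ s, ν s * Real.exp (L s / T) ≤ Z * Real.exp (2 * c / T) := by
    calc ∑ s, ν s * Real.exp (L s / T) ≤ ∑ s, (ν s + 2 / T * (ν s * L s)) := by
          refine Finset.sum_le_sum fun s _ => ?_
          by_cases h : ν s = 0
          · simp [h]
          · have := exp_le_one_add_two_mul (L s / T) (div_nonneg (hL s) hT.le)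
              ((div_le_one hT).2 (hLT s h))
            calc ν s * Real.exp (L s / T) ≤ ν s * (1 + 2 * (L s / T)) :=
                  mul_le_mul_of_nonneg_left this (hν s)
              _ = _ := by ring
      _ = Z + 2 / T * ∑ s, ν s * L s := by
          rw [Finset.sum_add_distrib, ← Finset.mul_sum]
      _ ≤ Z + 2 / T * c := by gcongr
      _ ≤ Z * (2 * c / T + 1) := by
          have : 0 ≤ 2 * c / T := by positivity
          have e : 2 / T * c = 2 * c / T := by ring
          rw [e]
          nlinarith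
      _ ≤ _ := mul_le_mul_of_nonneg_left (Real.add_one_le_exp _) (by linarith)
  calc _ ≤ ∑ S : J → X, Real.exp (-D / T) * ∏ j, (ν (S j) * Real.exp (L (S j) / T)) := by
        refine Finset.sum_le_sum fun S _ => ?_
        rw [Finset.prod_mul_distrib, ← Real.exp_sum, ← Finset.sum_div, mul_left_comm,
          ← Real.exp_add]
        have hp : 0 ≤ ∏ j, ν (S j) := Finset.prod_nonneg fun j _ => hν _
        split_ifs with h
        · refine le_mul_of_one_le_right hp (Real.one_le_exp ?_)
          rw [← add_div]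
          exact div_nonneg (by linarith) hT.le
        · positivity
    _ = Real.exp (-D / T) * (∑ s, ν s * Real.exp (L s / T)) ^ Fintype.card J := by
        rw [← Finset.mul_sum, ← Fintype.prod_sum (fun (_ : J) s => ν s * Real.exp (L s / T))]
        simp
    _ ≤ Real.exp (-D / T) * (Z * Real.exp (2 * c / T)) ^ Fintype.card J := by
        gcongr
        exact Finset.sum_nonneg fun s _ => mul_nonneg (hν s) (Real.exp_pos _).le
    _ = _ := by
        rw [mul_pow, ← Real.exp_nat_mul, mul_left_comm, ← Real.exp_add]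
        congr 2
        ring

open Classical in
theorem nondisj_bound {ι J : Type*} [Fintype ι] [DecidableEq ι] [Fintype J] [DecidableEq J]
    (q : ι → ℕ) (hq : ∀ p, 0 < q p) (ν : Finset ι → ℝ) (B η : ℝ)
    (hν : ∀ s, 0 ≤ ν s) (hν1 : ∀ s, ν s ≤ 1 / nn q s) (hZ : 1 ≤ ∑ s, ν s)
    (hB : ∑ s : Finset ι, 1 / nn q s ≤ B) (hη : ∑ p, (1 / (q p : ℝ)) ^ 2 ≤ η) :
    ∑ S : J → Finset ι, (if ∃ j j' p, j ≠ j' ∧ p ∈ S j ∧ p ∈ S j' then ∏ j, ν (S j) else 0) ≤
      (Fintype.card J) ^ 2 * B ^ 2 * η * (∑ s, ν s) ^ Fintype.card J := by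
  set Z := ∑ s, ν s with hZd
  have hB0 : 0 ≤ B := le_trans
    (Finset.sum_nonneg fun s _ => (one_div_pos.2 (nn_pos q s fun p _ => hq p)).le) hB
  have h1 : ∀ p, ∑ s, (if p ∈ s then ν s else 0) ≤ Z * (B * (1 / (q p : ℝ))) := by
    intro p
    have := sum_mem_le q univ (fun p _ => hq p) p
    rw [Finset.powerset_univ] at this
    rw [← Finset.sum_filter]
    have h0 : 0 ≤ 1 / (q p : ℝ) := by positivity
    calc _ ≤ ∑ s ∈ univ.filter (fun s => p ∈ s), 1 / nn q s :=
          Finset.sum_le_sum fun s _ => hν1 s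
      _ ≤ 1 / (q p : ℝ) * B := this.trans (mul_le_mul_of_nonneg_left hB h0)
      _ ≤ _ := by
          rw [mul_comm]
          exact le_mul_of_one_le_left (mul_nonneg hB0 h0) hZ
  have h2 : ∀ (j j' : J) (p : ι), j ≠ j' →
      ∑ S : J → Finset ι, (if p ∈ S j ∧ p ∈ S j' then ∏ i, ν (S i) else 0) ≤
        Z ^ Fintype.card J * (B * (1 / (q p : ℝ))) ^ 2 := by
    intro j j' p hj
    have e1 : ∀ S : J → Finset ι, (if p ∈ S j ∧ p ∈ S j' then ∏ i, ν (S i) else 0) =
        ∏ i, (if i ∈ ({j, j'} : Finset J) then (if p ∈ S i then ν (S i) else 0) else ν (S i)) := by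
      intro S
      split_ifs with h
      · refine Finset.prod_congr rfl fun i _ => ?_
        split_ifs with h1 h2
        · rfl
        · simp only [Finset.mem_insert, Finset.mem_singleton] at h1
          rcases h1 with rfl | rfl
          · exact absurd h.1 h2
          · exact absurd h.2 h2
        · rfl
      · rw [not_and_or] at h
        rcases h with h | h
        · exact (Finset.prod_eq_zero (Finset.mem_univ j) (by simp [h])).symm
        · exact (Finset.prod_eq_zero (Finset.mem_univ j') (by simp [h])).symm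
    simp only [e1]
    rw [← Fintype.prod_sum (fun (i : J) (s : Finset ι) =>
      if i ∈ ({j, j'} : Finset J) then (if p ∈ s then ν s else 0) else ν s)]
    calc _ ≤ ∏ i : J, (Z * if i ∈ ({j, j'} : Finset J) then B * (1 / (q p : ℝ)) else 1) := by
          refine Finset.prod_le_prod ?_ ?_
          · intro i _
            refine Finset.sum_nonneg fun s _ => ?_
            split_ifs
            · exact hν s
            · exact le_rfl
            · exact hν s
          · intro i _
            split_ifs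
            · exact h1 p
            · simp [hZd]
      _ = _ := by
          rw [Finset.prod_mul_distrib, Finset.prod_ite_mem, Finset.univ_inter,
            Finset.prod_const, Finset.prod_const, Finset.card_pair hj, Finset.card_univ]
  have hZk : 0 ≤ Z ^ Fintype.card J := by positivity
  calc _ ≤ ∑ S : J → Finset ι, ∑ j, ∑ j', ∑ p,
          (if j ≠ j' then (if p ∈ S j ∧ p ∈ S j' then ∏ i, ν (S i) else 0) else 0) := by
        refine Finset.sum_le_sum fun S _ => ?_
        have hp : 0 ≤ ∏ j, ν (S j) := Finset.prod_nonneg fun j _ => hν _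
        have hn : ∀ j j' p, 0 ≤
            (if j ≠ j' then (if p ∈ S j ∧ p ∈ S j' then ∏ i, ν (S i) else 0) else 0) := by
          intro j j' p
          split_ifs
          · exact hp
          · exact le_rfl
          · exact le_rfl
        split_ifs with h
        · obtain ⟨j, j', p, h1, h2, h3⟩ := h
          refine le_trans ?_ (Finset.single_le_sum (f := fun j => ∑ j', ∑ p,
            (if j ≠ j' then (if p ∈ S j ∧ p ∈ S j' then ∏ i, ν (S i) else 0) else 0))
            (fun j _ => Finset.sum_nonneg fun j' _ => Finset.sum_nonneg fun p _ => hn j j' p)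
            (Finset.mem_univ j))
          refine le_trans ?_ (Finset.single_le_sum (f := fun j' => ∑ p,
            (if j ≠ j' then (if p ∈ S j ∧ p ∈ S j' then ∏ i, ν (S i) else 0) else 0))
            (fun j' _ => Finset.sum_nonneg fun p _ => hn j j' p)
            (Finset.mem_univ j'))
          refine le_trans ?_ (Finset.single_le_sum (f := fun p =>
            (if j ≠ j' then (if p ∈ S j ∧ p ∈ S j' then ∏ i, ν (S i) else 0) else 0))
            (fun p _ => hn j j' p) (Finset.mem_univ p))
          simp [h1, h2, h3]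
        · exact Finset.sum_nonneg fun j _ => Finset.sum_nonneg fun j' _ =>
            Finset.sum_nonneg fun p _ => hn j j' p
    _ = ∑ j, ∑ j', ∑ p, ∑ S : J → Finset ι,
          (if j ≠ j' then (if p ∈ S j ∧ p ∈ S j' then ∏ i, ν (S i) else 0) else 0) := by
        rw [Finset.sum_comm]
        refine Finset.sum_congr rfl fun j _ => ?_
        rw [Finset.sum_comm]
        refine Finset.sum_congr rfl fun j' _ => ?_
        rw [Finset.sum_comm]
    _ ≤ ∑ j : J, ∑ j' : J, ∑ p, Z ^ Fintype.card J * (B * (1 / (q p : ℝ))) ^ 2 := by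
        refine Finset.sum_le_sum fun j _ => Finset.sum_le_sum fun j' _ =>
          Finset.sum_le_sum fun p _ => ?_
        by_cases h : j = j'
        · simp only [h, ne_eq, not_true_eq_false, if_false, Finset.sum_const_zero]
          positivity
        · simp only [ne_eq, h, not_false_eq_true, if_true]
          exact h2 j j' p h
    _ = (Fintype.card J) ^ 2 * B ^ 2 * (∑ p, (1 / (q p : ℝ)) ^ 2) * Z ^ Fintype.card J := by
        simp only [mul_pow, ← Finset.mul_sum, Finset.sum_const, Finset.card_univ, nsmul_eq_mul]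
        ring
    _ ≤ _ := by gcongr

theorem count_bound {ι J : Type*} [Fintype ι] [DecidableEq ι] [Fintype J] [DecidableEq J]
    (q : ι → ℕ) (hq : ∀ p, 0 < q p) (D η : ℝ) (hη : ∑ p, (1 / (q p : ℝ)) ^ 2 ≤ η)
    (hk : Fintype.card J * η ≤ 1) (C : (ι → Option J) → ℝ)
    (hC : ∀ σ, |C σ| ≤ if ∑ j, LL q (SS σ j) ≤ D then 1 else 0) :
    ∑ σ, |C σ| * dm q σ ≤ Real.exp (3 * D + 1) := by
  have h1 : ∀ σ : ι → Option J, |C σ| * dm q σ ≤
      Real.exp (3 * D) * ∏ p, (Option.elim (σ p) 1 (fun _ => (1 / (q p : ℝ)) ^ 2)) := by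
    intro σ
    have e1 : ∏ p, (Option.elim (σ p) 1 (fun _ => (1 / (q p : ℝ)) ^ 2)) =
        Real.exp (-2 * ∑ j, LL q (SS σ j)) := by
      rw [prod_label, Finset.mul_sum, Real.exp_sum]
      refine Finset.prod_congr rfl fun j _ => ?_
      rw [LL, Finset.mul_sum, Real.exp_sum]
      refine Finset.prod_congr rfl fun p _ => ?_
      have hp : (0 : ℝ) < q p := by exact_mod_cast hq p
      rw [show -2 * Real.log (q p) = ((2 : ℕ) : ℝ) * (-Real.log (q p)) by push_cast; ring,
        Real.exp_nat_mul, Real.exp_neg, Real.exp_log hp, one_div]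
    rw [e1, dm_eq_exp q hq, ← Real.exp_add]
    have := hC σ
    split_ifs at this with h
    · calc _ ≤ 1 * Real.exp (∑ j, LL q (SS σ j)) :=
            mul_le_mul_of_nonneg_right this (Real.exp_pos _).le
        _ ≤ _ := by
            rw [one_mul]
            exact Real.exp_le_exp.2 (by linarith)
    · calc _ ≤ 0 * Real.exp (∑ j, LL q (SS σ j)) :=
            mul_le_mul_of_nonneg_right this (Real.exp_pos _).le
        _ ≤ _ := by
            rw [zero_mul]
            exact (Real.exp_pos _).le
  calc _ ≤ ∑ σ : ι → Option J,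
        Real.exp (3 * D) * ∏ p, (Option.elim (σ p) 1 (fun _ => (1 / (q p : ℝ)) ^ 2)) :=
        Finset.sum_le_sum fun σ _ => h1 σ
    _ = Real.exp (3 * D) * ∏ p, (1 + Fintype.card J * (1 / (q p : ℝ)) ^ 2) := by
        rw [← Finset.mul_sum, ← Fintype.prod_sum (fun (p : ι) (o : Option J) =>
          (Option.elim o 1 (fun _ => (1 / (q p : ℝ)) ^ 2)))]
        simp [Fintype.sum_option]
    _ ≤ Real.exp (3 * D) * Real.exp (∑ p, Fintype.card J * (1 / (q p : ℝ)) ^ 2) := by
        refine mul_le_mul_of_nonneg_left ?_ (Real.exp_pos _).le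
        exact Real.prod_one_add_le_exp_sum _ fun p => by positivity
    _ ≤ _ := by
        rw [← Real.exp_add, ← Finset.mul_sum]
        refine Real.exp_le_exp.2 ?_
        have : Fintype.card J * ∑ p, (1 / (q p : ℝ)) ^ 2 ≤ Fintype.card J * η := by gcongr
        linarith

end Pool.Agent.MP_fdd1d3_nt
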