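import Mathlib
import Pool.Agent.MP_fdd1d3_nt.Tuples

set_option autoImplicit false

open Finset

namespace Pool.Agent.MP_fdd1d3_nt

/-- primes in a half-open interval -/
def PP (a b : ℕ) : Finset ℕ := (Ioc a b).filter Nat.Prime

theorem mem_PP (a b p : ℕ) : p ∈ PP a b ↔ (a < p ∧ p ≤ b) ∧ p.Prime := by simp [PP]

theorem nn_id (s : Finset ℕ) : nn (fun p => p) s = ((∏ p ∈ s, p : ℕ) : ℝ) := by
  simp [nn]

theorem LL_le_log (s : Finset ℕ) (m : ℕ) (hm : 0 < m) (hs : ∀ p ∈ s, p.Prime ∧ p ∣ m) :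
    LL (fun p => p) s ≤ Real.log m := by
  have h1 : ∏ p ∈ s, p ∣ m :=
    Finset.prod_primes_dvd m (fun p hp => (hs p hp).1.prime) (fun p hp => (hs p hp).2)
  rw [Real.le_log_iff_exp_le (by exact_mod_cast hm), exp_LL _ _ fun p hp => (hs p hp).1.pos,
    nn_id]
  exact_mod_cast Nat.le_of_dvd hm h1

theorem mertens_a (n : ℕ) (hn : 0 < n) :
    ∑ p ∈ PP 0 n, Real.log p * (1 / (p : ℝ)) ≤ Real.log n + Real.log 4 := by
  have hn' : (0 : ℝ) < n := by exact_mod_cast hn
  have h1 : ∑ m ∈ Ioc 0 n, ∑ p ∈ PP 0 n, (if p ∣ m then Real.log p else 0) ≤ n * Real.log n := by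
    calc _ ≤ ∑ m ∈ Ioc 0 n, Real.log n := by
          refine Finset.sum_le_sum fun m hm => ?_
          rw [Finset.mem_Ioc] at hm
          rw [← Finset.sum_filter]
          refine (LL_le_log _ m hm.1 fun p hp => ?_).trans ?_
          · rw [Finset.mem_filter, mem_PP] at hp
            exact ⟨hp.1.2, hp.2⟩
          · exact Real.log_le_log (by exact_mod_cast hm.1) (by exact_mod_cast hm.2)
      _ = _ := by simp
  have h2 : ∑ p ∈ PP 0 n, (n * (Real.log p * (1 / (p : ℝ))) - Real.log p) ≤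
      ∑ m ∈ Ioc 0 n, ∑ p ∈ PP 0 n, (if p ∣ m then Real.log p else 0) := by
    rw [Finset.sum_comm]
    refine Finset.sum_le_sum fun p hp => ?_
    rw [← Finset.sum_filter, Finset.sum_const, Nat.Ioc_filter_dvd_card_eq_div, nsmul_eq_mul]
    have hp0 : 0 < p := ((mem_PP _ _ _).1 hp).2.pos
    have hp' : (0 : ℝ) < p := by exact_mod_cast hp0
    have h3 : (n : ℝ) * (1 / p) - 1 ≤ ((n / p : ℕ) : ℝ) := by
      have h4 : n < p * (n / p + 1) := Nat.lt_mul_div_succ n hp0
      have h5 : (n : ℝ) < p * (((n / p : ℕ) : ℝ) + 1) := by exact_mod_cast h4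
      rw [mul_one_div, sub_le_iff_le_add, div_le_iff₀ hp']
      linarith
    have := mul_le_mul_of_nonneg_right h3 (Real.log_natCast_nonneg p)
    linarith
  have h3 : ∑ p ∈ PP 0 n, Real.log p ≤ Real.log 4 * n := by
    have := Chebyshev.theta_le_log4_mul_x hn'.le
    rw [Chebyshev.theta, Nat.floor_natCast] at this
    exact this
  rw [Finset.sum_sub_distrib, ← Finset.mul_sum] at h2
  have h4 : n * ∑ p ∈ PP 0 n, Real.log p * (1 / (p : ℝ)) ≤ n * (Real.log n + Real.log 4) := by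
    linarith
  exact le_of_mul_le_mul_left h4 hn'

theorem harm_le (M : ℕ) : ∑ m ∈ Icc 1 M, 1 / (m : ℝ) ≤ 1 + Real.log M := by
  have := harmonic_le_one_add_log M
  rw [harmonic_eq_sum_Icc] at this
  simpa using this

theorem harm_ge (M : ℕ) : Real.log (M + 1) ≤ ∑ m ∈ Icc 1 M, 1 / (m : ℝ) := by
  have := log_add_one_le_harmonic M
  rw [harmonic_eq_sum_Icc] at this
  simpa using this

theorem sum_small_le (P : Finset ℕ) (hP : ∀ p ∈ P, p.Prime) (U : ℝ) (hU : 0 ≤ U) :
    ∑ s ∈ P.powerset.filter (fun s => LL (fun p => p) s ≤ U), 1 / nn (fun p => p) s ≤ 1 + U := by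
  simp only [nn_id]
  rw [← Finset.sum_image (s := P.powerset.filter (fun s => LL (fun p => p) s ≤ U))
    (g := fun s => ∏ p ∈ s, p) (f := fun m : ℕ => 1 / (m : ℝ))]
  · have h1 : (1 : ℝ) ≤ Real.exp U := Real.one_le_exp hU
    calc _ ≤ ∑ m ∈ Icc 1 ⌊Real.exp U⌋₊, 1 / (m : ℝ) := by
          refine Finset.sum_le_sum_of_subset_of_nonneg ?_ fun m _ _ => by positivity
          intro m hm
          obtain ⟨s, hs, rfl⟩ := Finset.mem_image.1 hm
          rw [Finset.mem_filter, Finset.mem_powerset] at hs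
          have hs0 : ∀ p ∈ s, 0 < p := fun p hp => (hP p (hs.1 hp)).pos
          rw [Finset.mem_Icc]
          refine ⟨Finset.prod_pos hs0, Nat.le_floor ?_⟩
          rw [← nn_id, ← exp_LL _ _ hs0]
          exact Real.exp_le_exp.2 hs.2
      _ ≤ 1 + Real.log (⌊Real.exp U⌋₊ : ℕ) := harm_le _
      _ ≤ 1 + U := by
          have h2 : (0 : ℝ) < (⌊Real.exp U⌋₊ : ℕ) := by
            exact_mod_cast Nat.floor_pos.2 h1
          have := Real.log_le_log h2 (Nat.floor_le (Real.exp_pos U).le)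
          rw [Real.log_exp] at this
          linarith
  · intro s hs s' hs' h
    have h1 := Finset.mem_powerset.1 (Finset.mem_filter.1 (Finset.mem_coe.1 hs)).1
    have h2 := Finset.mem_powerset.1 (Finset.mem_filter.1 (Finset.mem_coe.1 hs')).1
    rw [← Nat.primeFactors_prod (s := s) fun p hp => hP p (h1 hp),
      ← Nat.primeFactors_prod (s := s') fun p hp => hP p (h2 hp)]
    simp only at h
    rw [h]

theorem mertens_b (w : ℕ) (hw : 2 ≤ w) :
    ∑ s ∈ (PP 0 w).powerset, 1 / nn (fun p => p) s ≤ 15 * Real.log w := by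
  set P := PP 0 w with hPd
  have hP : ∀ p ∈ P, p.Prime := fun p hp => ((mem_PP _ _ _).1 hp).2
  set G := ∑ s ∈ P.powerset, 1 / nn (fun p => p) s with hG
  have hn0 : ∀ s ∈ P.powerset, 0 ≤ 1 / nn (fun p => p) s := fun s hs =>
    (one_div_pos.2 (nn_pos _ s fun p hp => (hP p (Finset.mem_powerset.1 hs hp)).pos)).le
  have hG0 : 0 ≤ G := Finset.sum_nonneg hn0
  have l2 : Real.log 2 ≤ Real.log w := Real.log_le_log (by norm_num) (by exact_mod_cast hw)
  have l3 := Real.log_two_gt_d9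
  have l4 : Real.log 4 = 2 * Real.log 2 := by
    rw [show (4 : ℝ) = 2 ^ 2 by norm_num, Real.log_pow]; norm_num
  set V := Real.log w + Real.log 4 with hV
  have hV0 : 0 < V := by linarith
  have h1 : ∑ s ∈ P.powerset, LL (fun p => p) s * (1 / nn (fun p => p) s) ≤ V * G := by
    calc _ = ∑ s ∈ P.powerset, ∑ p ∈ P,
            (if p ∈ s then Real.log p * (1 / nn (fun p => p) s) else 0) := by
          refine Finset.sum_congr rfl fun s hs => ?_
          rw [← Finset.sum_filter, Finset.filter_mem_eq_inter,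
            Finset.inter_eq_right.2 (Finset.mem_powerset.1 hs), LL, Finset.sum_mul]
      _ = ∑ p ∈ P, Real.log p *
            ∑ s ∈ P.powerset.filter (fun s => p ∈ s), 1 / nn (fun p => p) s := by
          rw [Finset.sum_comm]
          refine Finset.sum_congr rfl fun p _ => ?_
          rw [Finset.mul_sum, Finset.sum_filter]
      _ ≤ ∑ p ∈ P, Real.log p * (1 / (p : ℝ) * G) := by
          refine Finset.sum_le_sum fun p _ => ?_
          exact mul_le_mul_of_nonneg_left (sum_mem_le (fun p => p) P (fun p hp => (hP p hp).pos) p)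
            (Real.log_natCast_nonneg p)
      _ = (∑ p ∈ P, Real.log p * (1 / (p : ℝ))) * G := by
          rw [Finset.sum_mul]
          refine Finset.sum_congr rfl fun p _ => ?_
          ring
      _ ≤ _ := mul_le_mul_of_nonneg_right (mertens_a w (by omega)) hG0
  have h2 := sum_small_le P hP (2 * V) (by linarith)
  have h3 : 2 * V * ∑ s ∈ P.powerset.filter (fun s => ¬ LL (fun p => p) s ≤ 2 * V),
      1 / nn (fun p => p) s ≤ V * G := by
    refine le_trans ?_ h1
    rw [Finset.mul_sum]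
    calc _ ≤ ∑ s ∈ P.powerset.filter (fun s => ¬ LL (fun p => p) s ≤ 2 * V),
          LL (fun p => p) s * (1 / nn (fun p => p) s) := by
          refine Finset.sum_le_sum fun s hs => ?_
          rw [Finset.mem_filter] at hs
          exact mul_le_mul_of_nonneg_right (not_le.1 hs.2).le (hn0 s hs.1)
      _ ≤ _ := Finset.sum_le_sum_of_subset_of_nonneg (Finset.filter_subset _ _)
          fun s hs _ => mul_nonneg (LL_nonneg _ _) (hn0 s hs)
  have h4 := Finset.sum_filter_add_sum_filter_not P.powerset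
    (fun s => LL (fun p => p) s ≤ 2 * V) (fun s => 1 / nn (fun p => p) s)
  have h5 : 2 * ∑ s ∈ P.powerset.filter (fun s => ¬ LL (fun p => p) s ≤ 2 * V),
      1 / nn (fun p => p) s ≤ G := by
    refine le_of_mul_le_mul_left ?_ hV0
    linarith
  linarith

theorem decomp (h : ℕ → ℝ) (h0 : ∀ m, 0 ≤ h m) (h1 : h 1 = 1)
    (hmul : ∀ a b, h (a * b) = h a * h b) (Y : ℕ) (K P1 P2 : Finset ℕ)
    (hK : ∀ m ∈ K, 1 ≤ m ∧ m ≤ Y ∧ ∀ p, p.Prime → p ∣ m → p ∈ P1 ∨ p ∈ P2) :
    ∑ m ∈ K, h m ≤ (∑ b ∈ Icc 1 Y, h b ^ 2) * ((∑ s ∈ P1.powerset, ∏ p ∈ s, h p) *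
      ∑ s ∈ P2.powerset.filter (fun s => ∏ p ∈ s, p ≤ Y), ∏ p ∈ s, h p) := by
  have hprod : ∀ s : Finset ℕ, h (∏ p ∈ s, p) = ∏ p ∈ s, h p := by
    intro s
    induction s using Finset.induction_on with
    | empty => simpa using h1
    | insert a s ha ih => rw [Finset.prod_insert ha, Finset.prod_insert ha, hmul, ih]
  set φ : ℕ × Finset ℕ × Finset ℕ → ℕ := fun x => x.1 ^ 2 * ((∏ p ∈ x.2.1, p) * ∏ p ∈ x.2.2, p)
    with hφ
  set Tr := Icc 1 Y ×ˢ (P1.powerset ×ˢ P2.powerset.filter (fun s => ∏ p ∈ s, p ≤ Y)) with hTr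
  calc ∑ m ∈ K, h m ≤ ∑ m ∈ Tr.image φ, h m := by
        refine Finset.sum_le_sum_of_subset_of_nonneg ?_ fun m _ _ => h0 m
        intro m hm
        obtain ⟨m1, mY, mp⟩ := hK m hm
        obtain ⟨a, b, ha, hb, hab, hsq⟩ := Nat.sq_mul_squarefree_of_pos m1
        have e1 : (∏ p ∈ a.primeFactors.filter (fun p => p ∈ P1), p) *
            ∏ p ∈ a.primeFactors.filter (fun p => ¬ p ∈ P1), p = a := by
          rw [Finset.prod_filter_mul_prod_filter_not, Nat.prod_primeFactors_of_squarefree hsq]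
        have ham : a ∣ m := Dvd.intro_left _ hab
        refine Finset.mem_image.2 ⟨(b, a.primeFactors.filter (fun p => p ∈ P1),
          a.primeFactors.filter (fun p => ¬ p ∈ P1)), ?_, ?_⟩
        · simp only [hTr, Finset.mem_product, Finset.mem_Icc, Finset.mem_powerset,
            Finset.mem_filter]
          refine ⟨⟨hb, ?_⟩, ?_, ?_, ?_⟩
          · refine le_trans (Nat.le_of_dvd m1 ?_) mY
            rw [← hab]
            exact Dvd.dvd.mul_right (dvd_pow_self b two_ne_zero) a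
          · intro p hp
            exact (Finset.mem_filter.1 hp).2
          · intro p hp
            rw [Finset.mem_filter, Nat.mem_primeFactors] at hp
            exact (mp p hp.1.1 (hp.1.2.1.trans ham)).resolve_left hp.2
          · refine le_trans (Nat.le_of_dvd m1 ?_) mY
            exact (Dvd.intro_left _ e1).trans ham
        · simp only [hφ]
          rw [e1, hab]
    _ ≤ ∑ x ∈ Tr, h (φ x) := Finset.sum_image_le_of_nonneg fun m _ => h0 m
    _ = _ := by
        rw [hTr, Finset.sum_product, Finset.sum_mul]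
        refine Finset.sum_congr rfl fun b _ => ?_
        rw [Finset.sum_product, Finset.sum_mul_sum, Finset.mul_sum]
        refine Finset.sum_congr rfl fun s _ => ?_
        rw [Finset.mul_sum]
        refine Finset.sum_congr rfl fun s' _ => ?_
        simp only [hφ, sq, hmul, hprod]

theorem inv_sq_tail (w X : ℕ) (hw : 0 < w) :
    ∑ p ∈ Ioc w X, (1 / (p : ℝ)) ^ 2 ≤ 1 / (w : ℝ) := by
  by_cases h : w ≤ X
  · have := sum_Ioc_inv_sq_le_sub (α := ℝ) hw.ne' h
    have h2 : (0 : ℝ) ≤ (X : ℝ)⁻¹ := by positivity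
    simp only [one_div, inv_pow]
    linarith
  · rw [Finset.Ioc_eq_empty (by omega)]
    simp

theorem inv_sq_le_two (Y : ℕ) : ∑ b ∈ Icc 1 Y, (1 / (b : ℝ)) ^ 2 ≤ 2 := by
  by_cases h : 1 ≤ Y
  · rw [← Finset.add_sum_Ioc_eq_sum_Icc h]
    have := inv_sq_tail 1 Y one_pos
    simp only [Nat.cast_one, div_one, one_pow] at this ⊢
    linarith
  · rw [Finset.Icc_eq_empty h]
    simp

theorem mertens_c (w X M : ℕ) (hw : 2 ≤ w) (hM : M ≤ X) :
    Real.log (M + 1) ≤ 30 * Real.log w *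
      ∑ s ∈ (PP w X).powerset.filter (fun s => ∏ p ∈ s, p ≤ M), 1 / nn (fun p => p) s := by
  have h1 := decomp (fun m => 1 / (m : ℝ)) (fun m => by positivity) (by simp)
    (fun a b => by push_cast; rw [one_div_mul_one_div]) M (Icc 1 M) (PP 0 w) (PP w X) ?_
  · have e1 : ∀ s : Finset ℕ, ∏ p ∈ s, 1 / (p : ℝ) = 1 / nn (fun p => p) s := by
      intro s
      simp [nn, Finset.prod_inv_distrib]
    simp only [e1] at h1
    have h2 := harm_ge M
    have h3 := inv_sq_le_two M
    have h4 := mertens_b w hw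
    have hn0 : ∀ s, 0 ≤ 1 / nn (fun p => p) s := fun s => by rw [nn_id]; positivity
    have h5 : 0 ≤ ∑ s ∈ (PP w X).powerset.filter (fun s => ∏ p ∈ s, p ≤ M),
        1 / nn (fun p => p) s := Finset.sum_nonneg fun s _ => hn0 s
    have h6 : 0 ≤ ∑ s ∈ (PP 0 w).powerset, 1 / nn (fun p => p) s :=
      Finset.sum_nonneg fun s _ => hn0 s
    calc _ ≤ _ := h2.trans h1
      _ ≤ 2 * ((15 * Real.log w) * ∑ s ∈ (PP w X).powerset.filter (fun s => ∏ p ∈ s, p ≤ M),
        1 / nn (fun p => p) s) := by gcongr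
      _ = _ := by ring
  · intro m hm
    rw [Finset.mem_Icc] at hm
    refine ⟨hm.1, hm.2, fun p hp hpm => ?_⟩
    have := Nat.le_of_dvd hm.1 hpm
    rw [mem_PP, mem_PP]
    by_cases h : p ≤ w
    · exact Or.inl ⟨⟨hp.pos, h⟩, hp⟩
    · exact Or.inr ⟨⟨by omega, by omega⟩, hp⟩

end Pool.Agent.MP_fdd1d3_nt
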