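import Mathlib
import Pool.Agent.MP_fdd1d3_nt.Tuples

set_option autoImplicit false

open Finset

namespace Pool.Agent.MP_fdd1d3_nt

/-- one-dimensional coefficients -/
noncomputable def aa {ι : Type*} [DecidableEq ι] (g : Finset ι → ℝ) (s : Finset ι) : ℝ :=
  (if s = ∅ then 1 else 0) - g s

/-- the coefficients of the sieve weight -/
noncomputable def CC {ι J : Type*} [Fintype ι] [DecidableEq ι] [Fintype J] [DecidableEq J]
    (q : ι → ℕ) (g : Finset ι → ℝ) (D : ℝ) (σ : ι → Option J) : ℝ :=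
  if ∑ j, LL q (SS σ j) ≤ D then ∏ j, aa g (SS σ j) else 0

/-- erasing one label -/
def er {ι J : Type*} [DecidableEq J] (i : J) (σ : ι → Option J) : ι → Option J :=
  fun p => if σ p = some i then none else σ p

/-- the coefficients after summing out one label -/
noncomputable def Ci {ι J : Type*} [Fintype ι] [DecidableEq ι] [Fintype J] [DecidableEq J]
    (q : ι → ℕ) (C : (ι → Option J) → ℝ) (i : J) (τ : ι → Option J) : ℝ :=
  ∑ σ ∈ univ.filter (fun σ => er i σ = τ), C σ * (1 / nn q (SS σ i))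

/-- the one-dimensional remainder -/
noncomputable def II {ι J : Type*} [Fintype ι] [DecidableEq ι] [Fintype J] [DecidableEq J]
    (q : ι → ℕ) (g : Finset ι → ℝ) (D : ℝ) (τ : ι → Option J) : ℝ :=
  ∑ s ∈ (univ.filter (fun p => τ p = none)).powerset,
    if LL q s + ∑ j, LL q (SS τ j) ≤ D then aa g s * (1 / nn q s) else 0

theorem abs_aa_le {ι : Type*} [DecidableEq ι] (g : Finset ι → ℝ) (g0 : g ∅ = 0)
    (g1 : ∀ s, 0 ≤ g s) (g2 : ∀ s, g s ≤ 1) (s : Finset ι) : |aa g s| ≤ 1 := by
  unfold aa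
  split_ifs with h
  · simp [h, g0]
  · rw [abs_le]
    constructor <;> linarith [g1 s, g2 s]

theorem psi_bad {ι J : Type*} [Fintype ι] [DecidableEq ι] [Fintype J] [DecidableEq J]
    (q : ι → ℕ) (C : (ι → Option J) → ℝ) (i : J) (o : ι → Option J) (ho : ∀ p, o p ≠ some i) :
    ∑ σ, C σ * ∏ p, fn (q p : ℝ) (σ p) (o p) =
      ∑ τ, Ci q C i τ * ∏ p, fn (q p : ℝ) (τ p) (o p) := by
  rw [← Finset.sum_fiberwise univ (er i)]
  refine Finset.sum_congr rfl fun τ _ => ?_
  rw [Ci, Finset.sum_mul]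
  refine Finset.sum_congr rfl fun σ hσ => ?_
  rw [← (Finset.mem_filter.1 hσ).2, mul_assoc]
  congr 1
  have e1 : 1 / nn q (SS σ i) = ∏ p, (if σ p = some i then 1 / (q p : ℝ) else 1) := by
    rw [← Finset.prod_filter]
    simp [nn, SS, Finset.prod_inv_distrib]
  rw [e1, ← Finset.prod_mul_distrib]
  refine Finset.prod_congr rfl fun p _ => ?_
  unfold er
  split_ifs with h
  · simp [h, fn, ho p]
  · simp

theorem SS_er_ne {ι J : Type*} [Fintype ι] [DecidableEq J] (i j : J) (h : j ≠ i)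
    (σ : ι → Option J) : SS (er i σ) j = SS σ j := by
  ext p
  rw [mem_SS, mem_SS]
  unfold er
  split_ifs with h1
  · simp [h1, h.symm]
  · rfl

theorem SS_er_self {ι J : Type*} [Fintype ι] [DecidableEq J] (i : J)
    (σ : ι → Option J) : SS (er i σ) i = ∅ := by
  ext p
  rw [mem_SS]
  unfold er
  split_ifs with h1
  · simp
  · simp [h1]

theorem Ci_CC {ι J : Type*} [Fintype ι] [DecidableEq ι] [Fintype J] [DecidableEq J]
    (q : ι → ℕ) (g : Finset ι → ℝ) (g0 : g ∅ = 0) (D : ℝ) (i : J) (τ : ι → Option J) :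
    Ci q (CC q g D) i τ =
      if SS τ i = ∅ then (∏ j, aa g (SS τ j)) * II q g D τ else 0 := by
  split_ifs with h
  · rw [Ci, II, Finset.mul_sum]
    have hτ : ∀ p, τ p ≠ some i := by
      intro p hp
      have := (mem_SS τ i p).2 hp
      rw [h] at this
      simp at this
    refine Finset.sum_nbij' (fun σ => SS σ i) (fun s p => if p ∈ s then some i else τ p)
      ?_ ?_ ?_ ?_ ?_
    · intro σ hσ
      rw [Finset.mem_powerset]
      intro p hp
      rw [mem_SS] at hp
      rw [← (Finset.mem_filter.1 hσ).2]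
      simp [er, hp]
    · intro s hs
      rw [Finset.mem_powerset] at hs
      refine Finset.mem_filter.2 ⟨Finset.mem_univ _, ?_⟩
      funext p
      unfold er
      by_cases hp : p ∈ s
      · have := hs hp
        simp only [Finset.mem_filter, Finset.mem_univ, true_and] at this
        simp [hp, this]
      · simp [hp, hτ p]
    · intro σ hσ
      funext p
      rw [← (Finset.mem_filter.1 hσ).2]
      simp only [mem_SS]
      unfold er
      split_ifs with h1
      · exact h1.symm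
      · rfl
    · intro s _
      ext p
      rw [mem_SS]
      by_cases hp : p ∈ s
      · simp [hp]
      · simp [hp, hτ p]
    · intro σ hσ
      have hσ' := (Finset.mem_filter.1 hσ).2
      have e1 : ∑ j, LL q (SS σ j) = LL q (SS σ i) + ∑ j, LL q (SS τ j) := by
        rw [← Finset.add_sum_erase univ _ (Finset.mem_univ i),
          ← Finset.add_sum_erase univ (fun j => LL q (SS τ j)) (Finset.mem_univ i), h]
        have : ∑ j ∈ univ.erase i, LL q (SS σ j) = ∑ j ∈ univ.erase i, LL q (SS τ j) := by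
          refine Finset.sum_congr rfl fun j hj => ?_
          rw [← hσ', SS_er_ne i j (Finset.ne_of_mem_erase hj)]
        rw [this]
        simp [LL]
      have e2 : ∏ j, aa g (SS σ j) = aa g (SS σ i) * ∏ j, aa g (SS τ j) := by
        rw [← Finset.mul_prod_erase univ _ (Finset.mem_univ i),
          ← Finset.mul_prod_erase univ (fun j => aa g (SS τ j)) (Finset.mem_univ i), h]
        have : ∏ j ∈ univ.erase i, aa g (SS σ j) = ∏ j ∈ univ.erase i, aa g (SS τ j) := by
          refine Finset.prod_congr rfl fun j hj => ?_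
          rw [← hσ', SS_er_ne i j (Finset.ne_of_mem_erase hj)]
        rw [this]
        simp [aa, g0]
      unfold CC
      rw [e1, e2]
      split_ifs
      · ring
      · ring
  · rw [Ci]
    refine Finset.sum_eq_zero fun σ hσ => ?_
    exact absurd ((Finset.mem_filter.1 hσ).2 ▸ SS_er_self i σ) h

theorem II_zero {ι J : Type*} [Fintype ι] [DecidableEq ι] [Fintype J] [DecidableEq J]
    (q : ι → ℕ) (g : Finset ι → ℝ) (D : ℝ) (τ : ι → Option J)
    (h : D < ∑ j, LL q (SS τ j)) : II q g D τ = 0 := by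
  refine Finset.sum_eq_zero fun s _ => ?_
  rw [if_neg]
  linarith [LL_nonneg q s]

theorem II_eq {ι J : Type*} [Fintype ι] [DecidableEq ι] [Fintype J] [DecidableEq J]
    (q : ι → ℕ) (g : Finset ι → ℝ) (D : ℝ) (τ : ι → Option J)
    (h : ∑ j, LL q (SS τ j) ≤ D) : II q g D τ = 1 -
      ∑ s ∈ (univ.filter (fun p => τ p = none)).powerset,
        if LL q s + ∑ j, LL q (SS τ j) ≤ D then g s * (1 / nn q s) else 0 := by
  have e1 : ∑ s ∈ (univ.filter (fun p => τ p = none)).powerset,
      (if s = ∅ then (1 : ℝ) else 0) = 1 := by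
    rw [Finset.sum_ite_eq']
    simp
  rw [II, ← e1, ← Finset.sum_sub_distrib]
  refine Finset.sum_congr rfl fun s _ => ?_
  rw [e1]
  by_cases hs : s = ∅
  · subst hs
    have : LL q ∅ + ∑ j, LL q (SS τ j) ≤ D := by simpa [LL] using h
    simp [this, aa, nn]
  · simp only [aa, hs, if_false]
    split_ifs
    · ring
    · ring

theorem II_mem {ι J : Type*} [Fintype ι] [DecidableEq ι] [Fintype J] [DecidableEq J]
    (q : ι → ℕ) (hq : ∀ p, 0 < q p) (g : Finset ι → ℝ) (g1 : ∀ s, 0 ≤ g s)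
    (gs : ∑ s, g s * (1 / nn q s) = 1) (D : ℝ) (τ : ι → Option J) :
    0 ≤ II q g D τ ∧ II q g D τ ≤ 1 := by
  have hn : ∀ s, 0 ≤ g s * (1 / nn q s) := fun s =>
    mul_nonneg (g1 s) (one_div_pos.2 (nn_pos q s fun p _ => hq p)).le
  by_cases h : ∑ j, LL q (SS τ j) ≤ D
  · rw [II_eq q g D τ h]
    constructor
    · rw [sub_nonneg]
      calc _ ≤ ∑ s ∈ (univ.filter (fun p => τ p = none)).powerset, g s * (1 / nn q s) := by
            refine Finset.sum_le_sum fun s _ => ?_
            split_ifs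
            · exact le_rfl
            · exact hn s
        _ ≤ ∑ s, g s * (1 / nn q s) :=
            Finset.sum_le_sum_of_subset_of_nonneg (Finset.subset_univ _) fun s _ _ => hn s
        _ = 1 := gs
    · rw [sub_le_self_iff]
      refine Finset.sum_nonneg fun s _ => ?_
      split_ifs
      · exact hn s
      · exact le_rfl
  · rw [II_zero q g D τ (not_le.1 h)]
    simp

theorem II_small {ι J : Type*} [Fintype ι] [DecidableEq ι] [Fintype J] [DecidableEq J]
    (q : ι → ℕ) (hq : ∀ p, 0 < q p) (g : Finset ι → ℝ) (_g1 : ∀ s, 0 ≤ g s) (g2 : ∀ s, g s ≤ 1)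
    (gs : ∑ s, g s * (1 / nn q s) = 1) (D T B w : ℝ) (hT : 0 ≤ T) (hw : 0 < w)
    (gT : ∀ s, g s ≠ 0 → LL q s ≤ T)
    (hqw : ∀ p, w ≤ q p) (hql : ∀ p, 1 ≤ Real.log (q p))
    (hB : ∑ s : Finset ι, 1 / nn q s ≤ B) (τ : ι → Option J)
    (h : ∑ j, LL q (SS τ j) ≤ D - T) : II q g D τ ≤ B * D / w := by
  have hn0 : ∀ s, 0 ≤ (1 / nn q s) := fun s =>
    (one_div_pos.2 (nn_pos q s fun p _ => hq p)).le
  have hB0 : 0 ≤ B := le_trans (Finset.sum_nonneg fun s _ => hn0 s) hB
  rw [II_eq q g D τ (by linarith)]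
  set F := univ.filter (fun p => τ p = none) with hF
  have e1 : ∑ s ∈ F.powerset,
        (if LL q s + ∑ j, LL q (SS τ j) ≤ D then g s * (1 / nn q s) else 0) =
      ∑ s ∈ F.powerset, g s * (1 / nn q s) := by
    refine Finset.sum_congr rfl fun s _ => ?_
    by_cases hs : g s = 0
    · simp [hs]
    · rw [if_pos]
      linarith [gT s hs]
  have e2 : 1 - ∑ s ∈ F.powerset, g s * (1 / nn q s) =
      ∑ s ∈ univ \ F.powerset, g s * (1 / nn q s) := by
    have := Finset.sum_sdiff (f := fun s => g s * (1 / nn q s)) (Finset.subset_univ F.powerset)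
    linarith
  rw [e1, e2]
  calc ∑ s ∈ univ \ F.powerset, g s * (1 / nn q s)
      ≤ ∑ s ∈ univ \ F.powerset, ∑ p ∈ univ \ F, (if p ∈ s then 1 / nn q s else 0) := by
        refine Finset.sum_le_sum fun s hs => ?_
        have hs' := (Finset.mem_sdiff.1 hs).2
        rw [Finset.mem_powerset, Finset.not_subset] at hs'
        obtain ⟨p, hp1, hp2⟩ := hs'
        refine le_trans ?_ (Finset.single_le_sum (f := fun p => if p ∈ s then 1 / nn q s else 0)
          (fun p _ => ?_) (Finset.mem_sdiff.2 ⟨Finset.mem_univ p, hp2⟩))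
        · simp only [hp1, if_true]
          exact mul_le_of_le_one_left (hn0 s) (g2 s)
        · split_ifs
          · exact hn0 s
          · exact le_rfl
    _ ≤ ∑ s, ∑ p ∈ univ \ F, (if p ∈ s then 1 / nn q s else 0) := by
        refine Finset.sum_le_sum_of_subset_of_nonneg (Finset.subset_univ _) fun s _ _ => ?_
        refine Finset.sum_nonneg fun p _ => ?_
        split_ifs
        · exact hn0 s
        · exact le_rfl
    _ = ∑ p ∈ univ \ F, ∑ s ∈ univ.filter (fun s => p ∈ s), 1 / nn q s := by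
        rw [Finset.sum_comm]
        simp only [Finset.sum_filter]
    _ ≤ ∑ p ∈ univ \ F, B / w * Real.log (q p) := by
        refine Finset.sum_le_sum fun p _ => ?_
        have := sum_mem_le q univ (fun p _ => hq p) p
        rw [Finset.powerset_univ] at this
        have h0 : 0 ≤ 1 / (q p : ℝ) := by positivity
        calc _ ≤ 1 / (q p : ℝ) * B := this.trans (mul_le_mul_of_nonneg_left hB h0)
          _ ≤ 1 / w * B := mul_le_mul_of_nonneg_right (one_div_le_one_div_of_le hw (hqw p)) hB0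
          _ = B / w * 1 := by ring
          _ ≤ _ := mul_le_mul_of_nonneg_left (hql p) (by positivity)
    _ = B / w * ∑ j, LL q (SS τ j) := by
        rw [← Finset.mul_sum]
        congr 1
        unfold LL
        rw [← sum_label τ (fun p => Real.log (q p)), ← Finset.sum_sdiff (Finset.subset_univ F)]
        have z1 : ∑ p ∈ F, Option.elim (τ p) 0 (fun _ => Real.log (q p)) = 0 := by
          refine Finset.sum_eq_zero fun p hp => ?_
          rw [(Finset.mem_filter.1 hp).2]
          rfl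
        rw [z1, add_zero]
        refine Finset.sum_congr rfl fun p hp => ?_
        have := (Finset.mem_sdiff.1 hp).2
        simp only [hF, Finset.mem_filter, Finset.mem_univ, true_and] at this
        obtain ⟨i, hi⟩ := Option.ne_none_iff_exists'.1 this
        rw [hi]
        rfl
    _ ≤ B / w * D := mul_le_mul_of_nonneg_left (by linarith) (by positivity)
    _ = _ := by ring

theorem abs_prod_aa {ι J : Type*} [Fintype ι] [DecidableEq ι] [Fintype J] [DecidableEq J]
    (g : Finset ι → ℝ) (g0 : g ∅ = 0) (g1 : ∀ s, 0 ≤ g s) (g2 : ∀ s, g s ≤ 1)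
    (τ : ι → Option J) : |∏ j, aa g (SS τ j)| ≤ 1 := by
  rw [Finset.abs_prod]
  exact Finset.prod_le_one (fun _ _ => abs_nonneg _) fun j _ => abs_aa_le g g0 g1 g2 _

theorem abs_CC_le {ι J : Type*} [Fintype ι] [DecidableEq ι] [Fintype J] [DecidableEq J]
    (q : ι → ℕ) (g : Finset ι → ℝ) (g0 : g ∅ = 0) (g1 : ∀ s, 0 ≤ g s) (g2 : ∀ s, g s ≤ 1)
    (D : ℝ) (τ : ι → Option J) :
    |CC q g D τ| ≤ if ∑ j, LL q (SS τ j) ≤ D then 1 else 0 := by
  unfold CC
  split_ifs
  · exact abs_prod_aa g g0 g1 g2 τ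
  · simp

theorem abs_Ci_le {ι J : Type*} [Fintype ι] [DecidableEq ι] [Fintype J] [DecidableEq J]
    (q : ι → ℕ) (hq : ∀ p, 0 < q p) (g : Finset ι → ℝ) (g0 : g ∅ = 0) (g1 : ∀ s, 0 ≤ g s)
    (g2 : ∀ s, g s ≤ 1) (gs : ∑ s, g s * (1 / nn q s) = 1)
    (D : ℝ) (i : J) (τ : ι → Option J) :
    |Ci q (CC q g D) i τ| ≤ if ∑ j, LL q (SS τ j) ≤ D then 1 else 0 := by
  rw [Ci_CC q g g0]
  have h1 := II_mem q hq g g1 gs D τ
  by_cases h : ∑ j, LL q (SS τ j) ≤ D
  · rw [if_pos h]
    split_ifs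
    · rw [abs_mul, abs_of_nonneg h1.1]
      exact mul_le_one₀ (abs_prod_aa g g0 g1 g2 τ) h1.1 h1.2
    · simp
  · rw [II_zero q g D τ (not_le.1 h), if_neg h]
    simp

theorem upper_bound {ι J : Type*} [Fintype ι] [DecidableEq ι] [Fintype J] [DecidableEq J]
    (q : ι → ℕ) (hq : ∀ p, 0 < q p) (g : Finset ι → ℝ) (g0 : g ∅ = 0) (g1 : ∀ s, 0 ≤ g s)
    (g2 : ∀ s, g s ≤ 1)
    (gs : ∑ s, g s * (1 / nn q s) = 1) (D T B w : ℝ) (hT : 0 ≤ T) (hw : 0 < w)
    (gT : ∀ s, g s ≠ 0 → LL q s ≤ T)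
    (hqw : ∀ p, w ≤ q p) (hql : ∀ p, 1 ≤ Real.log (q p))
    (hB : ∑ s : Finset ι, 1 / nn q s ≤ B) (i : J) :
    ∑ τ, (∏ p, hi (q p : ℝ) (τ p)) * Ci q (CC q g D) i τ ^ 2 ≤
      (B * D / w) ^ 2 * (∑ s, aa g s ^ 2 * (1 / nn q s)) ^ Fintype.card J +
      ∑ S : J → Finset ι, (if D - T < ∑ j, LL q (S j) then
        ∏ j, (aa g (S j) ^ 2 * (1 / nn q (S j))) else 0) := by
  have hn0 : ∀ s, 0 ≤ aa g s ^ 2 * (1 / nn q s) := fun s =>
    mul_nonneg (sq_nonneg _) (one_div_pos.2 (nn_pos q s fun p _ => hq p)).le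
  set G : (J → Finset ι) → ℝ := fun S =>
    (B * D / w) ^ 2 * ∏ j, (aa g (S j) ^ 2 * (1 / nn q (S j))) +
      (if D - T < ∑ j, LL q (S j) then ∏ j, (aa g (S j) ^ 2 * (1 / nn q (S j))) else 0) with hG
  have hG0 : ∀ S, 0 ≤ G S := by
    intro S
    have := Finset.prod_nonneg (s := univ) fun j _ => hn0 (S j)
    refine add_nonneg (mul_nonneg (sq_nonneg _) this) ?_
    split_ifs
    · exact this
    · exact le_rfl
  calc _ ≤ ∑ τ : ι → Option J, G (SS τ) := by
        refine Finset.sum_le_sum fun τ _ => ?_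
        rw [Ci_CC q g g0, prod_hi]
        split_ifs
        · have h1 := II_mem q hq g g1 gs D τ
          have h2 := Finset.prod_nonneg (s := univ) fun j _ => hn0 (SS τ j)
          have e1 : (∏ j, 1 / nn q (SS τ j)) * ((∏ j, aa g (SS τ j)) * II q g D τ) ^ 2 =
              II q g D τ ^ 2 * ∏ j, (aa g (SS τ j) ^ 2 * (1 / nn q (SS τ j))) := by
            rw [Finset.prod_mul_distrib, Finset.prod_pow]
            ring
          rw [e1]
          simp only [hG]
          split_ifs with h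
          · have : II q g D τ ^ 2 ≤ 1 := pow_le_one₀ h1.1 h1.2
            nlinarith [mul_nonneg (sq_nonneg (B * D / w)) h2]
          · have h3 := II_small q hq g g1 g2 gs D T B w hT hw gT hqw hql hB τ (not_lt.1 h)
            have : II q g D τ ^ 2 ≤ (B * D / w) ^ 2 := pow_le_pow_left₀ h1.1 h3 2
            rw [add_zero]
            exact mul_le_mul_of_nonneg_right this h2
        · simpa using hG0 (SS τ)
    _ ≤ ∑ S, G S := sum_SS_le G hG0
    _ = _ := by
        simp only [hG]
        rw [Finset.sum_add_distrib, ← Finset.mul_sum,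
          ← Fintype.prod_sum (fun (_ : J) s => aa g s ^ 2 * (1 / nn q s))]
        simp

end Pool.Agent.MP_fdd1d3_nt
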