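import Mathlib
import Pool.Agent.MP_fdd1d3_nt.Upper

set_option autoImplicit false

open Finset

namespace Pool.Agent.MP_fdd1d3_nt

theorem one_sub_sum_le_prod {ι : Type*} [DecidableEq ι] (s : Finset ι) (x : ι → ℝ)
    (h0 : ∀ p, 0 ≤ x p) (h1 : ∀ p, x p ≤ 1) :
    1 - ∑ p ∈ s, x p ≤ ∏ p ∈ s, (1 - x p) := by
  induction s using Finset.induction_on with
  | empty => simp
  | insert a s ha ih =>
    rw [Finset.sum_insert ha, Finset.prod_insert ha]
    have h2 : 0 ≤ ∑ p ∈ s, x p := Finset.sum_nonneg fun p _ => h0 p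
    have h3 := mul_le_mul_of_nonneg_left ih (sub_nonneg.2 (h1 a))
    nlinarith [mul_nonneg (h0 a) h2]

theorem lo_ge {ι J : Type*} [Fintype ι] [DecidableEq ι] [Fintype J] [DecidableEq J]
    (q : ι → ℕ) (hq : ∀ p, 0 < q p) (w D : ℝ) (hw : 0 < w) (hqw : ∀ p, w ≤ q p)
    (hql : ∀ p, 1 ≤ Real.log (q p)) (hk : (Fintype.card J : ℝ) ≤ w)
    (hkD : Fintype.card J * D ≤ w / 2) (σ : ι → Option J) (h : ∑ j, LL q (SS σ j) ≤ D) :
    1 / 2 * ∏ p, hi (q p : ℝ) (σ p) ≤ ∏ p, lo (q p : ℝ) (σ p) := by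
  have hq' : ∀ p, (0 : ℝ) < q p := fun p => by exact_mod_cast hq p
  set x : ι → ℝ := fun p => Option.elim (σ p) 0 (fun _ => (Fintype.card J : ℝ) / q p) with hx
  have e1 : ∀ p, lo (q p : ℝ) (σ p) = (1 - x p) * hi (q p : ℝ) (σ p) := by
    intro p
    simp only [hx]
    cases σ p with
    | none => simp [lo, hi]
    | some i => simp only [lo, hi, Option.elim]; ring
  simp only [e1]
  rw [Finset.prod_mul_distrib]
  refine mul_le_mul_of_nonneg_right ?_ (Finset.prod_nonneg fun p _ => ?_)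
  · refine le_trans ?_ (one_sub_sum_le_prod univ x ?_ ?_)
    · have : ∑ p, x p ≤ Fintype.card J / w * ∑ j, LL q (SS σ j) := by
        unfold LL
        rw [← sum_label σ (fun p => Real.log (q p)), Finset.mul_sum]
        refine Finset.sum_le_sum fun p _ => ?_
        simp only [hx]
        cases σ p with
        | none => simp
        | some i =>
          simp only [Option.elim]
          calc (Fintype.card J : ℝ) / q p ≤ Fintype.card J / w := by gcongr; exact hqw p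
            _ ≤ _ := le_mul_of_one_le_right (by positivity) (hql p)
      have h2 : Fintype.card J / w * ∑ j, LL q (SS σ j) ≤ Fintype.card J / w * D := by gcongr
      have h3 : Fintype.card J / w * D ≤ 1 / 2 := by
        rw [div_mul_eq_mul_div, div_le_iff₀ hw]
        linarith
      linarith
    · intro p
      simp only [hx]
      cases σ p with
      | none => simp
      | some i => simp only [Option.elim]; positivity
    · intro p
      simp only [hx]
      cases σ p with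
      | none => simp
      | some i =>
        simp only [Option.elim]
        exact (div_le_one (hq' p)).2 (hk.trans (hqw p))
  · cases σ p with
    | none => simp [hi]
    | some i => simp only [hi]; positivity

open Classical in
theorem lower_bound {ι J : Type*} [Fintype ι] [DecidableEq ι] [Fintype J] [DecidableEq J]
    (q : ι → ℕ) (hq : ∀ p, 0 < q p) (g : Finset ι → ℝ) (w D : ℝ) (hw : 0 < w)
    (hqw : ∀ p, w ≤ q p)
    (hql : ∀ p, 1 ≤ Real.log (q p)) (hk : (Fintype.card J : ℝ) ≤ w)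
    (hkD : Fintype.card J * D ≤ w / 2) :
    1 / 2 * ((∑ s, aa g s ^ 2 * (1 / nn q s)) ^ Fintype.card J -
      ∑ S : J → Finset ι, (if D < ∑ j, LL q (S j) then
        ∏ j, (aa g (S j) ^ 2 * (1 / nn q (S j))) else 0) -
      ∑ S : J → Finset ι, (if ∃ j j' p, j ≠ j' ∧ p ∈ S j ∧ p ∈ S j' then
        ∏ j, (aa g (S j) ^ 2 * (1 / nn q (S j))) else 0)) ≤
    ∑ σ : ι → Option J, (∏ p, lo (q p : ℝ) (σ p)) * CC q g D σ ^ 2 := by
  have hn0 : ∀ s, 0 ≤ aa g s ^ 2 * (1 / nn q s) := fun s =>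
    mul_nonneg (sq_nonneg _) (one_div_pos.2 (nn_pos q s fun p _ => hq p)).le
  set ν : Finset ι → ℝ := fun s => aa g s ^ 2 * (1 / nn q s) with hν
  have hp0 : ∀ S : J → Finset ι, 0 ≤ ∏ j, ν (S j) := fun S =>
    Finset.prod_nonneg fun j _ => hn0 (S j)
  set G : (J → Finset ι) → ℝ := fun S =>
      (if ∑ j, LL q (S j) ≤ D then ∏ j, ν (S j) else 0) with hG
  have hG0 : ∀ S, 0 ≤ G S := by
    intro S
    simp only [hG]
    split_ifs
    · exact hp0 S
    · exact le_rfl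
  have h1 := sum_le_SS G hG0
  have h2 : ∑ S, G S = (∑ s, ν s) ^ Fintype.card J -
      ∑ S : J → Finset ι, (if D < ∑ j, LL q (S j) then ∏ j, ν (S j) else 0) := by
    have : (∑ s, ν s) ^ Fintype.card J = ∑ S : J → Finset ι, ∏ j, ν (S j) := by
      rw [← Fintype.prod_sum (fun (_ : J) s => ν s)]
      simp
    rw [this, ← Finset.sum_sub_distrib]
    refine Finset.sum_congr rfl fun S _ => ?_
    simp only [hG]
    by_cases h : ∑ j, LL q (S j) ≤ D
    · simp [h, not_lt.2 h]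
    · simp [h, not_le.1 h]
  have h3 : ∑ S : J → Finset ι, (if ∃ j j' p, j ≠ j' ∧ p ∈ S j ∧ p ∈ S j' then G S else 0) ≤
      ∑ S : J → Finset ι, (if ∃ j j' p, j ≠ j' ∧ p ∈ S j ∧ p ∈ S j' then
        ∏ j, ν (S j) else 0) := by
    refine Finset.sum_le_sum fun S _ => ?_
    simp only [hG]
    split_ifs
    · exact le_rfl
    · exact hp0 S
    · exact le_rfl
  have h4 : 1 / 2 * ∑ σ : ι → Option J, G (SS σ) ≤
      ∑ σ : ι → Option J, (∏ p, lo (q p : ℝ) (σ p)) * CC q g D σ ^ 2 := by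
    rw [Finset.mul_sum]
    refine Finset.sum_le_sum fun σ _ => ?_
    simp only [hG, CC]
    split_ifs with h
    · have := lo_ge q hq w D hw hqw hql hk hkD σ h
      rw [prod_hi] at this
      simp only [hν]
      rw [Finset.prod_mul_distrib, Finset.prod_pow]
      have h5 := mul_le_mul_of_nonneg_right this (sq_nonneg (∏ j, aa g (SS σ j)))
      linarith
    · simp
  linarith

theorem stage2 {ι J : Type*} [Fintype ι] [DecidableEq ι] [Fintype J] [DecidableEq J]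
    (q : ι → ℕ) (hq : ∀ p, 0 < q p)
    (hcop : ∀ p p', p ≠ p' → Nat.Coprime (q p) (q p')) (ω : ι → ℕ → Option J)
    (hper : ∀ p, Function.Periodic (ω p) (q p))
    (hω : ∀ p i, ((range (q p)).filter (fun t => ω p t = some i)).card = 1)
    (g : Finset ι → ℝ) (g0 : g ∅ = 0) (g1 : ∀ s, 0 ≤ g s) (g2 : ∀ s, g s ≤ 1)
    (gs : ∑ s, g s * (1 / nn q s) = 1) (D T B w η c τ : ℝ) (hT : 0 < T) (hw : 0 < w)
    (hc : 0 ≤ c) (gT : ∀ s, g s ≠ 0 → LL q s ≤ T)
    (gc : ∑ s, g s ^ 2 * (1 / nn q s) * LL q s ≤ c)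
    (hqw : ∀ p, w ≤ q p) (hql : ∀ p, 1 ≤ Real.log (q p))
    (hB : ∑ s : Finset ι, 1 / nn q s ≤ B) (hη : ∑ p, (1 / (q p : ℝ)) ^ 2 ≤ η)
    (hk : (Fintype.card J : ℝ) ≤ w) (hkD : Fintype.card J * D ≤ w / 2)
    (hτ : Real.exp ((2 * c * Fintype.card J - (D - T)) / T) ≤ τ) (hτ1 : τ ≤ 1 / 4)
    (hτ2 : Fintype.card J * τ ≤ 1 / 16) (hkη : Fintype.card J * η ≤ 1)
    (hkB : (Fintype.card J) ^ 2 * B ^ 2 * η ≤ 1 / 4)
    (heps : Fintype.card J * (B * D / w) ^ 2 ≤ 1 / 16) (a N : ℕ)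
    (hN : 16 * (Fintype.card J + 1) * Real.exp (6 * D + 2) < N) :
    ∃ t < N, ∀ i, ∃ p, ω p (a + t) = some i := by
  classical
  by_contra hcon
  push Not at hcon
  have hq' : ∀ p, (0 : ℝ) < q p := fun p => by exact_mod_cast hq p
  have hn0 : ∀ s, 0 ≤ (1 / nn q s) := fun s =>
    (one_div_pos.2 (nn_pos q s fun p _ => hq p)).le
  set ν : Finset ι → ℝ := fun s => aa g s ^ 2 * (1 / nn q s) with hν
  have hν0 : ∀ s, 0 ≤ ν s := fun s => mul_nonneg (sq_nonneg _) (hn0 s)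
  have hν1 : ∀ s, ν s ≤ 1 / nn q s := fun s => by
    refine mul_le_of_le_one_left (hn0 s) ?_
    rw [← sq_abs]
    exact pow_le_one₀ (abs_nonneg _) (abs_aa_le g g0 g1 g2 s)
  have hZ : 1 ≤ ∑ s, ν s := by
    refine le_trans ?_ (Finset.single_le_sum (fun s _ => hν0 s) (Finset.mem_univ ∅))
    simp [hν, aa, g0, nn]
  have hνT : ∀ s, ν s ≠ 0 → LL q s ≤ T := by
    intro s hs
    by_cases h : s = ∅
    · simp [h, LL, hT.le]
    · refine gT s fun h1 => hs ?_
      simp [hν, aa, h, h1]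
  have hνL : ∑ s, ν s * LL q s ≤ c := by
    refine le_trans (le_of_eq ?_) gc
    refine Finset.sum_congr rfl fun s _ => ?_
    by_cases h : s = ∅
    · simp [h, LL]
    · simp [hν, aa, h]
  set k := Fintype.card J with hkd
  set Z := ∑ s, ν s with hZd
  have hZk : 1 ≤ Z ^ k := one_le_pow₀ hZ
  have t1 := tail_bound (J := J) ν (LL q) T c D hT hc hν0 (LL_nonneg q) hνT hνL hZ
  have t2 := tail_bound (J := J) ν (LL q) T c (D - T) hT hc hν0 (LL_nonneg q) hνT hνL hZ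
  have t3 := nondisj_bound (J := J) q hq ν B η hν0 hν1 hZ hB hη
  have l1 := lower_bound (J := J) q hq g w D hw hqw hql hk hkD
  have hkq : ∀ p, (k : ℝ) ≤ q p := fun p => hk.trans (hqw p)
  have l2 := gram_lower (J := J) (fun p => (q p : ℝ)) hq' hkq (CC q g D)
  have hτ' : Real.exp ((2 * c * k - D) / T) ≤ 1 / 4 := by
    refine le_trans (Real.exp_le_exp.2 ?_) (hτ.trans hτ1)
    gcongr
    linarith
  have t1' : Z ^ k * Real.exp ((2 * c * k - D) / T) ≤ Z ^ k * (1 / 4) := by gcongr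
  have t2' : Z ^ k * Real.exp ((2 * c * k - (D - T)) / T) ≤ Z ^ k * τ := by gcongr
  have t3' : (k : ℝ) ^ 2 * B ^ 2 * η * Z ^ k ≤ 1 / 4 * Z ^ k := by gcongr
  set E := Real.exp (6 * D + 2) with hE
  have hE' : Real.exp (3 * D + 1) ^ 2 = E := by
    rw [hE, ← Real.exp_nat_mul]
    congr 1
    push_cast
    ring
  have err : ∀ C : (ι → Option J) → ℝ,
      (∀ σ, |C σ| ≤ if ∑ j, LL q (SS σ j) ≤ D then 1 else 0) →
      |∑ t ∈ range N, (∑ σ, C σ * ∏ p, fn (q p : ℝ) (σ p) (ω p (a + t))) ^ 2 -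
      N * ∑ o : ι → Option J, (∏ p, wt (q p : ℝ) (o p)) *
        (∑ σ, C σ * ∏ p, fn (q p : ℝ) (σ p) (o p)) ^ 2| ≤ 2 * E := by
    intro C hC
    refine (equi_sq q hq hcop ω hper hω C a N).trans ?_
    rw [← hE']
    have h1 := count_bound q hq D η hη hkη C hC
    have h0 : 0 ≤ ∑ σ, |C σ| * dm q σ := Finset.sum_nonneg fun σ _ =>
      mul_nonneg (abs_nonneg _) (by rw [dm_eq_exp q hq]; exact (Real.exp_pos _).le)
    gcongr
  have hN0 : (0 : ℝ) ≤ N := Nat.cast_nonneg _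
  have low : N * (Z ^ k / 4) - 2 * E ≤
      ∑ t ∈ range N, (∑ σ, CC q g D σ * ∏ p, fn (q p : ℝ) (σ p) (ω p (a + t))) ^ 2 := by
    have h1 := (abs_le.1 (err (CC q g D) (abs_CC_le q g g0 g1 g2 D))).1
    have h2 : Z ^ k / 4 ≤ ∑ o : ι → Option J, (∏ p, wt (q p : ℝ) (o p)) *
        (∑ σ, CC q g D σ * ∏ p, fn (q p : ℝ) (σ p) (o p)) ^ 2 := by
      linarith
    have h3 := mul_le_mul_of_nonneg_left h2 hN0
    linarith
  have up : ∀ i : J,
      ∑ t ∈ range N, (∑ σ, Ci q (CC q g D) i σ * ∏ p, fn (q p : ℝ) (σ p) (ω p (a + t))) ^ 2 ≤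
        N * (Z ^ k * ((B * D / w) ^ 2 + τ)) + 2 * E := by
    intro i
    have h1 := (abs_le.1 (err (Ci q (CC q g D) i) (abs_Ci_le q hq g g0 g1 g2 gs D i))).2
    have u1 := gram_upper (J := J) (fun p => (q p : ℝ)) hq' hkq (Ci q (CC q g D) i)
    have u2 := upper_bound (J := J) q hq g g0 g1 g2 gs D T B w hT.le hw gT hqw hql hB i
    have h2 : ∑ o : ι → Option J, (∏ p, wt (q p : ℝ) (o p)) *
        (∑ σ, Ci q (CC q g D) i σ * ∏ p, fn (q p : ℝ) (σ p) (o p)) ^ 2 ≤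
        Z ^ k * ((B * D / w) ^ 2 + τ) := by
      linarith
    have h3 := mul_le_mul_of_nonneg_left h2 hN0
    linarith
  have mid : ∑ t ∈ range N, (∑ σ, CC q g D σ * ∏ p, fn (q p : ℝ) (σ p) (ω p (a + t))) ^ 2 ≤
      ∑ i : J, ∑ t ∈ range N,
        (∑ σ, Ci q (CC q g D) i σ * ∏ p, fn (q p : ℝ) (σ p) (ω p (a + t))) ^ 2 := by
    rw [Finset.sum_comm]
    refine Finset.sum_le_sum fun t ht => ?_
    obtain ⟨i, hi⟩ := hcon t (Finset.mem_range.1 ht)
    rw [psi_bad q (CC q g D) i (fun p => ω p (a + t)) hi]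
    exact Finset.single_le_sum (f := fun i =>
      (∑ σ, Ci q (CC q g D) i σ * ∏ p, fn (q p : ℝ) (σ p) (ω p (a + t))) ^ 2)
      (fun i _ => sq_nonneg _) (Finset.mem_univ i)
  have up2 : ∑ i : J, ∑ t ∈ range N,
        (∑ σ, Ci q (CC q g D) i σ * ∏ p, fn (q p : ℝ) (σ p) (ω p (a + t))) ^ 2 ≤
      k * (N * (Z ^ k * ((B * D / w) ^ 2 + τ)) + 2 * E) := by
    refine (Finset.sum_le_sum fun i _ => up i).trans (le_of_eq ?_)
    rw [Finset.sum_const, Finset.card_univ, nsmul_eq_mul]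
  have fin1 : k * (N * (Z ^ k * ((B * D / w) ^ 2 + τ))) ≤ N * (Z ^ k / 8) := by
    have : (k : ℝ) * ((B * D / w) ^ 2 + τ) ≤ 1 / 8 := by linarith
    calc _ = N * (Z ^ k * (k * ((B * D / w) ^ 2 + τ))) := by ring
      _ ≤ N * (Z ^ k * (1 / 8)) := by gcongr
      _ = _ := by ring
  have fin2 : (N : ℝ) ≤ N * Z ^ k := le_mul_of_one_le_right hN0 hZk
  nlinarith

end Pool.Agent.MP_fdd1d3_nt
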