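import Mathlib
import Pool.Agent.MP_fdd1d3_nt.Mertens

set_option autoImplicit false

open Finset

namespace Pool.Agent.MP_fdd1d3_nt

theorem dyadic (u : ℝ) (n : ℕ) :
    ∑ j ∈ range n, (if u ≤ 2 ^ j then 1 / (2 : ℝ) ^ j else 0) ≤
      2 * (max (1 / u) 1 - min (1 / u) (1 / 2 ^ n)) - 2 * (max (1 / u) 1 - 1 / u) ∨ u ≤ 0 := by
  by_cases hu : u ≤ 0
  · exact Or.inr hu
  left
  have hu' : 0 < u := not_le.1 hu
  induction n with
  | zero =>
    have := min_le_left (1 / u) (1 / (2 : ℝ) ^ 0)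
    simp only [range_zero, sum_empty]
    linarith
  | succ n ih =>
    rw [Finset.sum_range_succ]
    have h2 : (0 : ℝ) < 2 ^ n := by positivity
    have e : 1 / (2 : ℝ) ^ (n + 1) = 1 / 2 ^ n / 2 := by
      rw [pow_succ, div_div]
    have h3 : (0 : ℝ) < 1 / 2 ^ n := by positivity
    split_ifs with h
    · have h4 : 1 / (2 : ℝ) ^ n ≤ 1 / u := one_div_le_one_div_of_le hu' h
      rw [min_eq_right h4] at ih
      rw [min_eq_right (by rw [e]; linarith), e]
      linarith
    · have h4 : min (1 / u) (1 / (2 : ℝ) ^ (n + 1)) ≤ min (1 / u) (1 / 2 ^ n) :=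
        min_le_min le_rfl (by rw [e]; linarith)
      linarith

theorem dyadic' (u : ℝ) (hu : 0 < u) (a n : ℕ) :
    ∑ j ∈ Ico a n, (if u ≤ 2 ^ j then 1 / (2 : ℝ) ^ j else 0) ≤ 2 * (1 / u) := by
  have h1 := (dyadic u n).resolve_right (not_le.2 hu)
  have h2 : 0 ≤ min (1 / u) (1 / (2 : ℝ) ^ n) := le_min (by positivity) (by positivity)
  have h3 : ∑ j ∈ Ico a n, (if u ≤ 2 ^ j then 1 / (2 : ℝ) ^ j else 0) ≤
      ∑ j ∈ range n, (if u ≤ 2 ^ j then 1 / (2 : ℝ) ^ j else 0) := by
    refine Finset.sum_le_sum_of_subset_of_nonneg ?_ fun j _ _ => ?_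
    · intro j hj
      rw [Finset.mem_Ico] at hj
      exact Finset.mem_range.2 hj.2
    · split_ifs
      · positivity
      · exact le_rfl
  linarith

theorem exists_weight {ι : Type*} [Fintype ι] [DecidableEq ι] (q : ι → ℕ) (hq : ∀ p, 0 < q p)
    (m : ℕ) (hm : 0 < m) (lam K : ℝ) (hlam : 0 < lam) (hK : 4 * lam ≤ K * m)
    (hKq : ∀ p, K ≤ Real.log (q p)) (hlm : 2 * lam ≤ 2 ^ m)
    (H : ∀ j, j < 2 * m → (2 : ℝ) ^ j ≤
      lam * ∑ s ∈ univ.filter (fun s => LL q s ≤ 2 ^ j), 1 / nn q s) :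
    ∃ g : Finset ι → ℝ, g ∅ = 0 ∧ (∀ s, 0 ≤ g s) ∧ (∀ s, g s ≤ 1) ∧
      ∑ s, g s * (1 / nn q s) = 1 ∧ (∀ s, g s ≠ 0 → LL q s ≤ 4 ^ m) ∧
      ∑ s, g s ^ 2 * (1 / nn q s) * LL q s ≤ K := by
  have hm' : (0 : ℝ) < m := by exact_mod_cast hm
  have hK0 : 0 < K := by
    by_contra h
    have : K * m ≤ 0 := mul_nonpos_of_nonpos_of_nonneg (not_lt.1 h) hm'.le
    linarith
  have hn0 : ∀ s, 0 < (1 / nn q s) := fun s => (one_div_pos.2 (nn_pos q s fun p _ => hq p))
  have hLK : ∀ s, s ≠ ∅ → K ≤ LL q s := by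
    intro s hs
    obtain ⟨p, hp⟩ := Finset.nonempty_iff_ne_empty.2 hs
    exact (hKq p).trans (Finset.single_le_sum (f := fun p => Real.log (q p))
      (fun p _ => Real.log_natCast_nonneg _) hp)
  set S := ∑ s, (if s ≠ ∅ ∧ LL q s ≤ 4 ^ m then 1 / LL q s * (1 / nn q s) else 0) with hS
  have hS1 : m / (4 * lam) ≤ S := by
    have h1 : ∑ j ∈ Ico m (2 * m), ∑ s, (if s ≠ ∅ ∧ LL q s ≤ 2 ^ j then
        1 / (2 : ℝ) ^ j * (1 / nn q s) else 0) ≤ 2 * S := by
      rw [Finset.sum_comm, hS, Finset.mul_sum]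
      refine Finset.sum_le_sum fun s _ => ?_
      by_cases hs : s = ∅
      · simp [hs]
      by_cases hs2 : LL q s ≤ 4 ^ m
      · have h2 := dyadic' (LL q s) (hK0.trans_le (hLK s hs)) m (2 * m)
        have h3 := mul_le_mul_of_nonneg_right h2 (hn0 s).le
        rw [Finset.sum_mul] at h3
        simp only [ne_eq, hs, not_false_eq_true, true_and, hs2, if_true]
        rw [← mul_assoc]
        refine le_trans (le_of_eq ?_) h3
        refine Finset.sum_congr rfl fun j _ => ?_
        split_ifs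
        · rfl
        · simp
      · simp only [ne_eq, hs, not_false_eq_true, true_and, hs2, if_false, mul_zero]
        refine le_of_eq (Finset.sum_eq_zero fun j hj => ?_)
        rw [if_neg]
        intro h
        apply hs2
        refine h.trans ?_
        rw [show (4 : ℝ) = 2 ^ 2 by norm_num, ← pow_mul]
        exact pow_le_pow_right₀ (by norm_num) (Finset.mem_Ico.1 hj).2.le
    have h2 : ∀ j ∈ Ico m (2 * m), 1 / (2 * lam) ≤ ∑ s, (if s ≠ ∅ ∧ LL q s ≤ 2 ^ j then
        1 / (2 : ℝ) ^ j * (1 / nn q s) else 0) := by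
      intro j hj
      rw [Finset.mem_Ico] at hj
      have h3 := H j hj.2
      have h4 : (0 : ℝ) < 2 ^ j := by positivity
      have h5 : 2 * lam ≤ 2 ^ j := hlm.trans (pow_le_pow_right₀ (by norm_num) hj.1)
      have e1 : ∑ s, (if s ≠ ∅ ∧ LL q s ≤ 2 ^ j then 1 / (2 : ℝ) ^ j * (1 / nn q s) else 0) =
          1 / (2 : ℝ) ^ j * (∑ s ∈ univ.filter (fun s => LL q s ≤ 2 ^ j), 1 / nn q s - 1) := by
        have e2 : ∑ s : Finset ι, (if s = ∅ then (1 : ℝ) else 0) = 1 := by
          rw [Finset.sum_ite_eq']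
          simp
        rw [Finset.sum_filter]
        conv_rhs => enter [2, 2]; rw [← e2]
        rw [← Finset.sum_sub_distrib, Finset.mul_sum]
        refine Finset.sum_congr rfl fun s _ => ?_
        by_cases hs : s = ∅
        · subst hs
          have : LL q ∅ ≤ 2 ^ j := by simp [LL]
          simp [this, nn]
        · simp [hs]
      rw [e1]
      set Hs := ∑ s ∈ univ.filter (fun s => LL q s ≤ 2 ^ j), 1 / nn q s
      rw [one_div_mul_eq_div, div_le_div_iff₀ (by positivity) h4]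
      nlinarith
    have h3 := Finset.card_nsmul_le_sum _ _ _ h2
    rw [Nat.card_Ico, show 2 * m - m = m by omega, nsmul_eq_mul] at h3
    have e : (m : ℝ) / (4 * lam) = (m * (1 / (2 * lam))) / 2 := by
      field_simp
      ring
    rw [e]
    linarith
  have hS0 : 0 < S := lt_of_lt_of_le (by positivity) hS1
  have hc : 1 / S ≤ K := by
    rw [div_le_iff₀ hS0]
    have h1 := mul_le_mul_of_nonneg_left hS1 hK0.le
    refine le_trans ?_ h1
    rw [← mul_div_assoc, le_div_iff₀ (by positivity)]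
    linarith
  refine ⟨fun s => if s ≠ ∅ ∧ LL q s ≤ 4 ^ m then 1 / S * (1 / LL q s) else 0,
    by simp, ?_, ?_, ?_, ?_, ?_⟩
  · intro s
    simp only
    split_ifs
    · have := LL_nonneg q s
      positivity
    · exact le_rfl
  · intro s
    simp only
    split_ifs with h
    · have h1 := hLK s h.1
      rw [mul_one_div, div_le_one (hK0.trans_le h1)]
      exact hc.trans h1
    · exact zero_le_one
  · have : ∑ s, (if s ≠ ∅ ∧ LL q s ≤ 4 ^ m then 1 / S * (1 / LL q s) else 0) * (1 / nn q s) =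
        1 / S * S := by
      conv_rhs => enter [2]; rw [hS]
      rw [Finset.mul_sum]
      refine Finset.sum_congr rfl fun s _ => ?_
      split_ifs
      · ring
      · ring
    rw [this]
    field_simp
  · intro s hs
    simp only at hs
    split_ifs at hs with h
    · exact h.2
    · exact absurd rfl hs
  · have : ∑ s, (if s ≠ ∅ ∧ LL q s ≤ 4 ^ m then 1 / S * (1 / LL q s) else 0) ^ 2 *
        (1 / nn q s) * LL q s = (1 / S) ^ 2 * S := by
      conv_rhs => enter [2]; rw [hS]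
      rw [Finset.mul_sum]
      refine Finset.sum_congr rfl fun s _ => ?_
      split_ifs with h
      · have := (hK0.trans_le (hLK s h.1)).ne'
        field_simp
      · ring
    rw [this]
    refine le_trans (le_of_eq ?_) hc
    field_simp

theorem sum_subtype (P : Finset ℕ) (G : Finset ℕ → ℝ) :
    ∑ s : Finset P, G (s.map (Function.Embedding.subtype _)) = ∑ s ∈ P.powerset, G s := by
  refine Finset.sum_nbij' (fun s => s.map (Function.Embedding.subtype _))
    (fun s => s.subtype (fun p => p ∈ P)) ?_ ?_ ?_ ?_ ?_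
  · intro s _
    rw [Finset.mem_powerset]
    intro p hp
    obtain ⟨a, _, rfl⟩ := Finset.mem_map.1 hp
    exact a.2
  · intro s _
    exact Finset.mem_univ _
  · intro s _
    ext p
    simp
  · intro s hs
    exact Finset.subtype_map_of_mem (Finset.mem_powerset.1 hs)
  · intro s _
    rfl

theorem nn_map (P : Finset ℕ) (s : Finset P) :
    nn (fun p : P => (p : ℕ)) s = nn (fun p => p) (s.map (Function.Embedding.subtype _)) := by
  simp [nn]

theorem LL_map (P : Finset ℕ) (s : Finset P) :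
    LL (fun p : P => (p : ℕ)) s = LL (fun p => p) (s.map (Function.Embedding.subtype _)) := by
  simp [LL]

theorem B_bound (w X : ℕ) (hX : 2 ≤ X) :
    ∑ s : Finset (PP w X), 1 / nn (fun p : PP w X => (p : ℕ)) s ≤ 15 * Real.log X := by
  simp only [nn_map]
  rw [sum_subtype (PP w X) (fun s => 1 / nn (fun p => p) s)]
  refine le_trans ?_ (mertens_b X hX)
  refine Finset.sum_le_sum_of_subset_of_nonneg (Finset.powerset_mono.2 ?_) fun s _ _ => ?_
  · intro p hp
    rw [mem_PP] at hp ⊢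
    exact ⟨⟨hp.2.pos, hp.1.2⟩, hp.2⟩
  · rw [nn_id]
    positivity

theorem eta_bound (w X : ℕ) (hw : 0 < w) :
    ∑ p : PP w X, (1 / ((p : ℕ) : ℝ)) ^ 2 ≤ 1 / (w : ℝ) := by
  rw [Finset.sum_coe_sort (PP w X) (fun p => (1 / (p : ℝ)) ^ 2)]
  refine le_trans ?_ (inv_sq_tail w X hw)
  exact Finset.sum_le_sum_of_subset_of_nonneg (Finset.filter_subset _ _) fun p _ _ => by positivity

theorem H_bound (w : ℕ) (hw : 2 ≤ w) (T u : ℝ) (hu : u ≤ T) :
    u ≤ 30 * Real.log w * ∑ s ∈ univ.filter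
      (fun s : Finset (PP w ⌊Real.exp T⌋₊) => LL (fun p : PP w ⌊Real.exp T⌋₊ => (p : ℕ)) s ≤ u),
        1 / nn (fun p : PP w ⌊Real.exp T⌋₊ => (p : ℕ)) s := by
  set X := ⌊Real.exp T⌋₊ with hX
  have h1 := mertens_c w X ⌊Real.exp u⌋₊ hw (Nat.floor_mono (Real.exp_le_exp.2 hu))
  have h2 : u ≤ Real.log (⌊Real.exp u⌋₊ + 1) := by
    rw [Real.le_log_iff_exp_le (by positivity)]
    exact (Nat.lt_floor_add_one _).le
  refine h2.trans (h1.trans (mul_le_mul_of_nonneg_left ?_ ?_))
  · rw [Finset.sum_filter, Finset.sum_filter]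
    simp only [nn_map, LL_map]
    rw [sum_subtype (PP w X) (fun s => if LL (fun p => p) s ≤ u then 1 / nn (fun p => p) s else 0)]
    refine Finset.sum_le_sum fun s hs => ?_
    have hs0 : ∀ p ∈ s, 0 < p := fun p hp =>
      ((mem_PP _ _ _).1 (Finset.mem_powerset.1 hs hp)).2.pos
    split_ifs with h3 h4
    · exact le_rfl
    · exfalso
      apply h4
      rw [← Real.exp_le_exp, exp_LL _ _ hs0, nn_id]
      exact le_trans (by exact_mod_cast h3) (Nat.floor_le (Real.exp_pos u).le)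
    · rw [nn_id]
      positivity
    · exact le_rfl
  · have := Real.log_natCast_nonneg w
    positivity

end Pool.Agent.MP_fdd1d3_nt
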