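import Mathlib
import Pool.Agent.MP_fdd1d3_nt.Stage2
import Pool.Agent.MP_fdd1d3_nt.Weight

set_option autoImplicit false

open Finset

namespace Pool.Agent.MP_fdd1d3_nt

theorem root_unique (p k k' n : ℕ) (hp : p.Prime) (hk : k < p) (hk' : k' < p)
    (h : p ∣ k * n + 1) (h' : p ∣ k' * n + 1) : k = k' := by
  have := Fact.mk hp
  rw [← ZMod.natCast_eq_zero_iff] at h h'
  push_cast at h h'
  have hn : (n : ZMod p) ≠ 0 := by
    intro h0
    rw [h0] at h
    simp at h
  have h1 : (k : ZMod p) = k' := by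
    apply mul_right_cancel₀ hn
    linear_combination h - h'
  exact Nat.ModEq.eq_of_lt_of_lt ((ZMod.natCast_eq_natCast_iff _ _ _).1 h1) hk hk'

theorem root_count (p c d : ℕ) (hp : p.Prime) (hc : ¬ p ∣ c) :
    ((range p).filter (fun t => p ∣ c * t + d)).card = 1 := by
  have := Fact.mk hp
  have hc' : (c : ZMod p) ≠ 0 := by rwa [Ne, ZMod.natCast_eq_zero_iff]
  rw [Finset.card_eq_one]
  refine ⟨(-(d : ZMod p) / c).val, ?_⟩
  ext t
  simp only [Finset.mem_filter, Finset.mem_range, Finset.mem_singleton,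
    ← ZMod.natCast_eq_zero_iff]
  push_cast
  constructor
  · rintro ⟨h1, h2⟩
    have : -(d : ZMod p) / c = t := by
      rw [div_eq_iff hc']
      linear_combination -h2
    rw [this, ZMod.val_cast_of_lt h1]
  · rintro rfl
    refine ⟨ZMod.val_lt _, ?_⟩
    rw [ZMod.natCast_zmod_val]
    field_simp
    ring

theorem exists_state (S : Finset ℕ) (p Q b : ℕ) (hp : p.Prime) (hQ : ¬ p ∣ Q)
    (hS : ∀ k ∈ S, 1 ≤ k ∧ k < p) :
    ∃ ω : ℕ → Option S, Function.Periodic ω p ∧
      (∀ i, ((range p).filter (fun t => ω t = some i)).card = 1) ∧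
      ∀ t i, ω t = some i → p ∣ i * (Q * t + b) + 1 := by
  classical
  set ω : ℕ → Option S := fun t =>
    if h : ∃ i : S, p ∣ i * (Q * t + b) + 1 then some h.choose else none with hω
  have key : ∀ t i, ω t = some i ↔ p ∣ i * (Q * t + b) + 1 := by
    intro t i
    simp only [hω]
    constructor
    · intro h
      split_ifs at h with h1
      have := h1.choose_spec
      rwa [Option.some.inj h] at this
    · intro h
      have h1 : ∃ i : S, p ∣ i * (Q * t + b) + 1 := ⟨i, h⟩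
      rw [dif_pos h1]
      congr 1
      exact Subtype.ext (root_unique p _ _ _ hp (hS _ h1.choose.2).2 (hS _ i.2).2
        h1.choose_spec h)
  refine ⟨ω, ?_, ?_, fun t i h => (key t i).1 h⟩
  · intro t
    refine Option.ext fun i => ?_
    rw [key, key, show (i : ℕ) * (Q * (t + p) + b) + 1 = p * (i * Q) + (i * (Q * t + b) + 1) by
      ring]
    exact Nat.dvd_add_right (Dvd.intro _ rfl)
  · intro i
    simp only [key]
    have := root_count p (i * Q) (i * b + 1) hp (by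
      rw [hp.dvd_mul, not_or]
      exact ⟨Nat.not_dvd_of_pos_of_lt (hS _ i.2).1 (hS _ i.2).2, hQ⟩)
    refine Eq.trans ?_ this
    congr 1
    refine Finset.filter_congr fun t _ => ?_
    rw [show (i : ℕ) * (Q * t + b) + 1 = i * Q * t + (i * b + 1) by ring]

theorem two_pow_ge (m : ℕ) (hm : 25 ≤ m) : 1200 * m ≤ 2 ^ m := by
  obtain ⟨r, rfl⟩ := Nat.exists_eq_add_of_le (show 11 ≤ m by omega)
  have := Nat.lt_two_pow_self (n := r)
  rw [pow_add]
  omega

theorem stage2_nt (m : ℕ) (hm : 121 ≤ m) (S : Finset ℕ)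
    (hS : ∀ k ∈ S, 1 ≤ k ∧ k ≤ (16 ^ m) ^ 5) (hc : S.card ≤ 16 ^ m) (b : ℕ) :
    ∃ t : ℕ, 16 ^ m ≤ t ∧ (t + 1 : ℝ) ≤ Real.exp (19990 * 16 ^ m) ∧
      ∀ k ∈ S, ¬ (k * (primorial (16 ^ m) * t + b) + 1).Prime := by
  classical
  set T : ℝ := 4 ^ m with hT
  have hT6 : (10 : ℝ) ^ 6 ≤ T := by
    calc (10 : ℝ) ^ 6 ≤ 4 ^ 10 := by norm_num
      _ ≤ 4 ^ m := pow_le_pow_right₀ (by norm_num) (by omega)
  have hT0 : 0 < T := by positivity
  have hT1 : 1 ≤ T := by linarith
  have hx : ((16 ^ m : ℕ) : ℝ) = T ^ 2 := by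
    rw [hT, ← pow_mul, mul_comm, pow_mul]
    norm_num
  have hx' : (16 : ℝ) ^ m = T ^ 2 := by
    rw [← hx]
    norm_num
  set w : ℕ := (16 ^ m) ^ 5 with hw
  have hwT : (w : ℝ) = T ^ 10 := by
    rw [hw, Nat.cast_pow, hx, ← pow_mul]
  have hlw : Real.log w = 20 * m * Real.log 2 := by
    rw [hw, show 16 = 2 ^ 4 by norm_num, ← pow_mul, ← pow_mul]
    push_cast
    rw [Real.log_pow]
    push_cast
    ring
  have hx1 : 1 ≤ 16 ^ m := Nat.one_le_pow _ _ (by norm_num)
  have hxw : 16 ^ m ≤ w := Nat.le_self_pow (by norm_num) _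
  have hw2 : 2 ≤ w := by
    have : (2 : ℝ) ≤ w := by
      rw [hwT]
      calc (2 : ℝ) ≤ T := by linarith
        _ ≤ T ^ 10 := le_self_pow₀ hT1 (by norm_num)
    exact_mod_cast this
  have l2 := Real.log_two_gt_d9
  have l3 := Real.log_two_lt_d9
  have hm' : (121 : ℝ) ≤ m := by exact_mod_cast hm
  set X := ⌊Real.exp T⌋₊ with hX
  set P := PP w X with hP
  set q : P → ℕ := fun p => (p : ℕ) with hq
  have hqP : ∀ p : P, (w < q p ∧ q p ≤ X) ∧ (q p).Prime := fun p => (mem_PP _ _ _).1 p.2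
  have hq0 : ∀ p, 0 < q p := fun p => (hqP p).2.pos
  have hqw : ∀ p, (w : ℝ) ≤ q p := fun p => by exact_mod_cast (hqP p).1.1.le
  have hw0 : (0 : ℝ) < w := by rw [hwT]; positivity
  have hlq : ∀ p, (1664 : ℝ) ≤ Real.log (q p) := by
    intro p
    refine le_trans ?_ (Real.log_le_log hw0 (hqw p))
    rw [hlw]
    nlinarith
  obtain ⟨g, g0, g1, g2, gs, gT, gc⟩ := exists_weight q hq0 m (by omega) (30 * Real.log w) 1664
    (by rw [hlw]; positivity) (by rw [hlw]; nlinarith) hlq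
    (by
      have h1 : ((1200 * m : ℕ) : ℝ) ≤ ((2 ^ m : ℕ) : ℝ) := by
        exact_mod_cast two_pow_ge m (by omega)
      push_cast at h1
      rw [hlw]
      nlinarith)
    (fun j hj => H_bound w hw2 T (2 ^ j) (by
      rw [hT, show (4 : ℝ) = 2 ^ 2 by norm_num, ← pow_mul]
      exact pow_le_pow_right₀ (by norm_num) hj.le))
  have hst : ∀ p : P, ∃ ω : ℕ → Option S, Function.Periodic ω (q p) ∧
      (∀ i, ((range (q p)).filter (fun t => ω t = some i)).card = 1) ∧
      ∀ t i, ω t = some i → q p ∣ i * (primorial (16 ^ m) * t + b) + 1 := by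
    intro p
    refine exists_state S (q p) _ b (hqP p).2 ?_ ?_
    · rw [(hqP p).2.dvd_primorial_iff]
      have := (hqP p).1.1
      omega
    · intro k hk
      exact ⟨(hS k hk).1, (hS k hk).2.trans_lt (hqP p).1.1⟩
  choose ω hper hω hdvd using hst
  have hk : (Fintype.card S : ℝ) ≤ T ^ 2 := by
    rw [Fintype.card_coe, ← hx]
    exact_mod_cast hc
  have hk0 : (0 : ℝ) ≤ Fintype.card S := Nat.cast_nonneg _
  set k : ℝ := ((Fintype.card S : ℕ) : ℝ) with hkd
  set D : ℝ := 3329 * T ^ 2 + T with hD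
  have hTT : T ≤ T ^ 2 := le_self_pow₀ hT1 (by norm_num)
  have hD1 : D ≤ 3330 * T ^ 2 := by linarith
  have hD0 : 0 ≤ D := by positivity
  have hX2 : 2 ≤ X := by
    refine Nat.le_floor ?_
    have := Real.add_one_le_exp T
    push_cast
    linarith
  have hlX : Real.log X ≤ T := by
    rw [Real.log_le_iff_le_exp (by exact_mod_cast (by omega : 0 < X))]
    exact Nat.floor_le (Real.exp_pos T).le
  have hexp : 16 * T ^ 2 ≤ Real.exp T := by
    have := Real.pow_div_factorial_le_exp T hT0.le 3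
    norm_num [Nat.factorial] at this
    nlinarith
  have hτ : T ^ 2 * Real.exp (-T) ≤ 1 / 16 := by
    rw [Real.exp_neg, ← div_eq_mul_inv, div_le_iff₀ (Real.exp_pos T)]
    linarith
  have hT2 : 1 ≤ T ^ 2 := one_le_pow₀ hT1
  have hT4 : (10 : ℝ) ^ 6 ≤ T ^ 4 := hT6.trans (le_self_pow₀ hT1 (by norm_num))
  set R : ℝ := 16 * (T ^ 2 + 1) * Real.exp (6 * D + 2) with hR
  set N := ⌊R⌋₊ + 1 with hN
  have hRN : R < N := by
    rw [hN]
    push_cast
    exact Nat.lt_floor_add_one R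
  obtain ⟨t, ht, hti⟩ := stage2 q hq0
    (fun p p' h => (Nat.coprime_primes (hqP p).2 (hqP p').2).2 fun h1 => h (Subtype.ext h1))
    ω hper hω g g0 g1 g2 gs D T (15 * T) w (1 / w) 1664 (Real.exp (-T)) hT0 hw0 (by norm_num)
    gT gc hqw (fun p => by linarith [hlq p])
    ((B_bound w X hX2).trans (by linarith)) (eta_bound w X (by omega))
    (by
      rw [hwT]
      exact hk.trans (pow_le_pow_right₀ hT1 (by norm_num)))
    (by
      rw [hwT]
      have h1 : k * D ≤ T ^ 2 * (3330 * T ^ 2) := by gcongr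
      have h2 : T ^ 10 = T ^ 4 * T ^ 6 := by ring
      have h3 : (10 : ℝ) ^ 6 ≤ T ^ 6 := hT6.trans (le_self_pow₀ hT1 (by norm_num))
      have h4 : T ^ 4 * 10 ^ 6 ≤ T ^ 4 * T ^ 6 := by gcongr
      have h5 : 0 ≤ T ^ 4 := by positivity
      nlinarith)
    (by
      refine Real.exp_le_exp.2 ?_
      rw [div_le_iff₀ hT0]
      nlinarith)
    (by nlinarith [Real.exp_pos (-T)])
    (by nlinarith [Real.exp_pos (-T)])
    (by
      rw [hwT, mul_one_div, div_le_one (by positivity)]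
      exact hk.trans (pow_le_pow_right₀ hT1 (by norm_num)))
    (by
      rw [hwT, mul_one_div, div_le_iff₀ (by positivity)]
      have h1 : k ^ 2 * (15 * T) ^ 2 ≤ (T ^ 2) ^ 2 * (15 * T) ^ 2 := by gcongr
      have h4 : T ^ 6 * 10 ^ 6 ≤ T ^ 6 * T ^ 4 := by gcongr
      have h5 : 0 ≤ T ^ 6 := by positivity
      nlinarith)
    (by
      have h1 : 15 * T * D / w ≤ 1 / (4 * T) := by
        rw [hwT, div_le_div_iff₀ (by positivity) (by positivity)]
        have h1 : 15 * T * D * (4 * T) ≤ 15 * T * (3330 * T ^ 2) * (4 * T) := by gcongr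
        have h3 : (10 : ℝ) ^ 6 ≤ T ^ 6 := hT6.trans (le_self_pow₀ hT1 (by norm_num))
        have h4 : T ^ 4 * 10 ^ 6 ≤ T ^ 4 * T ^ 6 := by gcongr
        have h5 : 0 ≤ T ^ 4 := by positivity
        nlinarith
      calc k * (15 * T * D / w) ^ 2 ≤ T ^ 2 * (1 / (4 * T)) ^ 2 := by gcongr
        _ = 1 / 16 := by field_simp; norm_num)
    N N
    (lt_of_le_of_lt (by rw [hR]; gcongr) hRN)
  have hE1 : Real.exp T ≤ Real.exp (6 * D + 2) := Real.exp_le_exp.2 (by nlinarith)
  have hE2 : 1 ≤ Real.exp (6 * D + 2) := Real.one_le_exp (by positivity)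
  have hXN : X < N := by
    have h1 : (X : ℝ) ≤ Real.exp T := Nat.floor_le (Real.exp_pos T).le
    have h2 : Real.exp (6 * D + 2) ≤ R := by
      rw [hR]
      exact le_mul_of_one_le_left (by positivity) (by linarith)
    have : (X : ℝ) < N := by linarith
    exact_mod_cast this
  refine ⟨N + t, ?_, ?_, ?_⟩
  · have h2 : T ^ 2 ≤ R := by
      rw [hR]
      nlinarith
    have : ((16 ^ m : ℕ) : ℝ) < N := by rw [hx]; linarith
    have : 16 ^ m < N := by exact_mod_cast this
    omega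
  · have h1 : ((N + t : ℕ) : ℝ) + 1 ≤ 2 * N := by
      have : N + t + 1 ≤ 2 * N := by omega
      exact_mod_cast this
    have h2 : (N : ℝ) ≤ R + 1 := by
      rw [hN]
      push_cast
      have := Nat.floor_le (show 0 ≤ R by positivity)
      linarith
    have h3 : T ^ 2 + 1 ≤ Real.exp (T ^ 2) := Real.add_one_le_exp _
    have h4 : (64 : ℝ) ≤ Real.exp (T ^ 2) := by nlinarith
    have h5 : 1 ≤ R := by
      rw [hR]
      exact one_le_mul_of_one_le_of_one_le (by linarith) hE2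
    calc _ ≤ 4 * R := by linarith
      _ = 64 * (T ^ 2 + 1) * Real.exp (6 * D + 2) := by rw [hR]; ring
      _ ≤ Real.exp (T ^ 2) * Real.exp (T ^ 2) * Real.exp (6 * D + 2) := by gcongr
      _ ≤ _ := by
        rw [← Real.exp_add, ← Real.exp_add, hx']
        exact Real.exp_le_exp.2 (by linarith)
  · intro k hk hprime
    obtain ⟨p, hp⟩ := hti ⟨k, hk⟩
    have h1 := hdvd p _ _ hp
    have h2 := (Nat.prime_dvd_prime_iff_eq (hqP p).2 hprime).1 h1
    have h3 := (hqP p).1.2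
    have h4 : N + t ≤ primorial (16 ^ m) * (N + t) :=
      Nat.le_mul_of_pos_left _ (primorial_pos _)
    have h5 : primorial (16 ^ m) * (N + t) + b ≤ k * (primorial (16 ^ m) * (N + t) + b) :=
      Nat.le_mul_of_pos_left _ (hS k hk).1
    omega

end Pool.Agent.MP_fdd1d3_nt
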