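import Mathlib
import Pool.Agent.MP_fdd1d3_nt.Stage2nt

set_option autoImplicit false

open Finset

namespace Pool.Agent.MP_fdd1d3_nt

theorem greedy (K R : Finset ℕ) (hR : ∀ p ∈ R, p.Prime) :
    ∀ (u : ℕ → ℝ) (_hu : ∀ k, 0 ≤ u k), ∃ β : ℕ → ℕ,
      ∑ k ∈ K, u k * ∏ p ∈ R, (if p ∣ k * β p + 1 then (0 : ℝ) else 1) ≤
        ∑ k ∈ K, u k * ∏ p ∈ R, (if p ∣ k then (1 : ℝ) else 1 - 1 / (p : ℝ)) := by
  induction R using Finset.induction_on with
  | empty =>
    intro u _
    exact ⟨fun _ => 0, by simp⟩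
  | insert a s ha ih =>
    intro u hu
    have hpa : a.Prime := hR a (Finset.mem_insert_self _ _)
    have hs : ∀ p ∈ s, p.Prime := fun p hp => hR p (Finset.mem_insert_of_mem hp)
    have ha0 : (0 : ℝ) < a := by exact_mod_cast hpa.pos
    set W : ℕ → ℝ := fun k => u k * ∏ p ∈ s, (if p ∣ k then (1 : ℝ) else 1 - 1 / (p : ℝ)) with hW
    have hW0 : ∀ k, 0 ≤ W k := by
      intro k
      refine mul_nonneg (hu k) (Finset.prod_nonneg fun p hp => ?_)
      split_ifs
      · exact zero_le_one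
      · have : (1 : ℝ) ≤ p := by exact_mod_cast (hs p hp).pos
        rw [sub_nonneg, div_le_one (by linarith)]
        exact this
    have h1 : ∑ b ∈ range a, ∑ k ∈ K, W k * (if a ∣ k * b + 1 then (0 : ℝ) else 1) ≤
        ∑ _b ∈ range a, ∑ k ∈ K, W k * (if a ∣ k then (1 : ℝ) else 1 - 1 / (a : ℝ)) := by
      rw [Finset.sum_comm, Finset.sum_comm (s := range a)]
      refine Finset.sum_le_sum fun k _ => ?_
      rw [← Finset.mul_sum, ← Finset.mul_sum]
      refine mul_le_mul_of_nonneg_left ?_ (hW0 k)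
      by_cases hk : a ∣ k
      · refine Finset.sum_le_sum fun b _ => ?_
        simp only [hk, if_true]
        split_ifs
        · exact zero_le_one
        · exact le_rfl
      · have h2 := root_count a k 1 hpa hk
        have h3 : ∀ b, (if a ∣ k * b + 1 then (0 : ℝ) else 1) =
            1 - (if a ∣ k * b + 1 then (1 : ℝ) else 0) := by
          intro b
          split_ifs <;> simp
        simp only [h3, hk, if_false]
        rw [Finset.sum_sub_distrib, Finset.sum_boole, h2]
        simp only [Finset.sum_const, Finset.card_range, nsmul_eq_mul]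
        refine le_of_eq ?_
        field_simp
        simp
    obtain ⟨b, _, hb⟩ := Finset.exists_le_of_sum_le
      (Finset.nonempty_range_iff.2 hpa.ne_zero) h1
    obtain ⟨β, hβ⟩ := ih hs (fun k => u k * (if a ∣ k * b + 1 then (0 : ℝ) else 1)) (fun k => by
      refine mul_nonneg (hu k) ?_
      split_ifs
      · exact le_rfl
      · exact zero_le_one)
    refine ⟨Function.update β a b, ?_⟩
    simp only [Finset.prod_insert ha, Function.update_self]
    have e1 : ∀ k, ∏ p ∈ s, (if p ∣ k * Function.update β a b p + 1 then (0 : ℝ) else 1) =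
        ∏ p ∈ s, (if p ∣ k * β p + 1 then (0 : ℝ) else 1) := by
      intro k
      refine Finset.prod_congr rfl fun p hp => ?_
      rw [Function.update_of_ne (by rintro rfl; exact ha hp)]
    simp only [e1, ← mul_assoc]
    refine hβ.trans ?_
    calc _ = ∑ k ∈ K, W k * (if a ∣ k * b + 1 then (0 : ℝ) else 1) :=
          Finset.sum_congr rfl fun k _ => by simp only [hW]; ring
      _ ≤ _ := hb
      _ = _ := Finset.sum_congr rfl fun k _ => by simp only [hW]; ring

theorem rho_bound (v A k : ℕ) (hv : 2 ≤ v) (hA : 1 ≤ A) (hk : 1 ≤ k)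
    (hkv : Real.log k ≤ v) :
    ∏ p ∈ PP v (v ^ A), (if p ∣ k then (1 : ℝ) else 1 - 1 / (p : ℝ)) ≤ 90 / A := by
  set R := PP v (v ^ A) with hR
  have hv' : (2 : ℝ) ≤ v := by exact_mod_cast hv
  have hA' : (0 : ℝ) < A := by exact_mod_cast hA
  have hlv : 0 < Real.log v := Real.log_pos (by linarith)
  have hRp : ∀ p ∈ R, (v < p ∧ p ≤ v ^ A) ∧ p.Prime := fun p hp => (mem_PP _ _ _).1 hp
  have h1 : A / 30 ≤ ∏ p ∈ R, (1 + 1 / (p : ℝ)) := by
    rw [Finset.prod_one_add]
    have h2 := mertens_c v (v ^ A) (v ^ A) hv le_rfl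
    have h3 : A * Real.log v ≤ Real.log ((v ^ A : ℕ) + 1) := by
      rw [← Real.log_pow]
      refine Real.log_le_log (by positivity) ?_
      push_cast
      linarith
    have h4 : ∑ s ∈ R.powerset.filter (fun s => ∏ p ∈ s, p ≤ v ^ A), 1 / nn (fun p => p) s ≤
        ∑ s ∈ R.powerset, ∏ p ∈ s, 1 / (p : ℝ) := by
      have e1 : ∀ s : Finset ℕ, ∏ p ∈ s, 1 / (p : ℝ) = 1 / nn (fun p => p) s := by
        intro s
        simp [nn, Finset.prod_inv_distrib]
      simp only [e1]
      refine Finset.sum_le_sum_of_subset_of_nonneg (Finset.filter_subset _ _) fun s _ _ => ?_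
      rw [nn_id]
      positivity
    have h5 : Real.log v * (A / 30) ≤ Real.log v * ∑ s ∈ R.powerset, ∏ p ∈ s, 1 / (p : ℝ) := by
      have := mul_le_mul_of_nonneg_left h4 hlv.le
      linarith
    exact le_of_mul_le_mul_left h5 hlv
  have h2 : (∏ p ∈ R, (if p ∣ k then (1 : ℝ) else 1 - 1 / (p : ℝ))) *
      ∏ p ∈ R, (1 + 1 / (p : ℝ)) ≤ 3 := by
    rw [← Finset.prod_mul_distrib]
    calc _ ≤ ∏ p ∈ R, (1 + if p ∣ k then 1 / (p : ℝ) else 0) := by
          refine Finset.prod_le_prod ?_ ?_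
          · intro p hp
            have : (1 : ℝ) ≤ p := by exact_mod_cast (hRp p hp).2.pos
            refine mul_nonneg ?_ (by positivity)
            split_ifs
            · exact zero_le_one
            · rw [sub_nonneg, div_le_one (by linarith)]
              exact this
          · intro p _
            split_ifs
            · simp
            · nlinarith [sq_nonneg (1 / (p : ℝ))]
      _ ≤ Real.exp (∑ p ∈ R, if p ∣ k then 1 / (p : ℝ) else 0) :=
          Real.prod_one_add_le_exp_sum _ fun p => by split_ifs <;> positivity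
      _ ≤ Real.exp 1 := by
          refine Real.exp_le_exp.2 ?_
          rw [← Finset.sum_filter]
          have h3 := LL_le_log (R.filter (fun p => p ∣ k)) k hk fun p hp =>
            ⟨(hRp p (Finset.mem_filter.1 hp).1).2, (Finset.mem_filter.1 hp).2⟩
          calc _ ≤ ∑ p ∈ R.filter (fun p => p ∣ k), 1 / (v : ℝ) * Real.log p := by
                refine Finset.sum_le_sum fun p hp => ?_
                have h4 := (hRp p (Finset.mem_filter.1 hp).1).1.1
                have h5 : (v : ℝ) + 1 ≤ p := by exact_mod_cast h4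
                have h6 : 1 ≤ Real.log p := by
                  rw [Real.le_log_iff_exp_le (by linarith)]
                  linarith [Real.exp_one_lt_d9]
                calc 1 / (p : ℝ) ≤ 1 / (v : ℝ) :=
                      one_div_le_one_div_of_le (by linarith) (by linarith)
                  _ ≤ _ := le_mul_of_one_le_right (by positivity) h6
            _ = 1 / (v : ℝ) * LL (fun p => p) (R.filter (fun p => p ∣ k)) := by
                rw [LL, Finset.mul_sum]
            _ ≤ 1 / (v : ℝ) * v := mul_le_mul_of_nonneg_left (h3.trans hkv) (by positivity)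
            _ = 1 := by field_simp
      _ ≤ 3 := by linarith [Real.exp_one_lt_d9]
  have h0 : 0 ≤ ∏ p ∈ R, (if p ∣ k then (1 : ℝ) else 1 - 1 / (p : ℝ)) := by
    refine Finset.prod_nonneg fun p hp => ?_
    have : (1 : ℝ) ≤ p := by exact_mod_cast (hRp p hp).2.pos
    split_ifs
    · exact zero_le_one
    · rw [sub_nonneg, div_le_one (by linarith)]
      exact this
  have h3 := mul_le_mul_of_nonneg_left h1 h0
  rw [le_div_iff₀ hA']
  linarith

theorem greedy_card (v A : ℕ) (hv : 2 ≤ v) (hA : 1 ≤ A) (K : Finset ℕ)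
    (hK : ∀ k ∈ K, 1 ≤ k ∧ Real.log k ≤ v) : ∃ β : ℕ → ℕ,
    ((K.filter (fun k => ∀ p ∈ PP v (v ^ A), ¬ p ∣ k * β p + 1)).card : ℝ) ≤
      K.card * (90 / A) := by
  obtain ⟨β, hβ⟩ := greedy K (PP v (v ^ A)) (fun p hp => ((mem_PP _ _ _).1 hp).2)
    (fun _ => 1) (fun _ => zero_le_one)
  refine ⟨β, ?_⟩
  simp only [one_mul] at hβ
  calc _ = ∑ k ∈ K, ∏ p ∈ PP v (v ^ A), (if p ∣ k * β p + 1 then (0 : ℝ) else 1) := by
        rw [← Finset.sum_boole]
        refine Finset.sum_congr rfl fun k _ => ?_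
        split_ifs with h
        · exact (Finset.prod_eq_one fun p hp => by rw [if_neg (h p hp)]).symm
        · push Not at h
          obtain ⟨p, hp, hp'⟩ := h
          exact (Finset.prod_eq_zero hp (by rw [if_pos hp'])).symm
    _ ≤ _ := hβ
    _ ≤ ∑ _k ∈ K, (90 / A : ℝ) :=
        Finset.sum_le_sum fun k hk => rho_bound v A k hv hA (hK k hk).1 (hK k hk).2
    _ = _ := by simp

theorem rankin (Y z : ℕ) (hY : 1 ≤ Y) (δ : ℝ) (hδ0 : 0 ≤ δ) (hδ : δ ≤ 1 / 2)
    (K : Finset ℕ) (hK : ∀ m ∈ K, 1 ≤ m ∧ m ≤ Y ∧ ∀ p, p.Prime → p ∣ m → p ≤ z) :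
    (K.card : ℝ) ≤ (Y : ℝ) ^ (1 - δ) * ((1 + Real.log Y) *
      Real.exp ((z : ℝ) ^ δ * (1 + Real.log z))) := by
  have h1 := decomp (fun m => (m : ℝ) ^ (-(1 - δ))) (fun m => by positivity) (by simp)
    (fun a b => by push_cast; exact Real.mul_rpow (by positivity) (by positivity)) Y K
    (PP 0 z) ∅ (fun m hm => ⟨(hK m hm).1, (hK m hm).2.1, fun p hp hpm =>
      Or.inl ((mem_PP _ _ _).2 ⟨⟨hp.pos, (hK m hm).2.2 p hp hpm⟩, hp⟩)⟩)
  have h2 : (K.card : ℝ) ≤ (Y : ℝ) ^ (1 - δ) * ∑ m ∈ K, (m : ℝ) ^ (-(1 - δ)) := by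
    rw [Finset.mul_sum, Finset.card_eq_sum_ones]
    push_cast
    refine Finset.sum_le_sum fun m hm => ?_
    have hm0 : (0 : ℝ) < m := by exact_mod_cast (hK m hm).1
    rw [Real.rpow_neg hm0.le, ← div_eq_mul_inv, one_le_div (by positivity)]
    exact Real.rpow_le_rpow hm0.le (by exact_mod_cast (hK m hm).2.1) (by linarith)
  refine h2.trans (mul_le_mul_of_nonneg_left (h1.trans ?_) (by positivity))
  have h3 : ∑ b ∈ Icc 1 Y, ((b : ℝ) ^ (-(1 - δ))) ^ 2 ≤ 1 + Real.log Y := by
    refine le_trans (Finset.sum_le_sum fun b hb => ?_) (harm_le Y)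
    have hb1 : (1 : ℝ) ≤ b := by exact_mod_cast (Finset.mem_Icc.1 hb).1
    rw [← Real.rpow_natCast, ← Real.rpow_mul (by linarith), one_div, ← Real.rpow_neg_one]
    refine Real.rpow_le_rpow_of_exponent_le hb1 ?_
    push_cast
    linarith
  have h4 : ∑ s ∈ (∅ : Finset ℕ).powerset.filter (fun s => ∏ p ∈ s, p ≤ Y),
      ∏ p ∈ s, (p : ℝ) ^ (-(1 - δ)) = 1 := by
    rw [Finset.powerset_empty, Finset.filter_singleton, if_pos (by simpa using hY)]
    simp
  have h5 : ∑ s ∈ (PP 0 z).powerset, ∏ p ∈ s, (p : ℝ) ^ (-(1 - δ)) ≤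
      Real.exp ((z : ℝ) ^ δ * (1 + Real.log z)) := by
    rw [← Finset.prod_one_add]
    refine (Real.prod_one_add_le_exp_sum _ fun p => by positivity).trans (Real.exp_le_exp.2 ?_)
    calc _ ≤ ∑ p ∈ PP 0 z, (z : ℝ) ^ δ * (1 / (p : ℝ)) := by
          refine Finset.sum_le_sum fun p hp => ?_
          rw [mem_PP] at hp
          have hp0 : (0 : ℝ) < p := by exact_mod_cast hp.1.1
          rw [show -(1 - δ) = δ + (-1) by ring, Real.rpow_add hp0, Real.rpow_neg_one, one_div]
          refine mul_le_mul_of_nonneg_right ?_ (by positivity)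
          exact Real.rpow_le_rpow hp0.le (by exact_mod_cast hp.1.2) hδ0
      _ = (z : ℝ) ^ δ * ∑ p ∈ PP 0 z, (1 / (p : ℝ)) := by rw [Finset.mul_sum]
      _ ≤ (z : ℝ) ^ δ * ∑ p ∈ Icc 1 z, (1 / (p : ℝ)) := by
          refine mul_le_mul_of_nonneg_left ?_ (by positivity)
          refine Finset.sum_le_sum_of_subset_of_nonneg ?_ fun p _ _ => by positivity
          intro p hp
          rw [mem_PP] at hp
          exact Finset.mem_Icc.2 hp.1
      _ ≤ _ := mul_le_mul_of_nonneg_left (harm_le z) (by positivity)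
  rw [h4, mul_one]
  have h6 : 0 ≤ ∑ s ∈ (PP 0 z).powerset, ∏ p ∈ s, (p : ℝ) ^ (-(1 - δ)) :=
    Finset.sum_nonneg fun s _ => Finset.prod_nonneg fun p _ => by positivity
  have h7 := Real.log_natCast_nonneg Y
  gcongr

end Pool.Agent.MP_fdd1d3_nt
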