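import Mathlib
import Pool.Agent.MP_fdd1d3_nt.Greedy

set_option autoImplicit false

open Finset

namespace Pool.Agent.MP_fdd1d3_nt

theorem smooth_num (r A C m x Y lz : ℝ) (hA : 1 ≤ A) (hC : 6 ≤ C) (hm : 1 ≤ m)
    (hr : A * C * (8 + 4 * A) ≤ r) (hr4 : r ^ 4 = C * m) (hx : 0 < x) (hxY : x ≤ Y)
    (hY : Y ≤ 2 * r ^ 4 * x) (hlx : 2 * m ≤ Real.log x) (hlY : Real.log Y ≤ 6 * m)
    (hlz : lz ≤ 4 * A * r) :
    Y ^ (1 - 1 / (2 * A)) * ((1 + Real.log Y) * Real.exp (r ^ 2 * (1 + lz))) ≤ x / 2 := by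
  have hY0 : 0 < Y := hx.trans_le hxY
  have hr8 : 8 ≤ r := by
    have h1 : 6 ≤ A * C := by nlinarith
    nlinarith
  have hr0 : 0 < r := by linarith
  have h1 : Y ^ (1 - 1 / (2 * A)) ≤ 2 * r ^ 4 * x * Real.exp (-(m / A)) := by
    rw [Real.rpow_sub hY0, Real.rpow_one, Real.exp_neg, ← div_eq_mul_inv]
    have h2 : Real.exp (m / A) ≤ Y ^ (1 / (2 * A)) := by
      rw [Real.rpow_def_of_pos hY0]
      refine Real.exp_le_exp.2 ?_
      have h3 : 2 * m ≤ Real.log Y := hlx.trans (Real.log_le_log hx hxY)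
      calc m / A = 2 * m * (1 / (2 * A)) := by field_simp
        _ ≤ _ := mul_le_mul_of_nonneg_right h3 (by positivity)
    gcongr
  have h2 : 1 + Real.log Y ≤ 2 * r ^ 4 := by nlinarith
  have h3 : 0 ≤ 1 + Real.log Y := by
    have : 2 * m ≤ Real.log Y := hlx.trans (Real.log_le_log hx hxY)
    linarith
  have h4 : Real.exp (r ^ 2 * (1 + lz)) ≤ Real.exp (r ^ 2 * (1 + 4 * A * r)) := by gcongr
  have h5 : 8 * r ^ 8 ≤ Real.exp (9 * r) := by
    have h6 : r ≤ Real.exp r := by linarith [Real.add_one_le_exp r]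
    calc 8 * r ^ 8 ≤ r * r ^ 8 := by gcongr
      _ = r ^ 9 := by ring
      _ ≤ Real.exp r ^ 9 := by gcongr
      _ = _ := by rw [← Real.exp_nat_mul]; norm_num
  have h6 : 9 * r + r ^ 2 * (1 + 4 * A * r) ≤ m / A := by
    have h7 : r ^ 3 * (8 + 4 * A) ≤ m / A := by
      rw [le_div_iff₀ (by linarith)]
      have h8 : C * (r ^ 3 * (8 + 4 * A) * A) ≤ C * m := by
        rw [← hr4]
        calc C * (r ^ 3 * (8 + 4 * A) * A) = r ^ 3 * (A * C * (8 + 4 * A)) := by ring
          _ ≤ r ^ 3 * r := by gcongr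
          _ = _ := by ring
      exact le_of_mul_le_mul_left h8 (by linarith)
    have h8 : 9 * r + r ^ 2 ≤ 8 * r ^ 3 := by nlinarith
    nlinarith
  calc _ ≤ (2 * r ^ 4 * x * Real.exp (-(m / A))) *
        ((2 * r ^ 4) * Real.exp (r ^ 2 * (1 + 4 * A * r))) := by gcongr
    _ = x / 2 * ((8 * r ^ 8) * (Real.exp (r ^ 2 * (1 + 4 * A * r)) * Real.exp (-(m / A)))) := by
        ring
    _ ≤ x / 2 * (Real.exp (9 * r) *
        (Real.exp (r ^ 2 * (1 + 4 * A * r)) * Real.exp (-(m / A)))) := by gcongr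
    _ ≤ x / 2 * 1 := by
        refine mul_le_mul_of_nonneg_left ?_ (by positivity)
        rw [← Real.exp_add, ← Real.exp_add, Real.exp_le_one_iff]
        linarith
    _ = _ := by ring

theorem stage1 (C m : ℕ) (hC : 6 ≤ C) (hm : (360 * C * C * (8 + 4 * (360 * C))) ^ 4 ≤ m) :
    C * m ≤ 16 ^ m ∧ ∃ b < primorial (16 ^ m), ∃ S : Finset ℕ, S.card ≤ 16 ^ m ∧
      (∀ k ∈ S, 1 ≤ k ∧ k ≤ C * m * 16 ^ m) ∧
      ∀ k, 1 ≤ k → k ≤ C * m * 16 ^ m → k ∉ S → ∃ p, p.Prime ∧ p ≤ 16 ^ m ∧ p ∣ k * b + 1 := by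
  classical
  set A := 360 * C with hA
  set v := C * m with hv
  set x := 16 ^ m with hx
  set z := v ^ A with hz
  have hm1 : 1 ≤ m := le_trans (Nat.one_le_pow _ _ (by positivity)) hm
  have hv2 : 6 ≤ v := by nlinarith
  have hA2 : 2 ≤ A := by omega
  have hC' : (6 : ℝ) ≤ C := by exact_mod_cast hC
  have hm' : (1 : ℝ) ≤ m := by exact_mod_cast hm1
  have hA' : (1 : ℝ) ≤ A := by exact_mod_cast (by omega : 1 ≤ A)
  have hv' : (v : ℝ) = C * m := by rw [hv]; push_cast; ring
  have hv0 : (6 : ℝ) ≤ v := by exact_mod_cast hv2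
  set r : ℝ := √(√(v : ℝ)) with hr
  have hr2 : r ^ 2 = √(v : ℝ) := Real.sq_sqrt (Real.sqrt_nonneg _)
  have hr4 : r ^ 4 = v := by
    rw [show r ^ 4 = (r ^ 2) ^ 2 by ring, hr2, Real.sq_sqrt (by linarith)]
  have hr0 : 0 ≤ r := Real.sqrt_nonneg _
  have hrr : (A : ℝ) * C * (8 + 4 * A) ≤ r := by
    refine le_of_pow_le_pow_left₀ (n := 4) (by norm_num) hr0 ?_
    rw [hr4]
    have : (A * C * (8 + 4 * A)) ^ 4 ≤ v := hm.trans (Nat.le_mul_of_pos_left _ (by omega))
    exact_mod_cast this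
  have hAC : (6 : ℝ) ≤ A * C := by nlinarith
  have hr1 : 1 ≤ r := by nlinarith
  have hlv : Real.log v ≤ 4 * r := by
    rw [← hr4, Real.log_pow]
    have := Real.log_le_sub_one_of_pos (show 0 < r by linarith)
    push_cast
    linarith
  have l2 := Real.log_two_gt_d9
  have l3 := Real.log_two_lt_d9
  have hlx : Real.log (x : ℕ) = 4 * m * Real.log 2 := by
    rw [hx, show 16 = 2 ^ 4 by norm_num, ← pow_mul]
    push_cast
    rw [Real.log_pow]
    push_cast
    ring
  have hx0 : (0 : ℝ) < x := by rw [hx]; positivity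
  have hlz : Real.log (z : ℕ) ≤ 4 * A * r := by
    rw [hz]
    push_cast
    rw [Real.log_pow]
    nlinarith
  have hzx : z ≤ x := by
    have h1 : 4 * A * r ≤ m := by
      have h2 : C * (4 * A * r) ≤ C * m := by
        rw [← hv', ← hr4]
        have h3 : 4 * (A * C) ≤ r := by nlinarith
        calc C * (4 * A * r) = 4 * (A * C) * r := by ring
          _ ≤ r * r := by gcongr
          _ = r ^ 2 := by ring
          _ ≤ r ^ 4 := pow_le_pow_right₀ hr1 (by norm_num)
      exact le_of_mul_le_mul_left h2 (by linarith)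
    have h2 : Real.log (z : ℕ) ≤ Real.log (x : ℕ) := by nlinarith
    have h3 : (0 : ℝ) < z := by rw [hz]; positivity
    exact_mod_cast (Real.log_le_log_iff h3 hx0).1 h2
  have hvz : v + 1 ≤ z := by
    calc v + 1 ≤ v ^ 2 := by nlinarith
      _ ≤ v ^ A := Nat.pow_le_pow_right (by omega) hA2
  have hx1 : 1 ≤ x := by omega
  set Y := v * x + 1 with hY
  have hY1 : Y ≤ x * x := by nlinarith
  have hY2 : Y ≤ 2 * v * x := by nlinarith
  have hY3 : x ≤ Y := by nlinarith
  have hY0 : (0 : ℝ) < Y := by rw [hY]; positivity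
  have hlY : Real.log Y ≤ 6 * m := by
    have h1 : (Y : ℝ) ≤ x * x := by exact_mod_cast hY1
    have h2 := Real.log_le_log hY0 h1
    rw [Real.log_mul hx0.ne' hx0.ne'] at h2
    nlinarith
  have hlY2 : Real.log x ≤ Real.log Y := Real.log_le_log hx0 (by exact_mod_cast hY3)
  set K1 := (Icc 1 (v * x)).filter (fun k => (k + 1).Prime) with hK1
  set K2 := (Icc 1 (v * x)).filter (fun k => ∀ p, p.Prime → p ∣ k + 1 → p ≤ z) with hK2
  have hc1 : (K1.card : ℝ) ≤ 2 * C * x := by
    have h1 : K1.card ≤ (Nat.primesLE Y).card := by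
      refine Finset.card_le_card_of_injOn (fun k => k + 1) ?_ ?_
      · intro k hk
        simp only [hK1, Finset.coe_filter, Finset.mem_Icc, Set.mem_ofPred_eq] at hk
        simp only [Finset.mem_coe, Nat.mem_primesLE]
        exact ⟨by omega, hk.2⟩
      · intro a _ b _ h
        simpa using h
    rw [Nat.primesLE_card_eq_primeCounting] at h1
    have hY4 : (1 : ℝ) < Y := by
      have : 1 < Y := by nlinarith
      exact_mod_cast this
    have h2 := Chebyshev.pi_le_log4_mul_div hY4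
    rw [Nat.floor_natCast, Real.log_sqrt hY0.le] at h2
    have l4 : Real.log 4 = 2 * Real.log 2 := by
      rw [show (4 : ℝ) = 2 ^ 2 by norm_num, Real.log_pow]; norm_num
    have h3 : Real.log 4 * Y / (Real.log Y / 2) ≤ C * x + 1 := by
      have h5 : 0 < Real.log Y := Real.log_pos hY4
      rw [div_le_iff₀ (by positivity), l4]
      have h4 : (Y : ℝ) ≤ (C * x + 1) * m := by
        rw [hY]
        push_cast
        rw [hv']
        nlinarith
      calc 2 * Real.log 2 * Y ≤ 2 * Real.log 2 * ((C * x + 1) * m) := by gcongr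
        _ = (C * x + 1) * (4 * m * Real.log 2 / 2) := by ring
        _ ≤ _ := by gcongr; linarith
    have h4 : √(Y : ℝ) ≤ x := by
      rw [Real.sqrt_le_left hx0.le, sq]
      exact_mod_cast hY1
    have h5 : (K1.card : ℝ) ≤ Nat.primeCounting Y := by exact_mod_cast h1
    have h6 : (1 : ℝ) ≤ x := by exact_mod_cast hx1
    nlinarith
  have hc2 : (K2.card : ℝ) ≤ x / 2 := by
    have h1 := rankin Y z (by omega) (1 / (2 * A)) (by positivity)
      (one_div_le_one_div_of_le (by norm_num) (by linarith)) (K2.image (fun k => k + 1)) (by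
        intro n hn
        obtain ⟨k, hk, rfl⟩ := Finset.mem_image.1 hn
        simp only [hK2, Finset.mem_filter, Finset.mem_Icc] at hk
        exact ⟨by omega, by omega, hk.2⟩)
    rw [Finset.card_image_of_injective _ (add_left_injective 1)] at h1
    have h2 : ((z : ℕ) : ℝ) ^ (1 / (2 * (A : ℝ))) = r ^ 2 := by
      rw [hr2, hz, Real.sqrt_eq_rpow]
      push_cast
      rw [← Real.rpow_natCast, ← Real.rpow_mul (by linarith)]
      congr 1
      field_simp
    rw [h2] at h1
    refine h1.trans (smooth_num r A C m x Y _ hA' hC' hm' hrr (hr4.trans hv') hx0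
      (by exact_mod_cast hY3) (by rw [hr4]; exact_mod_cast hY2) (by nlinarith) hlY hlz)
  obtain ⟨β, hβ⟩ := greedy_card v A (by omega) (by omega) K1 (by
    intro k hk
    simp only [hK1, Finset.mem_filter, Finset.mem_Icc] at hk
    refine ⟨hk.1.1, ?_⟩
    have h1 : Real.log k ≤ Real.log Y :=
      Real.log_le_log (by exact_mod_cast hk.1.1) (by exact_mod_cast (by omega : k ≤ Y))
    nlinarith)
  set S1 := K1.filter (fun k => ∀ p ∈ PP v (v ^ A), ¬ p ∣ k * β p + 1) with hS1
  have hc3 : (S1.card : ℝ) ≤ x / 2 := by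
    refine hβ.trans ?_
    calc (K1.card : ℝ) * (90 / A) ≤ 2 * C * x * (90 / A) := by gcongr
      _ = x / 2 := by
        rw [hA]
        push_cast
        field_simp
        ring
  have hs0 : ∀ p ∈ Nat.primesLE x, (fun p => p) p ≠ 0 := fun p hp =>
    (Nat.prime_of_mem_primesLE hp).ne_zero
  have hpp : Set.Pairwise (Nat.primesLE x : Set ℕ) (Function.onFun Nat.Coprime (fun p => p)) :=
    fun p hp p' hp' h => (Nat.coprime_primes (Nat.prime_of_mem_primesLE hp)
      (Nat.prime_of_mem_primesLE hp')).2 h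
  obtain ⟨b, hb1, hb2⟩ : ∃ b : ℕ, b < primorial x ∧ ∀ p ∈ Nat.primesLE x,
      b ≡ (if p ∈ PP v z then β p else 1) [MOD p] :=
    ⟨_, Nat.chineseRemainderOfFinset_lt_prod (fun p => if p ∈ PP v z then β p else 1)
      (fun p => p) hs0 hpp,
      (Nat.chineseRemainderOfFinset (fun p => if p ∈ PP v z then β p else 1)
        (fun p => p) (Nat.primesLE x) hs0 hpp).2⟩
  refine ⟨by omega, b, hb1, S1 ∪ K2, ?_, ?_, ?_⟩
  · have h1 : ((S1 ∪ K2).card : ℝ) ≤ S1.card + K2.card := by
      exact_mod_cast Finset.card_union_le S1 K2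
    have : ((S1 ∪ K2).card : ℝ) ≤ x := by linarith
    exact_mod_cast this
  · intro k hk
    rcases Finset.mem_union.1 hk with h | h
    · exact Finset.mem_Icc.1 (Finset.mem_filter.1 (Finset.mem_filter.1 h).1).1
    · exact Finset.mem_Icc.1 (Finset.mem_filter.1 h).1
  · intro k hk1 hk2 hk
    rw [Finset.mem_union, not_or] at hk
    have key : ∀ p, p.Prime → p ≤ x → p ∉ PP v z → p ∣ k + 1 → p ∣ k * b + 1 := by
      intro p hp hpx hpP hpk
      have h1 := hb2 p (Nat.mem_primesLE.2 ⟨hpx, hp⟩)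
      rw [if_neg hpP] at h1
      have h2 : k * b + 1 ≡ k * 1 + 1 [MOD p] := (h1.mul_left k).add_right 1
      rw [mul_one] at h2
      exact (h2.dvd_iff dvd_rfl).2 hpk
    by_cases hpr : (k + 1).Prime
    · have h1 : k ∈ K1 := Finset.mem_filter.2 ⟨Finset.mem_Icc.2 ⟨hk1, hk2⟩, hpr⟩
      have h2 := hk.1
      rw [hS1, Finset.mem_filter] at h2
      push Not at h2
      obtain ⟨p, hp, hp'⟩ := h2 h1
      have h3 := (mem_PP _ _ _).1 hp
      have hpx : p ≤ x := h3.1.2.trans hzx
      have h4 := hb2 p (Nat.mem_primesLE.2 ⟨hpx, h3.2⟩)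
      rw [if_pos hp] at h4
      have h5 : k * b + 1 ≡ k * β p + 1 [MOD p] := (h4.mul_left k).add_right 1
      exact ⟨p, h3.2, hpx, (h5.dvd_iff dvd_rfl).2 hp'⟩
    · have h2 := hk.2
      rw [hK2, Finset.mem_filter] at h2
      push Not at h2
      obtain ⟨p, hp, hpk, hpz⟩ := h2 (Finset.mem_Icc.2 ⟨hk1, hk2⟩)
      by_cases hpx : p ≤ x
      · refine ⟨p, hp, hpx, key p hp hpx ?_ hpk⟩
        rw [mem_PP]
        omega
      · obtain ⟨c, hc⟩ := hpk
        have hc1 : c ≠ 1 := by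
          rintro rfl
          rw [mul_one] at hc
          exact hpr (hc ▸ hp)
        have hc0 : 0 < c := by
          rcases Nat.eq_zero_or_pos c with h | h
          · rw [h] at hc
            omega
          · exact h
        have hcv : c ≤ v := by
          by_contra h
          have : (x + 1) * (v + 1) ≤ p * c := Nat.mul_le_mul (by omega) (by omega)
          nlinarith
        have h3 := Nat.minFac_prime hc1
        have h4 := Nat.minFac_le hc0
        refine ⟨c.minFac, h3, by omega, key _ h3 (by omega) ?_ ?_⟩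
        · rw [mem_PP]
          omega
        · rw [hc]
          exact (Nat.minFac_dvd c).mul_left p

end Pool.Agent.MP_fdd1d3_nt
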