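import Mathlib
import Pool.Agent.MP_fdd1d3_nt.Stage1

set_option autoImplicit false

open Finset

namespace Pool.Agent.MP_fdd1d3_nt

theorem exists_long_run (C m : ℕ) (hC : 6 ≤ C)
    (hm : (360 * C * C * (8 + 4 * (360 * C))) ^ 4 ≤ m) (hm2 : 121 ≤ m) :
    ∃ n : ℕ, 16 ^ m ≤ n ∧ Real.log n ≤ 20000 * 16 ^ m ∧
      ∀ k, k ≤ C * m * 16 ^ m → ¬ (k * n + 1).Prime := by
  obtain ⟨hv, b, hb, S, hS1, hS2, hS3⟩ := stage1 C m hC hm
  have hx1 : 1 ≤ 16 ^ m := Nat.one_le_pow _ _ (by norm_num)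
  obtain ⟨t, ht1, ht2, ht3⟩ := stage2_nt m hm2 S (fun k hk => ⟨(hS2 k hk).1, by
    calc k ≤ C * m * 16 ^ m := (hS2 k hk).2
      _ ≤ 16 ^ m * 16 ^ m := Nat.mul_le_mul_right _ hv
      _ = (16 ^ m) ^ 2 := by ring
      _ ≤ (16 ^ m) ^ 5 := Nat.pow_le_pow_right hx1 (by norm_num)⟩) hS1 b
  have hQ := primorial_pos (16 ^ m)
  have h1 : t ≤ primorial (16 ^ m) * t := Nat.le_mul_of_pos_left _ hQ
  refine ⟨primorial (16 ^ m) * t + b, by omega, ?_, ?_⟩
  · have h2 : primorial (16 ^ m) * t + b ≤ 4 ^ (16 ^ m) * (t + 1) := by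
      calc _ ≤ primorial (16 ^ m) * (t + 1) := by
            rw [Nat.mul_succ]
            omega
        _ ≤ _ := Nat.mul_le_mul_right _ (primorial_le_four_pow _)
    have h3 : ((primorial (16 ^ m) * t + b : ℕ) : ℝ) ≤ 4 ^ (16 ^ m) * (t + 1) := by
      exact_mod_cast h2
    have h4 : (4 : ℝ) ^ (16 ^ m) ≤ Real.exp (10 * 16 ^ m) := by
      have h5 : (4 : ℝ) ≤ Real.exp 10 := by linarith [Real.add_one_le_exp 10]
      calc (4 : ℝ) ^ (16 ^ m) ≤ Real.exp 10 ^ (16 ^ m) := by gcongr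
        _ = _ := by
          rw [← Real.exp_nat_mul]
          congr 1
          push_cast
          ring
    rw [Real.log_le_iff_le_exp (by exact_mod_cast (by omega : 0 < primorial (16 ^ m) * t + b))]
    calc _ ≤ _ := h3
      _ ≤ Real.exp (10 * 16 ^ m) * Real.exp (19990 * 16 ^ m) := by gcongr
      _ = _ := by
        rw [← Real.exp_add]
        congr 1
        ring
  · intro k hk
    rcases Nat.eq_zero_or_pos k with rfl | hk0
    · simpa using Nat.not_prime_one
    by_cases hkS : k ∈ S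
    · exact ht3 k hkS
    · obtain ⟨p, hp, hpx, hpk⟩ := hS3 k hk0 hk hkS
      intro hprime
      have h2 : p ∣ k * (primorial (16 ^ m) * t + b) + 1 := by
        rw [show k * (primorial (16 ^ m) * t + b) + 1 =
          primorial (16 ^ m) * (k * t) + (k * b + 1) by ring]
        exact dvd_add ((hp.dvd_primorial_iff.2 hpx).mul_right _) hpk
      have h3 := (Nat.prime_dvd_prime_iff_eq hp hprime).1 h2
      have h5 : primorial (16 ^ m) * t + b ≤ k * (primorial (16 ^ m) * t + b) :=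
        Nat.le_mul_of_pos_left _ hk0
      omega

theorem nth_prime (n : ℕ) (hn : n ≠ 0) :
    (Nat.nth (fun k => (k * n + 1).Prime) 0 * n + 1).Prime := by
  rw [Nat.nth_zero]
  obtain ⟨p, hp, hp1, hp2⟩ := Nat.exists_prime_gt_modEq_one 1 hn
  obtain ⟨k, hk⟩ := (Nat.modEq_iff_dvd' hp1.le).1 hp2.symm
  have hne : (Set.ofPred (fun k => (k * n + 1).Prime)).Nonempty := by
    refine ⟨k, ?_⟩
    have : k * n + 1 = p := by
      rw [mul_comm, ← hk]
      omega
    simpa [this] using hp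
  exact Nat.sInf_mem hne

theorem unbounded (c : ℝ) (n0 : ℕ) : ∃ n : ℕ, n0 ≤ n ∧
    c * |Real.log n * Real.log (Real.log n)| < Nat.nth (fun k => (k * n + 1).Prime) 0 := by
  obtain ⟨C0, hC0⟩ := exists_nat_ge (120000 * |c|)
  set C := C0 + 6 with hC
  set m := (360 * C * C * (8 + 4 * (360 * C))) ^ 4 + 121 + n0 with hm
  obtain ⟨n, hn1, hn2, hn3⟩ := exists_long_run C m (by omega) (by omega) (by omega)
  have h1 : m < 16 ^ m := Nat.lt_pow_self (by norm_num)
  have h2 : 20000 ≤ 16 ^ m := by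
    calc 20000 ≤ 16 ^ 4 := by norm_num
      _ ≤ 16 ^ m := Nat.pow_le_pow_right (by norm_num) (by omega)
  refine ⟨n, by omega, ?_⟩
  have h3 := nth_prime n (by omega)
  have h4 : C * m * 16 ^ m < Nat.nth (fun k => (k * n + 1).Prime) 0 := by
    by_contra h
    exact hn3 _ (not_lt.1 h) h3
  have h5 : (C : ℝ) * m * 16 ^ m < Nat.nth (fun k => (k * n + 1).Prime) 0 := by
    exact_mod_cast h4
  refine lt_of_le_of_lt ?_ h5
  have h6 : 1 ≤ Real.log n := by
    have : (20000 : ℝ) ≤ n := by exact_mod_cast h2.trans hn1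
    rw [Real.le_log_iff_exp_le (by linarith)]
    linarith [Real.exp_one_lt_d9]
  have h7 : 0 ≤ Real.log (Real.log n) := Real.log_nonneg h6
  have h8 : Real.log (Real.log n) ≤ 6 * m := by
    have h9 : (20000 : ℝ) ≤ 16 ^ m := by exact_mod_cast h2
    have h10 : Real.log n ≤ 2 ^ (8 * m) := by
      calc Real.log n ≤ 16 ^ m * 16 ^ m := hn2.trans (by gcongr)
        _ = 2 ^ (8 * m) := by
          rw [← mul_pow, pow_mul]
          norm_num
    have h11 := Real.log_le_log (by linarith) h10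
    rw [Real.log_pow] at h11
    push_cast at h11
    have l3 := Real.log_two_lt_d9
    have : (0 : ℝ) ≤ m := Nat.cast_nonneg _
    nlinarith
  rw [abs_of_nonneg (by positivity)]
  have h9 : (120000 * |c|) ≤ C := by
    rw [hC]
    push_cast
    linarith
  calc c * (Real.log n * Real.log (Real.log n))
      ≤ |c| * (Real.log n * Real.log (Real.log n)) :=
        mul_le_mul_of_nonneg_right (le_abs_self c) (by positivity)
    _ ≤ |c| * ((20000 * 16 ^ m) * (6 * m)) := by gcongr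
    _ = (120000 * |c|) * m * 16 ^ m := by
        generalize (16 : ℝ) ^ m = X
        ring
    _ ≤ _ := by gcongr

end Pool.Agent.MP_fdd1d3_nt
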