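import Mathlib
import Pool.Agent.MP_fdd1d3_nt.Equi

set_option autoImplicit false

open Finset

namespace Pool.Agent.MP_fdd1d3_nt.PD

section level
variable {ι S : Type*}

/-- level of distribution of a function against a linear functional -/
def Lev (Δ : ((ι → S) → ℝ) →ₗ[ℝ] ℝ) (q : ι → ℝ) (G : (ι → S) → ℝ) (E : ℝ) : Prop :=
  ∀ (U : Finset ι) (h : ι → S → ℝ), (∀ p o, |h p o| ≤ 1) →
    |Δ (fun o => G o * ∏ p ∈ U, h p (o p))| ≤ E * ∏ p ∈ U, q p

/-- multiplier norm bound -/
def Mu (Δ : ((ι → S) → ℝ) →ₗ[ℝ] ℝ) (q : ι → ℝ) (G : (ι → S) → ℝ) (E : ℝ) : Prop :=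
  ∀ H E', Lev Δ q H E' → Lev Δ q (fun o => G o * H o) (E * E')

variable {Δ : ((ι → S) → ℝ) →ₗ[ℝ] ℝ} {q : ι → ℝ}

theorem Lev.nonneg {G : (ι → S) → ℝ} {E : ℝ} (h : Lev Δ q G E) : 0 ≤ E := by
  have := h ∅ (fun _ _ => 0) (by simp)
  simp only [Finset.prod_empty, mul_one] at this
  exact (abs_nonneg _).trans this

theorem Lev.abs_le {G : (ι → S) → ℝ} {E : ℝ} (h : Lev Δ q G E) : |Δ G| ≤ E := by
  have := h ∅ (fun _ _ => 0) (by simp)
  simpa using this

theorem Mu.const (c : ℝ) : Mu Δ q (fun _ => c) |c| := by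
  intro H E' hH U h hh
  have := hH U h hh
  have e : (fun o : ι → S => c * H o * ∏ p ∈ U, h p (o p)) =
      c • (fun o : ι → S => H o * ∏ p ∈ U, h p (o p)) := by
    funext o
    simp [mul_assoc]
  rw [e, map_smul, smul_eq_mul, abs_mul, mul_assoc]
  exact mul_le_mul_of_nonneg_left this (abs_nonneg _)

theorem Mu.mono (hq : ∀ p, 1 ≤ q p) {G : (ι → S) → ℝ} {E E2 : ℝ} (h : Mu Δ q G E) (hE : E ≤ E2) :
    Mu Δ q G E2 := by
  intro H E' hH U g hg
  refine (h H E' hH U g hg).trans ?_
  refine mul_le_mul_of_nonneg_right (mul_le_mul_of_nonneg_right hE hH.nonneg) ?_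
  exact Finset.prod_nonneg fun p _ => by linarith [hq p]

theorem Mu.add {G1 G2 : (ι → S) → ℝ} {E1 E2 : ℝ} (h1 : Mu Δ q G1 E1) (h2 : Mu Δ q G2 E2) :
    Mu Δ q (fun o => G1 o + G2 o) (E1 + E2) := by
  intro H E' hH U g hg
  have a1 := h1 H E' hH U g hg
  have a2 := h2 H E' hH U g hg
  have e : (fun o : ι → S => (G1 o + G2 o) * H o * ∏ p ∈ U, g p (o p)) =
      (fun o : ι → S => G1 o * H o * ∏ p ∈ U, g p (o p)) +
        (fun o : ι → S => G2 o * H o * ∏ p ∈ U, g p (o p)) := by
    funext o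
    simp only [Pi.add_apply]
    ring
  rw [e, map_add]
  refine (abs_add_le _ _).trans ?_
  linarith

theorem Mu.mul {G1 G2 : (ι → S) → ℝ} {E1 E2 : ℝ} (h1 : Mu Δ q G1 E1) (h2 : Mu Δ q G2 E2) :
    Mu Δ q (fun o => G1 o * G2 o) (E1 * E2) := by
  intro H E' hH
  have := h1 _ _ (h2 H E' hH)
  simpa only [mul_assoc] using this

theorem Mu.sub {G1 G2 : (ι → S) → ℝ} {E1 E2 : ℝ} (h1 : Mu Δ q G1 E1) (h2 : Mu Δ q G2 E2) :
    Mu Δ q (fun o => G1 o - G2 o) (E1 + E2) := by
  have := h1.add ((Mu.const (-1)).mul h2)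
  simpa [sub_eq_add_neg] using this

theorem Mu.sum {α : Type*} (s : Finset α) (G : α → (ι → S) → ℝ) (E : α → ℝ)
    (h : ∀ a ∈ s, Mu Δ q (G a) (E a)) : Mu Δ q (fun o => ∑ a ∈ s, G a o) (∑ a ∈ s, E a) := by
  classical
  induction s using Finset.induction_on with
  | empty => simpa using (Mu.const (Δ := Δ) (q := q) 0)
  | insert a s ha ih =>
    simp only [Finset.sum_insert ha]
    exact (h a (Finset.mem_insert_self _ _)).add
      (ih fun b hb => h b (Finset.mem_insert_of_mem hb))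

theorem Mu.prod {α : Type*} (s : Finset α) (G : α → (ι → S) → ℝ) (E : α → ℝ)
    (h : ∀ a ∈ s, Mu Δ q (G a) (E a)) : Mu Δ q (fun o => ∏ a ∈ s, G a o) (∏ a ∈ s, E a) := by
  classical
  induction s using Finset.induction_on with
  | empty => simpa using (Mu.const (Δ := Δ) (q := q) 1)
  | insert a s ha ih =>
    simp only [Finset.prod_insert ha]
    exact (h a (Finset.mem_insert_self _ _)).mul
      (ih fun b hb => h b (Finset.mem_insert_of_mem hb))

theorem Mu.sq {G : (ι → S) → ℝ} {E : ℝ} (h : Mu Δ q G E) : Mu Δ q (fun o => G o ^ 2) (E ^ 2) := by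
  simpa only [_root_.sq] using h.mul h

theorem Mu.site (hq : ∀ p, 1 ≤ q p) (p : ι) (f : S → ℝ) (hf : ∀ o, |f o| ≤ 1) :
    Mu Δ q (fun o => f (o p)) (q p) := by
  classical
  intro H E' hH U g hg
  have hE := hH.nonneg
  set g' : ι → S → ℝ := fun p' o => if p' = p then (if p ∈ U then f o * g p o else f o) else g p' o
    with hg'
  have hb : ∀ p' o, |g' p' o| ≤ 1 := by
    intro p' o
    simp only [hg']
    split_ifs
    · rw [abs_mul]
      exact mul_le_one₀ (hf _) (abs_nonneg _) (hg _ _)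
    · exact hf _
    · exact hg _ _
  have key := hH (insert p U) g' hb
  have e : ∀ o : ι → S, ∏ p' ∈ insert p U, g' p' (o p') = f (o p) * ∏ p' ∈ U, g p' (o p') := by
    intro o
    by_cases hp : p ∈ U
    · rw [Finset.insert_eq_of_mem hp, ← Finset.mul_prod_erase U _ hp,
        ← Finset.mul_prod_erase U _ hp, ← mul_assoc]
      congr 1
      · simp [hg', hp]
      · refine Finset.prod_congr rfl fun p' hp' => ?_
        simp [hg', Finset.ne_of_mem_erase hp']
    · rw [Finset.prod_insert hp]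
      congr 1
      · simp [hg', hp]
      · refine Finset.prod_congr rfl fun p' hp' => ?_
        have : p' ≠ p := by rintro rfl; exact hp hp'
        simp [hg', this]
  have e2 : (fun o : ι → S => f (o p) * H o * ∏ p ∈ U, g p (o p)) =
      (fun o : ι → S => H o * ∏ p' ∈ insert p U, g' p' (o p')) := by
    funext o
    rw [e]
    ring
  rw [e2]
  refine key.trans ?_
  have hU : 0 ≤ ∏ p ∈ U, q p := Finset.prod_nonneg fun p _ => by linarith [hq p]
  have : ∏ p' ∈ insert p U, q p' ≤ q p * ∏ p ∈ U, q p := by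
    by_cases hp : p ∈ U
    · rw [Finset.insert_eq_of_mem hp]
      exact le_mul_of_one_le_left hU (hq p)
    · rw [Finset.prod_insert hp]
  calc E' * ∏ p' ∈ insert p U, q p' ≤ E' * (q p * ∏ p ∈ U, q p) :=
        mul_le_mul_of_nonneg_left this hE
    _ = _ := by ring

end level

section disc
variable {ι K : Type*} [Fintype ι] [DecidableEq ι] [Fintype K] [DecidableEq K]

/-- discrepancy between the count along an interval and the model -/
noncomputable def disc (q : ι → ℕ) (ω : ι → ℕ → Option K) (a N : ℕ) :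
    ((ι → Option K) → ℝ) →ₗ[ℝ] ℝ where
  toFun G := ∑ t ∈ range N, G (fun p => ω p (a + t)) -
    N * ∑ o : ι → Option K, (∏ p, wt (q p : ℝ) (o p)) * G o
  map_add' G H := by
    simp only [Pi.add_apply, mul_add, Finset.sum_add_distrib]
    ring
  map_smul' c G := by
    simp only [Pi.smul_apply, smul_eq_mul, RingHom.id_apply, mul_sub, Finset.mul_sum]
    congr 1
    refine Finset.sum_congr rfl fun o _ => ?_
    ring

theorem lev_one (q : ι → ℕ) (hq : ∀ p, 0 < q p)
    (hcop : ∀ p p', p ≠ p' → Nat.Coprime (q p) (q p')) (ω : ι → ℕ → Option K)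
    (hper : ∀ p, Function.Periodic (ω p) (q p))
    (hω : ∀ p i, ((range (q p)).filter (fun t => ω p t = some i)).card = 1) (a N : ℕ) :
    Lev (disc q ω a N) (fun p => (q p : ℝ)) (fun _ => 1) 2 := by
  intro U h hh
  have key := equi_prod U q hq hcop (fun p t => h p (ω p t))
    (fun p t => by simp only [hper p t]) (fun p t => hh _ _) a N
  have e2 : ∑ o : ι → Option K, (∏ p, wt (q p : ℝ) (o p)) * ∏ p ∈ U, h p (o p) =
      ∏ p ∈ U, ((∑ t ∈ range (q p), h p (ω p t)) / q p) := by
    have e3 : ∀ o : ι → Option K, (∏ p, wt (q p : ℝ) (o p)) * ∏ p ∈ U, h p (o p) =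
        ∏ p, (wt (q p : ℝ) (o p) * if p ∈ U then h p (o p) else 1) := by
      intro o
      rw [Finset.prod_mul_distrib, Finset.prod_ite_mem, Finset.univ_inter]
    simp only [e3]
    rw [← Fintype.prod_sum (fun p o => wt (q p : ℝ) o * if p ∈ U then h p o else 1)]
    have e4 : ∀ F : ι → ℝ, ∏ p ∈ U, F p = ∏ p, if p ∈ U then F p else 1 := by
      intro F
      rw [Finset.prod_ite_mem, Finset.univ_inter]
    rw [e4]
    refine Finset.prod_congr rfl fun p _ => ?_
    rw [← site_avg (q p) (hq p) (ω p) (hω p) (fun o => if p ∈ U then h p o else 1)]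
    have : (0 : ℝ) < q p := by exact_mod_cast hq p
    by_cases hp : p ∈ U
    · simp [hp]
    · simp [hp, this.ne']
  simp only [disc, LinearMap.coe_mk, AddHom.coe_mk, one_mul]
  rw [e2]
  exact key

/-- Bernoulli weight -/
def bw (r : ℝ) (b : Bool) : ℝ := if b then r else 1 - r

/-- product Bernoulli weight -/
def W (r : ι → ℝ) (x : ι → Bool) : ℝ := ∏ p, bw (r p) (x p)

/-- the hit pattern of a state -/
def emb (o : ι → Option K) : K → ι → Bool := fun i p => decide (o p = some i)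

omit [Fintype ι] [DecidableEq ι] [Fintype K] in
theorem emb_inj : Function.Injective (emb : (ι → Option K) → K → ι → Bool) := by
  intro o o' h
  funext p
  refine Option.ext fun i => ?_
  have := congrFun (congrFun h i) p
  simpa [emb] using this

theorem bw_nonneg {r : ℝ} (h0 : 0 ≤ r) (h1 : r ≤ 1) (b : Bool) : 0 ≤ bw r b := by
  cases b <;> simp [bw, h0, h1]

omit [DecidableEq ι] in
theorem W_nonneg {r : ι → ℝ} (h0 : ∀ p, 0 ≤ r p) (h1 : ∀ p, r p ≤ 1) (x : ι → Bool) :
    0 ≤ W r x := Finset.prod_nonneg fun p _ => bw_nonneg (h0 p) (h1 p) _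

theorem site_cmp (q r : ℝ) (hq : 0 < q) (h0 : 0 ≤ r) (h1 : r ≤ 1)
    (hr : r * (q - Fintype.card K) = 1) (o : Option K) :
    (1 - (Fintype.card K * r) ^ 2) * wt q o ≤ ∏ i, bw r (decide (o = some i)) := by
  set k : ℝ := (Fintype.card K : ℝ) with hk
  have hB : ∀ n : ℕ, (n : ℝ) ≤ k → 1 - k * r ≤ (1 - r) ^ n := by
    intro n hn
    have := one_add_mul_le_pow (a := -r) (by linarith) n
    have h2 : n * r ≤ k * r := mul_le_mul_of_nonneg_right hn h0
    rw [← sub_eq_add_neg] at this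
    linarith
  cases o with
  | none =>
    have e : (1 - (k * r) ^ 2) * wt (J := K) q none = 1 - k * r := by
      simp only [wt, ← hk]
      field_simp
      linear_combination (k * (1 - k * r)) * hr
    rw [e]
    simpa [bw] using hB (Fintype.card K) le_rfl
  | some j =>
    have e : (1 - (k * r) ^ 2) * wt (J := K) q (some j) = r * (1 - k * r) := by
      simp only [wt]
      field_simp
      linear_combination (-(1 - k * r)) * hr
    rw [e, ← Finset.mul_prod_erase univ _ (Finset.mem_univ j)]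
    have e2 : ∏ i ∈ univ.erase j, bw r (decide (some j = some i)) = (1 - r) ^ (univ.erase j).card := by
      rw [← Finset.prod_const]
      refine Finset.prod_congr rfl fun i hi => ?_
      have : j ≠ i := (Finset.ne_of_mem_erase hi).symm
      simp [bw, this]
    rw [e2]
    have e3 : bw r (decide (some j = some j)) = r := by simp [bw]
    rw [e3]
    refine mul_le_mul_of_nonneg_left (hB _ ?_) h0
    rw [hk]
    exact_mod_cast Finset.card_le_univ _

theorem one_sub_sum_le {α : Type*} (s : Finset α) (f : α → ℝ) (h0 : ∀ a, 0 ≤ f a)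
    (h1 : ∀ a, f a ≤ 1) : 1 - ∑ a ∈ s, f a ≤ ∏ a ∈ s, (1 - f a) := by
  classical
  induction s using Finset.induction_on with
  | empty => simp
  | insert a s ha ih =>
    rw [Finset.sum_insert ha, Finset.prod_insert ha]
    have hs : 0 ≤ ∑ a ∈ s, f a := Finset.sum_nonneg fun a _ => h0 a
    nlinarith [mul_le_mul_of_nonneg_left ih (sub_nonneg.2 (h1 a)), mul_nonneg hs (h0 a)]

theorem model_cmp (q r : ι → ℝ) (hq : ∀ p, 0 < q p) (h0 : ∀ p, 0 ≤ r p) (h1 : ∀ p, r p ≤ 1)
    (hr : ∀ p, r p * (q p - Fintype.card K) = 1) (hk : ∀ p, Fintype.card K * r p ≤ 1)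
    (G : (K → ι → Bool) → ℝ) (hG : ∀ x, 0 ≤ G x) :
    (1 - ∑ p, (Fintype.card K * r p) ^ 2) * ∑ o : ι → Option K, (∏ p, wt (q p) (o p)) * G (emb o) ≤
      ∑ x : K → ι → Bool, (∏ i, W r (x i)) * G x := by
  have hkq : ∀ p, (Fintype.card K : ℝ) ≤ q p := by
    intro p
    by_contra h
    have := mul_nonneg (h0 p) (sub_nonneg.2 (not_le.1 h).le)
    nlinarith [hr p]
  have hwt : ∀ p (o : Option K), 0 ≤ wt (q p) o := by
    intro p o
    cases o with
    | none =>
      simp only [wt, sub_nonneg]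
      exact (div_le_one (hq p)).2 (hkq p)
    | some i => simp only [wt]; exact (one_div_pos.2 (hq p)).le
  have hs1 : ∀ p, (Fintype.card K * r p) ^ 2 ≤ 1 := fun p =>
    pow_le_one₀ (mul_nonneg (Nat.cast_nonneg _) (h0 p)) (hk p)
  have hs := one_sub_sum_le univ (fun p => (Fintype.card K * r p) ^ 2) (fun p => sq_nonneg _) hs1
  calc _ ≤ (∏ p, (1 - (Fintype.card K * r p) ^ 2)) *
        ∑ o : ι → Option K, (∏ p, wt (q p) (o p)) * G (emb o) :=
        mul_le_mul_of_nonneg_right hs (Finset.sum_nonneg fun o _ =>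
          mul_nonneg (Finset.prod_nonneg fun p _ => hwt p _) (hG _))
    _ ≤ ∑ o : ι → Option K, (∏ i, W r (emb o i)) * G (emb o) := by
        rw [Finset.mul_sum]
        refine Finset.sum_le_sum fun o _ => ?_
        rw [← mul_assoc, ← Finset.prod_mul_distrib]
        refine mul_le_mul_of_nonneg_right ?_ (hG _)
        simp only [W, emb]
        rw [Finset.prod_comm]
        refine Finset.prod_le_prod (fun p _ => mul_nonneg (sub_nonneg.2 (hs1 p)) (hwt p _))
          fun p _ => site_cmp (q p) (r p) (hq p) (h0 p) (h1 p) (hr p) (o p)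
    _ ≤ _ := by
        rw [← Finset.sum_image (s := univ) (g := emb) (f := fun x => (∏ i, W r (x i)) * G x)
          (fun o _ o' _ h => emb_inj h)]
        exact Finset.sum_le_sum_of_subset_of_nonneg (Finset.subset_univ _) fun x _ _ =>
          mul_nonneg (Finset.prod_nonneg fun i _ => W_nonneg h0 h1 _) (hG _)

end disc

end Pool.Agent.MP_fdd1d3_nt.PD
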