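import Mathlib
import Pool.Agent.MP_fdd1d3_nt.PD1

set_option autoImplicit false

open Finset

namespace Pool.Agent.MP_fdd1d3_nt.PD

variable {ι : Type*} [Fintype ι] [DecidableEq ι]

/-- expectation in the Bernoulli model -/
noncomputable def Ex (r : ι → ℝ) (f : (ι → Bool) → ℝ) : ℝ := ∑ x, W r x * f x

/-- number of hits in a block -/
def om (b : ι → ℕ) (l : ℕ) (x : ι → Bool) : ℕ := ∑ p, if b p = l ∧ x p = true then 1 else 0

/-- mass of a block -/
def mu (r : ι → ℝ) (b : ι → ℕ) (l : ℕ) : ℝ := ∑ p, if b p = l then r p else 0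

/-- truncated inclusion-exclusion polynomial -/
noncomputable def be (n w : ℕ) : ℝ := ∏ s ∈ range n, (1 - (w : ℝ) / (s + 1))

/-- product of the polynomials over the lower blocks -/
noncomputable def pp (b : ι → ℕ) (l : ℕ) (x : ι → Bool) : ℝ :=
  ∏ l' ∈ range l, be (l - l') (om b l' x)

/-- the orthogonal pieces -/
noncomputable def uu (r : ι → ℝ) (b : ι → ℕ) (l : ℕ) (x : ι → Bool) : ℝ :=
  pp b l x * (1 - (om b l x : ℝ) / mu r b l)

/-- majorant of the powers of `pp` -/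
noncomputable def yp (b : ι → ℕ) (l : ℕ) (x : ι → Bool) : ℝ :=
  ∏ l' ∈ range l, ((0 : ℝ) ^ om b l' x + (1 / 2) ^ (l - l') * 162 ^ om b l' x)

/-- majorant of the powers of `uu` -/
noncomputable def yy (b : ι → ℕ) (l : ℕ) (x : ι → Bool) : ℝ := yp b l x * 16 ^ om b l x

/-- dependence on the lower blocks only -/
def Low (b : ι → ℕ) (l : ℕ) (f : (ι → Bool) → ℝ) : Prop :=
  ∀ x y, (∀ p, b p < l → x p = y p) → f x = f y

theorem Ex_site (r : ι → ℝ) (h : ι → Bool → ℝ) :
    Ex r (fun x => ∏ p, h p (x p)) = ∏ p, (r p * h p true + (1 - r p) * h p false) := by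
  simp only [Ex, W, ← Finset.prod_mul_distrib]
  rw [← Fintype.prod_sum (fun p c => bw (r p) c * h p c)]
  simp [bw]

theorem sum_W (r : ι → ℝ) : ∑ x, W r x = 1 := by
  have := Ex_site r (fun _ _ => 1)
  simpa [Ex] using this

theorem Ex_mono {r : ι → ℝ} (h0 : ∀ p, 0 ≤ r p) (h1 : ∀ p, r p ≤ 1) {f g : (ι → Bool) → ℝ}
    (h : ∀ x, f x ≤ g x) : Ex r f ≤ Ex r g :=
  Finset.sum_le_sum fun x _ => mul_le_mul_of_nonneg_left (h x) (W_nonneg h0 h1 x)

theorem Ex_nonneg {r : ι → ℝ} (h0 : ∀ p, 0 ≤ r p) (h1 : ∀ p, r p ≤ 1) {f : (ι → Bool) → ℝ}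
    (h : ∀ x, 0 ≤ f x) : 0 ≤ Ex r f :=
  Finset.sum_nonneg fun x _ => mul_nonneg (W_nonneg h0 h1 x) (h x)

theorem indep (r : ι → ℝ) (S : ι → Prop) [DecidablePred S] (f g : (ι → Bool) → ℝ)
    (hf : ∀ x y, (∀ p, S p → x p = y p) → f x = f y)
    (hg : ∀ x y, (∀ p, ¬ S p → x p = y p) → g x = g y) :
    Ex r (fun x => f x * g x) = Ex r f * Ex r g := by
  set mix : (ι → Bool) → (ι → Bool) → ι → Bool := fun x y p => if S p then x p else y p with hmix
  have inv : Function.Involutive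
      (fun z : (ι → Bool) × (ι → Bool) => (mix z.1 z.2, mix z.2 z.1)) := by
    rintro ⟨x, y⟩
    ext p <;> simp only [hmix] <;> split_ifs <;> rfl
  have hW : ∀ x y, W r (mix x y) * W r (mix y x) = W r x * W r y := by
    intro x y
    simp only [W, ← Finset.prod_mul_distrib, hmix]
    refine Finset.prod_congr rfl fun p _ => ?_
    split_ifs
    · rfl
    · ring
  have e1 : Ex r f * Ex r g = ∑ z : (ι → Bool) × (ι → Bool), W r z.1 * W r z.2 * (f z.1 * g z.2) := by
    rw [Ex, Ex, Finset.sum_mul_sum, Fintype.sum_prod_type]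
    refine Finset.sum_congr rfl fun x _ => Finset.sum_congr rfl fun y _ => ?_
    ring
  have e2 : Ex r (fun x => f x * g x) =
      ∑ z : (ι → Bool) × (ι → Bool), W r z.1 * W r z.2 * (f z.1 * g z.1) := by
    rw [Ex, Fintype.sum_prod_type]
    refine Finset.sum_congr rfl fun x _ => ?_
    simp only [mul_assoc, ← Finset.mul_sum, ← Finset.sum_mul, sum_W, one_mul]
  rw [e1, e2, ← Equiv.sum_comp inv.toPerm
    (fun z : (ι → Bool) × (ι → Bool) => W r z.1 * W r z.2 * (f z.1 * g z.2))]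
  refine Finset.sum_congr rfl fun z _ => ?_
  simp only [Function.Involutive.coe_toPerm]
  rw [hW, hf (mix z.1 z.2) z.1 (fun p hp => by simp [hmix, hp]),
    hg (mix z.2 z.1) z.1 (fun p hp => by simp [hmix, hp])]

omit [DecidableEq ι] in
theorem om_congr (b : ι → ℕ) (l : ℕ) (x y : ι → Bool) (h : ∀ p, b p = l → x p = y p) :
    om b l x = om b l y := by
  refine Finset.sum_congr rfl fun p _ => ?_
  by_cases hp : b p = l
  · rw [h p hp]
  · simp [hp]

theorem Ex_low (r : ι → ℝ) (b : ι → ℕ) (l : ℕ) (f : (ι → Bool) → ℝ) (hf : Low b l f) (g : ℕ → ℝ) :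
    Ex r (fun x => f x * g (om b l x)) = Ex r f * Ex r (fun x => g (om b l x)) :=
  indep r (fun p => b p < l) f _ hf fun x y h => by
    rw [om_congr b l x y fun p hp => h p (by omega)]

omit [DecidableEq ι] in
theorem low_prod (b : ι → ℕ) (l m : ℕ) (hm : m ≤ l) (g : ℕ → ℕ → ℝ) :
    Low b l (fun x => ∏ l' ∈ range m, g l' (om b l' x)) := by
  intro x y h
  refine Finset.prod_congr rfl fun l' hl' => ?_
  rw [Finset.mem_range] at hl'
  rw [om_congr b l' x y fun p hp => h p (by omega)]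

theorem Ex_blocks (r : ι → ℝ) (b : ι → ℕ) (g : ℕ → ℕ → ℝ) (l : ℕ) :
    Ex r (fun x => ∏ l' ∈ range l, g l' (om b l' x)) =
      ∏ l' ∈ range l, Ex r (fun x => g l' (om b l' x)) := by
  induction l with
  | zero => simp [Ex, sum_W]
  | succ l ih =>
    simp only [Finset.prod_range_succ]
    rw [Ex_low r b l _ (low_prod b l l le_rfl g), ih]

theorem Ex_pow {r : ι → ℝ} (h0 : ∀ p, 0 ≤ r p) (h1 : ∀ p, r p ≤ 1) (b : ι → ℕ) (l : ℕ) (s : ℝ)
    (hs : 0 ≤ s) : Ex r (fun x => s ^ om b l x) ≤ Real.exp ((s - 1) * mu r b l) := by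
  have e : ∀ x : ι → Bool, s ^ om b l x = ∏ p, (if b p = l ∧ x p = true then s else 1) := by
    intro x
    rw [om, ← Finset.prod_pow_eq_pow_sum]
    refine Finset.prod_congr rfl fun p _ => ?_
    split_ifs <;> simp
  simp only [e]
  rw [Ex_site r (fun p c => if b p = l ∧ c = true then s else 1), mu, Finset.mul_sum,
    Real.exp_sum]
  refine Finset.prod_le_prod (fun p _ => ?_) fun p _ => ?_
  · have := h0 p
    have := sub_nonneg.2 (h1 p)
    split_ifs <;> positivity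
  · by_cases hp : b p = l
    · simp only [hp, true_and, if_true, Bool.false_eq_true, if_false]
      have := Real.add_one_le_exp ((s - 1) * r p)
      linarith
    · simp [hp]

theorem Ex_om (r : ι → ℝ) (b : ι → ℕ) (l : ℕ) :
    Ex r (fun x => (om b l x : ℝ)) = mu r b l := by
  simp only [om, Nat.cast_sum, Ex, Finset.mul_sum]
  rw [Finset.sum_comm, mu]
  refine Finset.sum_congr rfl fun p _ => ?_
  have := Ex_site r (fun p' c => if p' = p then (if b p = l ∧ c = true then 1 else 0) else 1)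
  simp only [Finset.prod_ite_eq', Finset.mem_univ, if_true] at this
  rw [Finset.prod_eq_single p (fun p' _ hp' => by simp [hp']) (by simp)] at this
  simp only [Ex] at this
  push_cast
  rw [this]
  by_cases hp : b p = l <;> simp [hp]

theorem Ex_gamma (r : ι → ℝ) (b : ι → ℕ) (l : ℕ) (h : mu r b l ≠ 0) :
    Ex r (fun x => 1 - (om b l x : ℝ) / mu r b l) = 0 := by
  have h1 := Ex_om r b l
  simp only [Ex] at h1 ⊢
  simp only [mul_sub, mul_one, Finset.sum_sub_distrib, sum_W, ← mul_div_assoc, ← Finset.sum_div, h1]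
  rw [div_self h, sub_self]

theorem Ex_uu (r : ι → ℝ) (b : ι → ℕ) (l : ℕ) (h : mu r b l ≠ 0) : Ex r (uu r b l) = 0 := by
  have := Ex_low r b l (pp b l) (low_prod b l l le_rfl (fun l' w => be (l - l') w))
    (fun w => 1 - (w : ℝ) / mu r b l)
  rw [Ex_gamma r b l h, mul_zero] at this
  exact this

theorem Ex_uu_uu (r : ι → ℝ) (b : ι → ℕ) (l l' : ℕ) (hl : l' < l) (h : mu r b l ≠ 0) :
    Ex r (fun x => uu r b l' x * uu r b l x) = 0 := by
  have hlow : Low b l (fun x => uu r b l' x * pp b l x) := by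
    intro x y hxy
    have a1 := low_prod b l l le_rfl (fun l' w => be (l - l') w) x y hxy
    have a2 := low_prod b l l' hl.le (fun l'' w => be (l' - l'') w) x y hxy
    have a3 := om_congr b l' x y fun p hp => hxy p (by omega)
    simp only [uu, pp, a3]
    simp only at a1 a2
    rw [a1, a2]
  have := Ex_low r b l _ hlow (fun w => 1 - (w : ℝ) / mu r b l)
  rw [Ex_gamma r b l h, mul_zero] at this
  rw [← this]
  simp only [uu, mul_assoc]

theorem be_le (n w j : ℕ) (hj1 : 1 ≤ j) (hj : j ≤ 4) :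
    |be n w| ^ j ≤ (0 : ℝ) ^ w + (1 / 2) ^ n * 162 ^ w := by
  rcases Nat.eq_zero_or_pos w with rfl | hw
  · simp [be]
  by_cases hn : w ≤ n
  · have : be n w = 0 := by
      refine Finset.prod_eq_zero (i := w - 1) (Finset.mem_range.2 (by omega)) ?_
      have : ((w - 1 : ℕ) : ℝ) + 1 = w := by
        rw [Nat.cast_sub hw]
        simp
      rw [this, div_self (by positivity), sub_self]
    rw [this, abs_zero, zero_pow (by omega)]
    positivity
  · have h1 : |be n w| ≤ (w : ℝ) ^ n / n.factorial := by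
      rw [be, Finset.abs_prod, ← Finset.prod_range_add_one_eq_factorial, Nat.cast_prod,
        ← Finset.card_range n, ← Finset.prod_const, Finset.card_range, ← Finset.prod_div_distrib]
      refine Finset.prod_le_prod (fun _ _ => abs_nonneg _) fun s hs => ?_
      rw [Finset.mem_range] at hs
      have : (1 : ℝ) ≤ w / (s + 1) := by
        rw [one_le_div (by positivity)]
        exact_mod_cast (by omega : s + 1 ≤ w)
      push_cast
      rw [abs_le]
      constructor <;> linarith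
    have h2 : (w : ℝ) ^ n / n.factorial ≤ 3 ^ w := by
      refine (Real.pow_div_factorial_le_exp _ (Nat.cast_nonneg w) n).trans ?_
      rw [← Real.exp_one_pow]
      exact pow_le_pow_left₀ (Real.exp_pos 1).le (by linarith [Real.exp_one_lt_d9]) w
    have h3 : |be n w| ^ j ≤ 81 ^ w := by
      calc |be n w| ^ j ≤ (3 ^ w) ^ j := pow_le_pow_left₀ (abs_nonneg _) (h1.trans h2) j
        _ ≤ (3 ^ w) ^ 4 := pow_le_pow_right₀ (one_le_pow₀ (by norm_num)) hj
        _ = 81 ^ w := by rw [← pow_mul, mul_comm, pow_mul]; norm_num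
    have h4 : (1 / 2 : ℝ) ^ w ≤ (1 / 2) ^ n :=
      pow_le_pow_of_le_one (by norm_num) (by norm_num) (by omega)
    calc |be n w| ^ j ≤ (1 / 2) ^ w * 162 ^ w := by
          rw [← mul_pow]
          norm_num
          exact h3
      _ ≤ (1 / 2) ^ n * 162 ^ w := mul_le_mul_of_nonneg_right h4 (by positivity)
      _ ≤ _ := le_add_of_nonneg_left (by positivity)

omit [DecidableEq ι] in
theorem pp_le (b : ι → ℕ) (l : ℕ) (x : ι → Bool) (j : ℕ) (hj1 : 1 ≤ j) (hj : j ≤ 4) :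
    |pp b l x| ^ j ≤ yp b l x := by
  rw [pp, Finset.abs_prod, ← Finset.prod_pow]
  exact Finset.prod_le_prod (fun _ _ => by positivity) fun l' _ => be_le _ _ j hj1 hj

omit [DecidableEq ι] in
theorem yp_nonneg (b : ι → ℕ) (l : ℕ) (x : ι → Bool) : 0 ≤ yp b l x :=
  Finset.prod_nonneg fun _ _ => by positivity

omit [DecidableEq ι] in
theorem yy_nonneg (b : ι → ℕ) (l : ℕ) (x : ι → Bool) : 0 ≤ yy b l x :=
  mul_nonneg (yp_nonneg b l x) (by positivity)

omit [DecidableEq ι] in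
theorem uu_le (r : ι → ℝ) (b : ι → ℕ) (l : ℕ) (h : 1 ≤ mu r b l) (x : ι → Bool) (j : ℕ)
    (hj1 : 1 ≤ j) (hj : j ≤ 4) : |uu r b l x| ^ j ≤ yy b l x := by
  rw [uu, abs_mul, mul_pow, yy]
  refine mul_le_mul (pp_le b l x j hj1 hj) ?_ (by positivity) (yp_nonneg b l x)
  set w := om b l x
  have h1 : |1 - (w : ℝ) / mu r b l| ≤ 2 ^ w := by
    have a1 : (w : ℝ) / mu r b l ≤ w := div_le_self (Nat.cast_nonneg _) h
    have a2 : 0 ≤ (w : ℝ) / mu r b l := div_nonneg (Nat.cast_nonneg _) (by linarith)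
    have a3 : (w : ℝ) + 1 ≤ 2 ^ w := by exact_mod_cast Nat.lt_two_pow_self
    rw [abs_le]
    constructor <;> linarith
  calc _ ≤ ((2 : ℝ) ^ w) ^ j := pow_le_pow_left₀ (abs_nonneg _) h1 j
    _ ≤ (2 ^ w) ^ 4 := pow_le_pow_right₀ (one_le_pow₀ (by norm_num)) hj
    _ = 16 ^ w := by rw [← pow_mul, mul_comm, pow_mul]; norm_num

theorem half_sum (l : ℕ) : ∑ l' ∈ range l, (1 / 2 : ℝ) ^ (l - l') ≤ 1 := by
  induction l with
  | zero => simp
  | succ l ih =>
    rw [Finset.sum_range_succ]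
    have : ∑ l' ∈ range l, (1 / 2 : ℝ) ^ (l + 1 - l') = 1 / 2 * ∑ l' ∈ range l, (1 / 2 : ℝ) ^ (l - l') := by
      rw [Finset.mul_sum]
      refine Finset.sum_congr rfl fun l' hl' => ?_
      rw [Finset.mem_range] at hl'
      rw [show l + 1 - l' = (l - l') + 1 by omega, pow_succ']
    rw [this]
    simp only [add_tsub_cancel_left, pow_one]
    linarith

/-- the moment constant -/
noncomputable def C5 : ℝ := Real.exp (30 + Real.exp 324)

theorem Ex_yp {r : ι → ℝ} (h0 : ∀ p, 0 ≤ r p) (h1 : ∀ p, r p ≤ 1) (b : ι → ℕ) (l : ℕ)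
    (hm : ∀ l' < l, mu r b l' ≤ 2) (hM : l * Real.log 4 ≤ ∑ l' ∈ range l, mu r b l') :
    Ex r (yp b l) ≤ Real.exp (Real.exp 324) * (1 / 4) ^ l := by
  have e := Ex_blocks r b (fun l' w => (0 : ℝ) ^ w + (1 / 2) ^ (l - l') * 162 ^ w) l
  have h2 : ∀ l' ∈ range l, Ex r (fun x => (0 : ℝ) ^ om b l' x + (1 / 2) ^ (l - l') * 162 ^ om b l' x)
      ≤ Real.exp (- mu r b l' + Real.exp 324 * (1 / 2) ^ (l - l')) := by
    intro l' hl'
    have a1 := Ex_pow h0 h1 b l' 0 le_rfl
    have a2 := Ex_pow h0 h1 b l' 162 (by norm_num)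
    have a3 := hm l' (Finset.mem_range.1 hl')
    have a4 : Ex r (fun x => (0 : ℝ) ^ om b l' x + (1 / 2) ^ (l - l') * 162 ^ om b l' x) =
        Ex r (fun x => (0 : ℝ) ^ om b l' x) + (1 / 2) ^ (l - l') * Ex r (fun x => 162 ^ om b l' x) := by
      simp only [Ex, mul_add, Finset.sum_add_distrib, Finset.mul_sum]
      congr 1
      refine Finset.sum_congr rfl fun x _ => ?_
      ring
    have a5 : Real.exp ((162 - 1) * mu r b l') ≤ Real.exp (- mu r b l') * Real.exp 324 := by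
      rw [← Real.exp_add]
      exact Real.exp_le_exp.2 (by linarith)
    have a6 : (0 : ℝ) ≤ (1 / 2) ^ (l - l') := by positivity
    have a7 := Real.add_one_le_exp (Real.exp 324 * (1 / 2) ^ (l - l'))
    have a8 := mul_le_mul_of_nonneg_left (a2.trans a5) a6
    have a9 := mul_le_mul_of_nonneg_left a7 (Real.exp_pos (- mu r b l')).le
    rw [a4, Real.exp_add]
    rw [show (0 - 1) * mu r b l' = - mu r b l' by ring] at a1
    nlinarith
  have e' : Ex r (yp b l) = ∏ l' ∈ range l,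
      Ex r (fun x => (0 : ℝ) ^ om b l' x + (1 / 2) ^ (l - l') * 162 ^ om b l' x) := e
  rw [e']
  refine (Finset.prod_le_prod (fun l' _ => Ex_nonneg h0 h1 fun x => by positivity) h2).trans ?_
  have e4 : (1 / 4 : ℝ) ^ l = Real.exp (-(l * Real.log 4)) := by
    rw [Real.exp_neg, Real.exp_nat_mul, Real.exp_log (by norm_num), one_div, inv_pow]
  rw [← Real.exp_sum, e4, ← Real.exp_add, Finset.sum_add_distrib, ← Finset.mul_sum,
    Finset.sum_neg_distrib]
  refine Real.exp_le_exp.2 ?_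
  have := mul_le_mul_of_nonneg_left (half_sum l) (Real.exp_pos 324).le
  linarith

theorem Ex_yp' {r : ι → ℝ} (h0 : ∀ p, 0 ≤ r p) (h1 : ∀ p, r p ≤ 1) (b : ι → ℕ) (l : ℕ)
    (hm : ∀ l' < l, mu r b l' ≤ 2) (hM : l * Real.log 4 ≤ ∑ l' ∈ range l, mu r b l') :
    Ex r (yp b l) ≤ C5 * (1 / 4) ^ l := by
  refine (Ex_yp h0 h1 b l hm hM).trans (mul_le_mul_of_nonneg_right ?_ (by positivity))
  exact Real.exp_le_exp.2 (by linarith)

theorem Ex_yy {r : ι → ℝ} (h0 : ∀ p, 0 ≤ r p) (h1 : ∀ p, r p ≤ 1) (b : ι → ℕ) (l : ℕ)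
    (hm : ∀ l' ≤ l, mu r b l' ≤ 2) (hM : l * Real.log 4 ≤ ∑ l' ∈ range l, mu r b l') :
    Ex r (yy b l) ≤ C5 * (1 / 4) ^ l := by
  have e := Ex_low r b l (yp b l)
    (low_prod b l l le_rfl (fun l' w => (0 : ℝ) ^ w + (1 / 2) ^ (l - l') * 162 ^ w))
    (fun w => (16 : ℝ) ^ w)
  have e' : Ex r (yy b l) = Ex r (yp b l) * Ex r (fun x => (16 : ℝ) ^ om b l x) := e
  have a1 := Ex_yp h0 h1 b l (fun l' hl' => hm l' hl'.le) hM
  have a2 := Ex_pow h0 h1 b l 16 (by norm_num)
  have a3 : Real.exp ((16 - 1) * mu r b l) ≤ Real.exp 30 :=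
    Real.exp_le_exp.2 (by linarith [hm l le_rfl])
  rw [e', C5, Real.exp_add]
  calc _ ≤ (Real.exp (Real.exp 324) * (1 / 4) ^ l) * Real.exp 30 :=
        mul_le_mul a1 (a2.trans a3) (Ex_nonneg h0 h1 fun x => by positivity) (by positivity)
    _ = _ := by ring

omit [DecidableEq ι] in
theorem pp_zero (b : ι → ℕ) (l : ℕ) : pp b l (fun _ => false) = 1 := by
  simp [pp, om, be]

omit [DecidableEq ι] in
theorem uu_zero (r : ι → ℝ) (b : ι → ℕ) (l : ℕ) : uu r b l (fun _ => false) = 1 := by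
  simp [uu, pp_zero, om]

section norms
variable {K : Type*} [DecidableEq K] {Δ : ((ι → Option K) → ℝ) →ₗ[ℝ] ℝ} {q : ι → ℝ}

omit [Fintype ι] [DecidableEq ι] [DecidableEq K] in
theorem Mu.one_sub (hq : ∀ p, 1 ≤ q p) {G : (ι → Option K) → ℝ} {V d : ℝ}
    (h : Mu Δ q G (Real.exp (2 * V))) (hV : 1 ≤ V) (hd : 1 ≤ d) :
    Mu Δ q (fun o => 1 - G o / d) (Real.exp (3 * V)) := by
  have h1 := (Mu.const (Δ := Δ) (q := q) 1).sub ((Mu.const (1 / d)).mul h)
  have e : (fun o => 1 - G o / d) = fun o => 1 - 1 / d * G o := by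
    funext o
    ring
  rw [e]
  refine h1.mono hq ?_
  have a1 : |1 / d| ≤ 1 := by
    rw [abs_of_pos (by positivity)]
    exact (div_le_one (by linarith)).2 hd
  have a2 : 1 ≤ Real.exp (2 * V) := Real.one_le_exp (by linarith)
  have a3 : 2 ≤ Real.exp V := by linarith [Real.add_one_le_exp V]
  rw [abs_one, show 3 * V = V + 2 * V by ring, Real.exp_add]
  nlinarith [mul_le_mul_of_nonneg_right a1 (Real.exp_pos (2 * V)).le]

omit [DecidableEq ι] in
theorem Mu_om (hq : ∀ p, 1 ≤ q p) (b : ι → ℕ) (l : ℕ) (i : K) (E : ℝ)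
    (hE : ∑ p, (if b p = l then q p else 0) ≤ E) :
    Mu Δ q (fun o => (om b l (emb o i) : ℝ)) E := by
  simp only [om, Nat.cast_sum]
  refine (Mu.sum univ (fun p o => ((if b p = l ∧ emb o i p = true then 1 else 0 : ℕ) : ℝ))
    (fun p => if b p = l then q p else 0) fun p _ => ?_).mono hq hE
  by_cases hp : b p = l
  · have := Mu.site (Δ := Δ) hq p (fun s : Option K => if s = some i then (1 : ℝ) else 0)
      (fun s => by split_ifs <;> simp)
    simpa [hp, emb] using this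
  · simpa [hp] using (Mu.const (Δ := Δ) (q := q) 0)

theorem deg_sum (l : ℕ) : ∑ l' ∈ range l, (l - l') * 4 ^ l' ≤ 4 ^ l := by
  have h : ∀ l : ℕ, 3 * ∑ l' ∈ range l, 4 ^ l' + 1 = 4 ^ l := by
    intro l
    induction l with
    | zero => simp
    | succ l ih => rw [Finset.sum_range_succ, pow_succ]; omega
  induction l with
  | zero => simp
  | succ l ih =>
    have e : ∑ l' ∈ range (l + 1), (l + 1 - l') * 4 ^ l' =
        ∑ l' ∈ range (l + 1), (l - l') * 4 ^ l' + ∑ l' ∈ range (l + 1), 4 ^ l' := by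
      rw [← Finset.sum_add_distrib]
      refine Finset.sum_congr rfl fun l' hl' => ?_
      rw [Finset.mem_range] at hl'
      rw [show l + 1 - l' = (l - l') + 1 by omega]
      ring
    have := h (l + 1)
    rw [e, Finset.sum_range_succ (fun l' => (l - l') * 4 ^ l')]
    simp only [tsub_self, zero_mul, add_zero]
    rw [pow_succ] at this ⊢
    omega

omit [DecidableEq ι] in
theorem Mu_pp (hq : ∀ p, 1 ≤ q p) (b : ι → ℕ) (l : ℕ) (i : K) (U : ℝ) (hU : 1 ≤ U)
    (hE : ∀ l' < l, ∑ p, (if b p = l' then q p else 0) ≤ Real.exp (2 * (U * 4 ^ l'))) :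
    Mu Δ q (fun o => pp b l (emb o i)) (Real.exp (3 * (U * 4 ^ l))) := by
  simp only [pp, be]
  refine (Mu.prod (range l) _ (fun l' => ∏ s ∈ range (l - l'), Real.exp (3 * (U * 4 ^ l')))
    fun l' hl' => Mu.prod (range (l - l')) _ _ fun s _ => ?_).mono hq ?_
  · refine Mu.one_sub hq (Mu_om hq b l' i _ (hE l' (Finset.mem_range.1 hl'))) ?_ ?_
    · exact one_le_mul_of_one_le_of_one_le hU (one_le_pow₀ (by norm_num))
    · linarith [Nat.cast_nonneg (α := ℝ) s]
  · simp only [Finset.prod_const, Finset.card_range, ← Real.exp_nat_mul, ← Real.exp_sum]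
    refine Real.exp_le_exp.2 ?_
    have h1 : ((∑ l' ∈ range l, (l - l') * 4 ^ l' : ℕ) : ℝ) ≤ ((4 ^ l : ℕ) : ℝ) := by
      exact_mod_cast deg_sum l
    rw [Nat.cast_sum] at h1
    have e : ∑ l' ∈ range l, ((l - l' : ℕ) : ℝ) * (3 * (U * 4 ^ l')) =
        3 * (U * ∑ l' ∈ range l, (((l - l') * 4 ^ l' : ℕ) : ℝ)) := by
      rw [Finset.mul_sum, Finset.mul_sum]
      refine Finset.sum_congr rfl fun l' _ => ?_
      rw [Nat.cast_mul]
      push_cast
      ring
    rw [e]
    have h2 : ((4 ^ l : ℕ) : ℝ) = 4 ^ l := by push_cast; ring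
    rw [h2] at h1
    gcongr

omit [DecidableEq ι] in
theorem Mu_uu (hq : ∀ p, 1 ≤ q p) (r : ι → ℝ) (b : ι → ℕ) (l : ℕ) (i : K) (U : ℝ) (hU : 1 ≤ U)
    (hm : 1 ≤ mu r b l)
    (hE : ∀ l' ≤ l, ∑ p, (if b p = l' then q p else 0) ≤ Real.exp (2 * (U * 4 ^ l'))) :
    Mu Δ q (fun o => uu r b l (emb o i)) (Real.exp (6 * (U * 4 ^ l))) := by
  have h1 := Mu_pp (Δ := Δ) hq b l i U hU fun l' hl' => hE l' hl'.le
  have h2 := Mu.one_sub hq (Mu_om (Δ := Δ) hq b l i _ (hE l le_rfl))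
    (one_le_mul_of_one_le_of_one_le hU (one_le_pow₀ (by norm_num))) hm
  have := h1.mul h2
  rw [← Real.exp_add, show 3 * (U * 4 ^ l) + 3 * (U * 4 ^ l) = 6 * (U * 4 ^ l) by ring] at this
  exact this

end norms

end Pool.Agent.MP_fdd1d3_nt.PD
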