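import Mathlib
import Pool.Agent.MP_fdd1d3_nt.Tuples
import Pool.Agent.MP_fdd1d3_nt.PD1

set_option autoImplicit false

open Finset

namespace Pool.Agent.MP_fdd1d3_nt.PD

variable {K J Ω : Type*} [Fintype K] [DecidableEq K] [Fintype J] [DecidableEq J]

/-- cost of a labelling -/
def cost (c : Option J → ℝ) (σ : K → Option J) : ℝ := ∑ i, c (σ i)

/-- cutoff -/
noncomputable def cut (c : Option J → ℝ) (D : ℝ) (σ : K → Option J) : ℝ :=
  if cost c σ ≤ D then 1 else 0

/-- the truncated product weight -/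
noncomputable def psi (η : Option J → Ω → ℝ) (c : Option J → ℝ) (D : ℝ) (x : K → Ω) : ℝ :=
  ∑ σ : K → Option J, cut c D σ * ∏ i, η (σ i) (x i)

/-- values of the pieces at the exceptional point -/
noncomputable def ee : Option J → ℝ
  | none => 1
  | some _ => -(1 / Fintype.card J)

/-- boundary coefficient -/
noncomputable def Bk (c : Option J → ℝ) (D : ℝ) (i : K) (σ : K → Option J) : ℝ :=
  if σ i = none then ∑ a, cut c D (Function.update σ i a) * ee a else 0

/-- site functions of the penalty -/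
def fP (η : Option J → Ω → ℝ) (ν : Ω → ℝ) (i i' : K) (a : Option J) (o : Ω) : ℝ :=
  if i' = i then (if a = none then ν o else 0) else η a o

/-- penalty -/
noncomputable def pen (η : Option J → Ω → ℝ) (ν : Ω → ℝ) (c : Option J → ℝ) (D : ℝ) (i : K)
    (x : K → Ω) : ℝ :=
  ∑ σ : K → Option J, Bk c D i σ * ∏ i', fP η ν i i' (σ i') (x i')

/-- the minorant -/
noncomputable def QQ (a : ℝ) (η : Option J → Ω → ℝ) (ν : Ω → ℝ) (c : Option J → ℝ) (D : ℝ)
    (x : K → Ω) : ℝ :=
  2 * a * psi η c D x ^ 2 - a ^ 2 * (psi η c D x ^ 2) ^ 2 - 2 * a * ∑ i, pen η ν c D i x ^ 2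

omit [Fintype J] [DecidableEq J] in
theorem cost_update (c : Option J → ℝ) (h0 : c none = 0) (σ : K → Option J) (i : K)
    (h : σ i = none) (a : Option J) : cost c (Function.update σ i a) = cost c σ + c a := by
  rw [cost, cost, ← Finset.add_sum_erase _ _ (Finset.mem_univ i),
    ← Finset.add_sum_erase _ _ (Finset.mem_univ i), h, h0, Function.update_self, zero_add, add_comm]
  congr 1
  refine Finset.sum_congr rfl fun i' hi' => ?_
  rw [Function.update_of_ne (Finset.ne_of_mem_erase hi')]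

omit [DecidableEq J] in
theorem Bk_le (c : Option J → ℝ) (D T : ℝ) (h0 : c none = 0) (hc : ∀ a, 0 ≤ c a)
    (hT : ∀ a, c a ≤ T) (hJ : 0 < Fintype.card J) (i : K) (σ : K → Option J) :
    |Bk c D i σ| ≤ if D - T < cost c σ ∧ cost c σ ≤ D then 1 else 0 := by
  have hJ' : (0 : ℝ) < Fintype.card J := by exact_mod_cast hJ
  by_cases h : σ i = none
  swap
  · simp only [Bk, h, if_false, abs_zero]
    split_ifs <;> norm_num
  have e : Bk c D i σ = (if cost c σ ≤ D then 1 else 0) -
      (∑ j : J, if cost c σ + c (some j) ≤ D then (1 : ℝ) else 0) / Fintype.card J := by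
    simp only [Bk, h, if_true, Fintype.sum_option, ee, cut, cost_update c h0 σ i h, h0, add_zero,
      mul_one, ← Finset.sum_mul]
    ring
  rw [e]
  by_cases h1 : cost c σ ≤ D
  · by_cases h2 : D - T < cost c σ
    · rw [if_pos h1, if_pos ⟨h2, h1⟩]
      have a1 : 0 ≤ (∑ j : J, if cost c σ + c (some j) ≤ D then (1 : ℝ) else 0) / Fintype.card J :=
        div_nonneg (Finset.sum_nonneg fun j _ => by split_ifs <;> norm_num) hJ'.le
      have a2 : (∑ j : J, if cost c σ + c (some j) ≤ D then (1 : ℝ) else 0) / Fintype.card J ≤ 1 := by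
        rw [div_le_one hJ']
        calc _ ≤ ∑ j : J, (1 : ℝ) := Finset.sum_le_sum fun j _ => by split_ifs <;> norm_num
          _ = _ := by simp
      rw [abs_le]
      constructor <;> linarith
    · have : ∀ j : J, cost c σ + c (some j) ≤ D := fun j => by linarith [hT (some j), not_lt.1 h2]
      simp [h1, h2, this, hJ'.ne']
  · have : ∀ j : J, ¬ cost c σ + c (some j) ≤ D := fun j => by
      have := hc (some j)
      intro h3
      exact h1 (by linarith)
    simp [h1, this]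

omit [DecidableEq J] in
theorem sum_update (F : (K → Option J) → ℝ) (i : K) :
    ∑ σ : K → Option J, (if σ i = none then ∑ a, F (Function.update σ i a) else 0) = ∑ τ, F τ := by
  rw [← Finset.sum_filter, ← Finset.sum_product']
  refine Finset.sum_nbij' (fun z => Function.update z.1 i z.2)
    (fun τ => (Function.update τ i none, τ i)) ?_ ?_ ?_ ?_ ?_
  · intro z _
    simp
  · intro τ _
    simp
  · rintro ⟨σ, a⟩ hz
    simp only [Finset.mem_product, Finset.mem_filter, Finset.mem_univ, true_and, and_true] at hz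
    simp [← hz]
  · intro τ _
    simp
  · intro z _
    rfl

theorem psi_eq_pen (η : Option J → Ω → ℝ) (ν : Ω → ℝ) (c : Option J → ℝ) (D : ℝ) (i : K)
    (x : K → Ω) (h1 : ∀ a, η a (x i) = ee a) (h2 : ν (x i) = 1) :
    psi η c D x = pen η ν c D i x := by
  rw [psi, ← sum_update _ i, pen]
  refine Finset.sum_congr rfl fun σ _ => ?_
  rw [Bk]
  split_ifs with h
  · rw [Finset.sum_mul]
    refine Finset.sum_congr rfl fun a _ => ?_
    rw [← Finset.mul_prod_erase _ _ (Finset.mem_univ i),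
      ← Finset.mul_prod_erase _ _ (Finset.mem_univ i), Function.update_self, h1, mul_assoc]
    have e1 : fP η ν i i (σ i) (x i) = 1 := by simp [fP, h, h2]
    rw [e1, one_mul]
    congr 2
    refine Finset.prod_congr rfl fun i' hi' => ?_
    have := Finset.ne_of_mem_erase hi'
    simp [fP, this]
  · simp

omit [DecidableEq J] in
theorem QQ_le_one (a : ℝ) (ha : 0 ≤ a) (η : Option J → Ω → ℝ) (ν : Ω → ℝ) (c : Option J → ℝ)
    (D : ℝ) (x : K → Ω) : QQ a η ν c D x ≤ 1 := by
  have h1 : 0 ≤ 2 * a * ∑ i, pen η ν c D i x ^ 2 :=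
    mul_nonneg (by linarith) (Finset.sum_nonneg fun i _ => sq_nonneg _)
  rw [QQ]
  nlinarith [sq_nonneg (a * psi η c D x ^ 2 - 1)]

theorem QQ_le_zero (a : ℝ) (ha : 0 ≤ a) (η : Option J → Ω → ℝ) (ν : Ω → ℝ) (c : Option J → ℝ)
    (D : ℝ) (x : K → Ω) (i : K) (h1 : ∀ a, η a (x i) = ee a) (h2 : ν (x i) = 1) :
    QQ a η ν c D x ≤ 0 := by
  have h3 : pen η ν c D i x ^ 2 ≤ ∑ i, pen η ν c D i x ^ 2 :=
    Finset.single_le_sum (f := fun i => pen η ν c D i x ^ 2) (fun i _ => sq_nonneg _)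
      (Finset.mem_univ i)
  rw [← psi_eq_pen η ν c D i x h1 h2] at h3
  rw [QQ]
  nlinarith [mul_le_mul_of_nonneg_left h3 ha, sq_nonneg (a * psi η c D x ^ 2)]

omit [Fintype K] [DecidableEq K] [DecidableEq J] in
theorem orth_sq [Fintype Ω] (w : Ω → ℝ) (η : Option J → Ω → ℝ)
    (horth : ∀ a a', a ≠ a' → ∑ o, w o * (η a o * η a' o) = 0) (v : Option J → ℝ) :
    ∑ o, w o * (∑ a, v a * η a o) ^ 2 = ∑ a, (∑ o, w o * η a o ^ 2) * v a ^ 2 := by
  have e : ∀ o, w o * (∑ a, v a * η a o) ^ 2 =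
      ∑ a, ∑ a', v a * v a' * (w o * (η a o * η a' o)) := by
    intro o
    rw [sq, Finset.sum_mul_sum, Finset.mul_sum]
    refine Finset.sum_congr rfl fun a _ => ?_
    rw [Finset.mul_sum]
    refine Finset.sum_congr rfl fun a' _ => ?_
    ring
  simp only [e]
  rw [Finset.sum_comm]
  refine Finset.sum_congr rfl fun a _ => ?_
  rw [Finset.sum_comm, Finset.sum_eq_single a]
  · rw [← Finset.mul_sum]
    simp only [sq]
    ring
  · intro a' _ ha'
    rw [← Finset.mul_sum, horth a a' (Ne.symm ha'), mul_zero]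
  · simp

theorem EQ_lower [Fintype Ω] (w : Ω → ℝ) (hw : ∀ o, 0 ≤ w o) (hw1 : ∑ o, w o = 1)
    (η : Option J → Ω → ℝ) (ν : Ω → ℝ) (c : Option J → ℝ) (D T cc κ F : ℝ)
    (hη : ∀ o, η none o = 1) (horth : ∀ a a', a ≠ a' → ∑ o, w o * (η a o * η a' o) = 0)
    (h0 : c none = 0) (hc : ∀ a, 0 ≤ c a) (hT : ∀ a, c a ≤ T) (hT0 : 0 < T)
    (hJ : 0 < Fintype.card J) (hcc : ∑ a, (∑ o, w o * η a o ^ 2) * c a ≤ cc)
    (hκ : ∑ o, w o * ν o ^ 2 ≤ κ)
    (hF : (∑ o, w o * (∑ a, |η a o|) ^ 4) ^ Fintype.card K ≤ F) (hF0 : 0 < F)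
    (hs : Real.exp ((2 * cc * Fintype.card K - (D - T)) / T) * (1 + Fintype.card K * κ) ≤ 1 / 2) :
    1 / (4 * F) ≤ ∑ x : K → Ω, (∏ i, w (x i)) * QQ (1 / (2 * F)) η ν c D x := by
  set δ : Option J → ℝ := fun a => ∑ o, w o * η a o ^ 2 with hδ
  have hδ0 : ∀ a, 0 ≤ δ a := fun a => Finset.sum_nonneg fun o _ => mul_nonneg (hw o) (sq_nonneg _)
  have hδ1 : δ none = 1 := by simp [hδ, hη, hw1]
  have hZ : 1 ≤ ∑ a, δ a := by
    rw [← hδ1]
    exact Finset.single_le_sum (fun a _ => hδ0 a) (Finset.mem_univ _)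
  have hcc0 : 0 ≤ cc := le_trans (Finset.sum_nonneg fun a _ => mul_nonneg (hδ0 a) (hc a)) hcc
  have hκ0 : 0 ≤ κ := le_trans (Finset.sum_nonneg fun o _ => mul_nonneg (hw o) (sq_nonneg _)) hκ
  have tail := tail_bound (J := K) δ c T cc (D - T) hT0 hcc0 hδ0 hc (fun a _ => hT a) hcc hZ
  set Z := (∑ a, δ a) ^ Fintype.card K with hZd
  set ε := Real.exp ((2 * cc * Fintype.card K - (D - T)) / T) with hε
  have hZ1 : 1 ≤ Z := one_le_pow₀ hZ
  have hZe : Z = ∑ σ : K → Option J, ∏ i, δ (σ i) := by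
    rw [← Fintype.prod_sum (fun (_ : K) a => δ a)]
    simp [hZd]
  have hP : ∀ σ : K → Option J, 0 ≤ ∏ i, δ (σ i) := fun σ => Finset.prod_nonneg fun i _ => hδ0 _
  have s2 : Z - Z * ε ≤ ∑ x : K → Ω, (∏ i, w (x i)) * psi η c D x ^ 2 := by
    have := tensor (ι := K) (-1 : ℝ) (fun _ => w) (fun _ => η) (fun _ => δ) (fun _ => hw)
      (fun _ => hδ0) (fun _ v => by rw [orth_sq w η horth v]) (cut c D)
    simp only [neg_mul, one_mul, neg_le_neg_iff] at this
    refine le_trans ?_ this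
    refine le_trans (sub_le_sub_left tail Z) ?_
    rw [hZe, ← Finset.sum_sub_distrib]
    refine Finset.sum_le_sum fun σ _ => ?_
    have := hP σ
    simp only [cut, cost]
    split_ifs with a1 a2 a2
    · simpa using this
    · simp
    · simp
    · exact absurd (by linarith [not_lt.1 a1]) a2
  have s3 : ∀ i, ∑ x : K → Ω, (∏ i, w (x i)) * pen η ν c D i x ^ 2 ≤ κ * (Z * ε) := by
    intro i
    set d : K → Option J → ℝ := fun i' a => if i' = i then (if a = none then κ else 0) else δ a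
      with hd
    have hd0 : ∀ i' a, 0 ≤ d i' a := by
      intro i' a
      simp only [hd]
      split_ifs
      · exact hκ0
      · exact le_rfl
      · exact hδ0 a
    have := tensor (ι := K) (1 : ℝ) (fun _ => w) (fP η ν i) d (fun _ => hw) hd0 ?_ (Bk c D i)
    · simp only [one_mul] at this
      refine this.trans (le_trans ?_ (mul_le_mul_of_nonneg_left tail hκ0))
      rw [Finset.mul_sum]
      refine Finset.sum_le_sum fun σ _ => ?_
      have b1 : ∏ i', d i' (σ i') ≤ κ * ∏ i', δ (σ i') := by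
        rw [← Finset.mul_prod_erase _ _ (Finset.mem_univ i),
          ← Finset.mul_prod_erase _ _ (Finset.mem_univ i), ← mul_assoc]
        have e : ∏ i' ∈ univ.erase i, d i' (σ i') = ∏ i' ∈ univ.erase i, δ (σ i') :=
          Finset.prod_congr rfl fun i' hi' => by simp [hd, Finset.ne_of_mem_erase hi']
        rw [e]
        refine mul_le_mul_of_nonneg_right ?_ (Finset.prod_nonneg fun _ _ => hδ0 _)
        simp only [hd, if_true]
        split_ifs with h
        · rw [h, hδ1, mul_one]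
        · exact mul_nonneg hκ0 (hδ0 _)
      have b2 := Bk_le c D T h0 hc hT hJ i σ
      have b3 : 0 ≤ ∏ i', d i' (σ i') := Finset.prod_nonneg fun _ _ => hd0 _ _
      rw [← sq_abs]
      by_cases h : D - T < cost c σ ∧ cost c σ ≤ D
      · rw [if_pos h] at b2
        rw [if_pos (show D - T < ∑ j, c (σ j) from h.1)]
        have : |Bk c D i σ| ^ 2 ≤ 1 := pow_le_one₀ (abs_nonneg _) b2
        exact (mul_le_of_le_one_right b3 this).trans b1
      · rw [if_neg h] at b2
        rw [le_antisymm b2 (abs_nonneg _)]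
        have := hP σ
        split_ifs <;> simp
        positivity
    · intro i' v
      rw [one_mul, one_mul]
      by_cases h : i' = i
      · simp only [fP, hd, h, if_true, mul_ite, mul_zero, Finset.sum_ite_eq', Finset.mem_univ,
          ite_mul, zero_mul, mul_pow]
        calc _ = (∑ o, w o * ν o ^ 2) * v none ^ 2 := by
              rw [Finset.sum_mul]
              refine Finset.sum_congr rfl fun o _ => ?_
              ring
          _ ≤ _ := mul_le_mul_of_nonneg_right hκ (sq_nonneg _)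
      · simp only [fP, hd, h, if_false]
        exact (orth_sq w η horth v).le
  have s4 : ∑ x : K → Ω, (∏ i, w (x i)) * (psi η c D x ^ 2) ^ 2 ≤ F := by
    refine le_trans ?_ hF
    rw [← Finset.card_univ, ← Finset.prod_const,
      Fintype.prod_sum (fun (_ : K) o => w o * (∑ a, |η a o|) ^ 4)]
    refine Finset.sum_le_sum fun x _ => ?_
    rw [Finset.prod_mul_distrib, Finset.prod_pow]
    refine mul_le_mul_of_nonneg_left ?_ (Finset.prod_nonneg fun _ _ => hw _)
    have b1 : |psi η c D x| ≤ ∏ i, ∑ a, |η a (x i)| := by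
      rw [Fintype.prod_sum (fun (i : K) a => |η a (x i)|), psi]
      refine (Finset.abs_sum_le_sum_abs _ _).trans (Finset.sum_le_sum fun σ _ => ?_)
      rw [abs_mul, Finset.abs_prod]
      refine mul_le_of_le_one_left (Finset.prod_nonneg fun _ _ => abs_nonneg _) ?_
      simp only [cut]
      split_ifs <;> simp
    rw [← pow_mul, ← Even.pow_abs (by norm_num)]
    exact pow_le_pow_left₀ (abs_nonneg _) b1 _
  have s5 : ∑ i : K, ∑ x : K → Ω, (∏ i, w (x i)) * pen η ν c D i x ^ 2 ≤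
      Fintype.card K * (κ * (Z * ε)) := by
    calc _ ≤ ∑ i : K, κ * (Z * ε) := Finset.sum_le_sum fun i _ => s3 i
      _ = _ := by simp
  obtain ⟨a, ha⟩ : ∃ a, a = 1 / (2 * F) := ⟨_, rfl⟩
  have ha0 : 0 < a := by rw [ha]; positivity
  have haF : a * F = 1 / 2 := by rw [ha]; field_simp
  have e : ∑ x : K → Ω, (∏ i, w (x i)) * QQ a η ν c D x =
      2 * a * (∑ x : K → Ω, (∏ i, w (x i)) * psi η c D x ^ 2) -
      a ^ 2 * (∑ x : K → Ω, (∏ i, w (x i)) * (psi η c D x ^ 2) ^ 2) -
      2 * a * ∑ i : K, ∑ x : K → Ω, (∏ i, w (x i)) * pen η ν c D i x ^ 2 := by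
    rw [Finset.sum_comm, Finset.mul_sum, Finset.mul_sum, Finset.mul_sum, ← Finset.sum_sub_distrib,
      ← Finset.sum_sub_distrib]
    refine Finset.sum_congr rfl fun x _ => ?_
    rw [QQ, ← Finset.mul_sum]
    ring
  have e4 : 1 / (4 * F) = a / 2 := by rw [ha]; field_simp; norm_num
  rw [← ha, e, e4]
  have t1 : Z * (ε * (1 + Fintype.card K * κ)) ≤ Z * (1 / 2) :=
    mul_le_mul_of_nonneg_left hs (by linarith)
  have t2 := mul_le_mul_of_nonneg_left s2 ha0.le
  have t3 := mul_le_mul_of_nonneg_left s4 (sq_nonneg a)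
  have t4 := mul_le_mul_of_nonneg_left s5 ha0.le
  have t5 := mul_le_mul_of_nonneg_left t1 ha0.le
  have t6 := mul_le_mul_of_nonneg_left hZ1 ha0.le
  have t7 : a ^ 2 * F = a / 2 := by rw [sq, mul_assoc, haF]; ring
  nlinarith

section norms
variable {ι S : Type*} {Δ : ((ι → S) → ℝ) →ₗ[ℝ] ℝ} {q : ι → ℝ}

omit [DecidableEq J] in
theorem Mu_lab (hq : ∀ p, 1 ≤ q p) (c : Option J → ℝ) (D : ℝ) (hJ : 0 < Fintype.card J)
    (C : (K → Option J) → ℝ) (hC : ∀ σ, |C σ| ≤ cut c D σ)
    (f : K → Option J → (ι → S) → ℝ) (g : K → ℝ) (hg : ∀ i, 0 ≤ g i)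
    (hf : ∀ i a, Mu Δ q (f i a) (g i * (Real.exp (c a) * |ee a|))) :
    Mu Δ q (fun o => ∑ σ : K → Option J, C σ * ∏ i, f i (σ i) o)
      ((∏ i, g i) * (Real.exp D * 2 ^ Fintype.card K)) := by
  refine (Mu.sum univ _ (fun σ => |C σ| * ∏ i, (g i * (Real.exp (c (σ i)) * |ee (σ i)|)))
    fun σ _ => (Mu.const (C σ)).mul (Mu.prod univ _ _ fun i _ => hf i (σ i))).mono hq ?_
  have hJ' : (0 : ℝ) < Fintype.card J := by exact_mod_cast hJ
  have e1 : ∑ a : Option J, |ee a| = 2 := by
    rw [Fintype.sum_option]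
    simp only [ee, abs_one, abs_neg, Finset.sum_const, Finset.card_univ, nsmul_eq_mul]
    rw [abs_of_pos (by positivity)]
    field_simp
    norm_num
  have e2 : (2 : ℝ) ^ Fintype.card K = ∑ σ : K → Option J, ∏ i, |ee (σ i)| := by
    rw [← Fintype.prod_sum (fun (_ : K) (a : Option J) => |ee a|)]
    simp [e1]
  rw [e2, Finset.mul_sum, Finset.mul_sum]
  refine Finset.sum_le_sum fun σ _ => ?_
  rw [Finset.prod_mul_distrib, Finset.prod_mul_distrib, ← Real.exp_sum, mul_left_comm, ← mul_assoc]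
  rw [mul_assoc, ← mul_assoc (|C σ|)]
  refine mul_le_mul_of_nonneg_left ?_ (Finset.prod_nonneg fun i _ => hg i)
  refine mul_le_mul_of_nonneg_right ?_ (Finset.prod_nonneg fun i _ => abs_nonneg _)
  have := hC σ
  rw [cut] at this
  split_ifs at this with h
  · calc _ ≤ 1 * Real.exp (∑ i, c (σ i)) :=
          mul_le_mul_of_nonneg_right this (Real.exp_pos _).le
      _ ≤ _ := by
          rw [one_mul]
          exact Real.exp_le_exp.2 h
  · rw [le_antisymm this (abs_nonneg _), zero_mul]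
    exact (Real.exp_pos _).le

theorem Mu_QQ (hq : ∀ p, 1 ≤ q p) (φ : (ι → S) → K → Ω) (a : ℝ) (ha : 0 ≤ a) (ha1 : a ≤ 1 / 2)
    (η : Option J → Ω → ℝ) (ν : Ω → ℝ) (c : Option J → ℝ) (D T : ℝ)
    (h0 : c none = 0) (hc : ∀ a, 0 ≤ c a) (hT : ∀ a, c a ≤ T) (hTD : T ≤ D) (hD : 1 ≤ D)
    (hJ : 0 < Fintype.card J) (hk : (Fintype.card K : ℝ) ≤ D)
    (hη : ∀ i a, Mu Δ q (fun o => η a (φ o i)) (Real.exp (c a) * |ee a|))
    (hν : ∀ i, Mu Δ q (fun o => ν (φ o i)) (Real.exp T)) :
    Mu Δ q (fun o => QQ a η ν c D (φ o)) (Real.exp (13 * D)) := by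
  have hT0 : 0 ≤ T := (hc none).trans (hT none)
  have b0 : (2 : ℝ) ^ Fintype.card K ≤ Real.exp D := by
    calc (2 : ℝ) ^ Fintype.card K ≤ Real.exp 1 ^ Fintype.card K :=
          pow_le_pow_left₀ (by norm_num) (by linarith [Real.add_one_le_exp 1]) _
      _ ≤ _ := by
          rw [Real.exp_one_pow]
          exact Real.exp_le_exp.2 hk
  have b1 : ∀ t, t ≤ Real.exp D → t * (Real.exp D * 2 ^ Fintype.card K) ≤ Real.exp (3 * D) := by
    intro t ht
    rw [show 3 * D = D + (D + D) by ring, Real.exp_add, Real.exp_add]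
    gcongr
  have m1 : Mu Δ q (fun o => psi η c D (φ o)) (Real.exp (3 * D)) := by
    refine (Mu_lab hq c D hJ (cut c D) (fun σ => ?_) (fun i a o => η a (φ o i)) (fun _ => 1)
      (fun _ => zero_le_one) (fun i a => by rw [one_mul]; exact hη i a)).mono hq (b1 _ ?_)
    · rw [cut]
      split_ifs <;> simp
    · rw [Finset.prod_const_one]
      exact Real.one_le_exp (by linarith)
  have m2 : ∀ i, Mu Δ q (fun o => pen η ν c D i (φ o)) (Real.exp (3 * D)) := by
    intro i
    refine (Mu_lab hq c D hJ (Bk c D i) (fun σ => ?_) (fun i' a o => fP η ν i i' a (φ o i'))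
      (fun i' => if i' = i then Real.exp T else 1)
      (fun _ => by split_ifs <;> positivity) (fun i' a => ?_)).mono hq (b1 _ ?_)
    · refine (Bk_le c D T h0 hc hT hJ i σ).trans ?_
      rw [cut]
      split_ifs with h1 h2
      · exact le_rfl
      · exact absurd h1.2 h2
      · norm_num
      · exact le_rfl
    · by_cases h : i' = i
      · cases a with
        | none =>
          simp only [fP, h, if_true, h0, ee, Real.exp_zero, abs_one, mul_one]
          exact hν i
        | some j =>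
          simp only [fP, h, if_true, reduceCtorEq, if_false]
          exact (Mu.const 0).mono hq (by rw [abs_zero]; positivity)
      · simp only [fP, h, if_false, one_mul]
        exact hη i' a
    · rw [Finset.prod_ite_eq']
      simpa using hTD
  have m3 := (((Mu.const (2 * a)).mul m1.sq).sub ((Mu.const (a ^ 2)).mul m1.sq.sq)).sub
    ((Mu.const (2 * a)).mul (Mu.sum univ _ _ fun i _ => (m2 i).sq))
  refine m3.mono hq ?_
  rw [abs_of_nonneg (by linarith), abs_of_nonneg (sq_nonneg a), Finset.sum_const, Finset.card_univ,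
    nsmul_eq_mul, show 13 * D = D + 12 * D by ring, Real.exp_add]
  have e1 : Real.exp (12 * D) = (Real.exp (3 * D) ^ 2) ^ 2 := by
    rw [← Real.exp_nat_mul, ← Real.exp_nat_mul]
    congr 1
    push_cast
    ring
  rw [e1]
  have c0 : 2 * D + 1 ≤ Real.exp (3 * D) := by linarith [Real.add_one_le_exp (3 * D)]
  have c1 : 2 * D + 1 ≤ Real.exp (3 * D) ^ 2 := c0.trans (le_self_pow₀ (by linarith) (by norm_num))
  obtain ⟨y, hy⟩ : ∃ y, y = Real.exp (3 * D) ^ 2 := ⟨_, rfl⟩
  rw [← hy] at c1 ⊢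
  have c2 : 2 ≤ Real.exp D := by linarith [Real.add_one_le_exp D]
  have c3 : a ^ 2 ≤ 1 := pow_le_one₀ ha (by linarith)
  have c4 : (0 : ℝ) ≤ Fintype.card K := Nat.cast_nonneg _
  have hy0 : 0 ≤ y := by linarith
  have d1 : 2 * a * y ≤ y := mul_le_of_le_one_left hy0 (by linarith)
  have d2 : a ^ 2 * y ^ 2 ≤ y ^ 2 := mul_le_of_le_one_left (sq_nonneg _) c3
  have d3 : 2 * a * (Fintype.card K * y) ≤ D * y :=
    (mul_le_of_le_one_left (mul_nonneg c4 hy0) (by linarith)).trans
      (mul_le_mul_of_nonneg_right hk hy0)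
  have d4 : (2 * D + 1) * y ≤ y * y := mul_le_mul_of_nonneg_right c1 hy0
  have d5 : 2 * y ^ 2 ≤ Real.exp D * y ^ 2 := mul_le_mul_of_nonneg_right c2 (sq_nonneg _)
  nlinarith

end norms

end Pool.Agent.MP_fdd1d3_nt.PD
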