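import Mathlib
import Pool.Agent.MP_fdd1d3_nt.PD2
import Pool.Agent.MP_fdd1d3_nt.PD3

set_option autoImplicit false

open Finset

namespace Pool.Agent.MP_fdd1d3_nt.PD

variable {ι K : Type*} [Fintype ι] [DecidableEq ι] [Fintype K] [DecidableEq K]

/-- the pieces on the top blocks -/
noncomputable def VV (r : ι → ℝ) (b : ι → ℕ) (Λ : ℕ) {J : ℕ} : Option (Fin J) → (ι → Bool) → ℝ
  | none, _ => 1
  | some j, x => uu r b (Λ - 1 - j) x

/-- the costs -/
noncomputable def cV (U : ℝ) (Λ : ℕ) {J : ℕ} : Option (Fin J) → ℝ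
  | none => 0
  | some j => 6 * (U * 4 ^ (Λ - 1 - j))

theorem C5_pos : 0 < C5 := Real.exp_pos _

theorem model_EQ {r : ι → ℝ} (h0 : ∀ p, 0 ≤ r p) (h1 : ∀ p, r p ≤ 1) (b : ι → ℕ) (Λ J : ℕ)
    (hJ : 0 < J) (hJΛ : J ≤ Λ) (U D F : ℝ) (hU : 1 ≤ U)
    (hm1 : ∀ l < Λ, 1 ≤ mu r b l) (hm2 : ∀ l < Λ, mu r b l ≤ 2)
    (hM : ∀ l ≤ Λ, l * Real.log 4 ≤ ∑ l' ∈ range l, mu r b l')
    (hs : Real.exp ((2 * (6 * C5 * U / J) * Fintype.card K - (D - 6 * (U * 4 ^ Λ))) /
      (6 * (U * 4 ^ Λ))) * (1 + Fintype.card K * (C5 * (1 / 4) ^ Λ)) ≤ 1 / 2)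
    (hF : Real.exp (Fintype.card K * (15 * (J * (C5 * (4 ^ J * (1 / 4) ^ Λ))))) ≤ F) :
    1 / (4 * F) ≤ ∑ x : K → ι → Bool, (∏ i, W r (x i)) *
      QQ (1 / (2 * F)) (fun (a : Option (Fin J)) x => ee a * VV r b Λ a x) (pp b Λ) (cV U Λ) D x := by
  have hJ' : (0 : ℝ) < J := by exact_mod_cast hJ
  have hl : ∀ j : Fin J, Λ - 1 - j < Λ := fun j => by omega
  have hC := C5_pos
  have hy : ∀ j : Fin J, Ex r (yy b (Λ - 1 - j)) ≤ C5 * (1 / 4) ^ (Λ - 1 - j) := fun j =>
    Ex_yy h0 h1 b _ (fun l' hl' => hm2 l' (hl'.trans_lt (hl j))) (hM _ (hl j).le)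
  refine EQ_lower (W r) (W_nonneg h0 h1) (sum_W r) _ (pp b Λ) (cV U Λ) D (6 * (U * 4 ^ Λ))
    (6 * C5 * U / J) (C5 * (1 / 4) ^ Λ) F (fun o => by simp [ee, VV]) ?_ rfl ?_ ?_ (by positivity)
    (by simpa using hJ) ?_ ?_ (le_trans ?_ hF) (lt_of_lt_of_le (Real.exp_pos _) hF) hs
  · intro a a' ha
    have e : ∑ o, W r o * (ee a * VV r b Λ a o * (ee a' * VV r b Λ a' o)) =
        ee a * ee a' * Ex r (fun o => VV r b Λ a o * VV r b Λ a' o) := by
      rw [Ex, Finset.mul_sum]
      refine Finset.sum_congr rfl fun o _ => ?_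
      ring
    rw [e]
    refine mul_eq_zero_of_right _ ?_
    have hne : ∀ j : Fin J, mu r b (Λ - 1 - j) ≠ 0 := fun j => by linarith [hm1 _ (hl j)]
    cases a with
    | none =>
      cases a' with
      | none => exact absurd rfl ha
      | some j =>
        simp only [VV, one_mul]
        exact Ex_uu r b _ (hne j)
    | some j =>
      cases a' with
      | none =>
        simp only [VV, mul_one]
        exact Ex_uu r b _ (hne j)
      | some j' =>
        have hjj : (j : ℕ) ≠ j' := fun h => ha (by rw [Fin.ext h])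
        have := j.2
        have := j'.2
        simp only [VV]
        rcases lt_or_gt_of_ne hjj with h | h
        · simp only [mul_comm (uu r b (Λ - 1 - j) _)]
          exact Ex_uu_uu r b _ _ (by omega) (hne j)
        · exact Ex_uu_uu r b _ _ (by omega) (hne j')
  · intro a
    cases a with
    | none => exact le_rfl
    | some j => simp only [cV]; positivity
  · intro a
    cases a with
    | none => simp only [cV]; positivity
    | some j =>
      simp only [cV]
      have : (4 : ℝ) ^ (Λ - 1 - j) ≤ 4 ^ Λ := pow_le_pow_right₀ (by norm_num) (hl j).le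
      gcongr
  · rw [Fintype.sum_option]
    simp only [cV, mul_zero, zero_add, ee, VV, Fintype.card_fin]
    calc _ ≤ ∑ j : Fin J, 6 * C5 * U / J / J := by
          refine Finset.sum_le_sum fun j _ => ?_
          have a1 : ∑ o, W r o * (-(1 / (J : ℝ)) * uu r b (Λ - 1 - j) o) ^ 2 =
              (1 / (J : ℝ)) ^ 2 * Ex r (fun o => |uu r b (Λ - 1 - j) o| ^ 2) := by
            rw [Ex, Finset.mul_sum]
            refine Finset.sum_congr rfl fun o _ => ?_
            rw [sq_abs]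
            ring
          have a2 := (Ex_mono h0 h1 fun o => uu_le r b _ (hm1 _ (hl j)) o 2 (by norm_num)
            (by norm_num)).trans (hy j)
          have a3 : (1 / 4 : ℝ) ^ (Λ - 1 - j) * 4 ^ (Λ - 1 - j) = 1 := by
            rw [← mul_pow]
            norm_num
          rw [a1]
          calc _ ≤ (1 / (J : ℝ)) ^ 2 * (C5 * (1 / 4) ^ (Λ - 1 - j)) * (6 * (U * 4 ^ (Λ - 1 - j))) := by
                gcongr
            _ = (1 / (J : ℝ)) ^ 2 * C5 * 6 * U * ((1 / 4) ^ (Λ - 1 - j) * 4 ^ (Λ - 1 - j)) := by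
                ring
            _ = _ := by
                rw [a3]
                field_simp
      _ = _ := by
          simp only [Finset.sum_const, Finset.card_univ, Fintype.card_fin, nsmul_eq_mul]
          field_simp
  · have := (Ex_mono h0 h1 fun o => pp_le b Λ o 2 (by norm_num) (by norm_num)).trans
      (Ex_yp' h0 h1 b Λ hm2 (hM Λ le_rfl))
    simpa only [sq_abs, Ex] using this
  · rw [Real.exp_nat_mul]
    refine pow_le_pow_left₀ (Finset.sum_nonneg fun o _ =>
      mul_nonneg (W_nonneg h0 h1 o) (by positivity)) ?_ _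
    have a1 : ∀ o, (∑ a : Option (Fin J), |ee a * VV r b Λ a o|) ^ 4 ≤
        1 + 15 * ∑ j : Fin J, yy b (Λ - 1 - j) o := by
      intro o
      obtain ⟨j, _, hj⟩ := Finset.exists_max_image (univ : Finset (Fin J))
        (fun j => |uu r b (Λ - 1 - j) o|) ⟨⟨0, hJ⟩, Finset.mem_univ _⟩
      have b1 : ∑ a : Option (Fin J), |ee a * VV r b Λ a o| ≤ 1 + |uu r b (Λ - 1 - j) o| := by
        rw [Fintype.sum_option]
        simp only [ee, VV, mul_one, abs_one, abs_mul, abs_neg, Fintype.card_fin]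
        rw [abs_of_pos (by positivity)]
        refine add_le_add le_rfl ?_
        calc _ ≤ ∑ j' : Fin J, 1 / (J : ℝ) * |uu r b (Λ - 1 - j) o| :=
              Finset.sum_le_sum fun j' _ =>
                mul_le_mul_of_nonneg_left (hj j' (Finset.mem_univ _)) (by positivity)
          _ = _ := by
              simp only [Finset.sum_const, Finset.card_univ, Fintype.card_fin, nsmul_eq_mul]
              field_simp
      have b2 : yy b (Λ - 1 - j) o ≤ ∑ j : Fin J, yy b (Λ - 1 - j) o :=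
        Finset.single_le_sum (f := fun j : Fin J => yy b (Λ - 1 - j) o)
          (fun j _ => yy_nonneg _ _ _) (Finset.mem_univ j)
      have b3 := fun m => uu_le r b _ (hm1 _ (hl j)) o m
      have c1 := b3 1 (by norm_num) (by norm_num)
      have c2 := b3 2 (by norm_num) (by norm_num)
      have c3 := b3 3 (by norm_num) (by norm_num)
      have c4 := b3 4 (by norm_num) (by norm_num)
      calc _ ≤ (1 + |uu r b (Λ - 1 - j) o|) ^ 4 :=
            pow_le_pow_left₀ (Finset.sum_nonneg fun _ _ => abs_nonneg _) b1 4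
        _ = 1 + 4 * |uu r b (Λ - 1 - j) o| ^ 1 + 6 * |uu r b (Λ - 1 - j) o| ^ 2 +
            4 * |uu r b (Λ - 1 - j) o| ^ 3 + |uu r b (Λ - 1 - j) o| ^ 4 := by ring
        _ ≤ _ := by linarith
    have a2 : ∑ o, W r o * (1 + 15 * ∑ j : Fin J, yy b (Λ - 1 - j) o) =
        1 + 15 * ∑ j : Fin J, Ex r (yy b (Λ - 1 - j)) := by
      simp only [mul_add, mul_one, Finset.sum_add_distrib, sum_W, Ex, Finset.mul_sum]
      rw [Finset.sum_comm]
      congr 1
      refine Finset.sum_congr rfl fun j _ => Finset.sum_congr rfl fun o _ => ?_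
      ring
    have a3 : ∑ j : Fin J, Ex r (yy b (Λ - 1 - j)) ≤ J * (C5 * (4 ^ J * (1 / 4) ^ Λ)) := by
      calc _ ≤ ∑ j : Fin J, C5 * (4 ^ J * (1 / 4) ^ Λ) := by
            refine Finset.sum_le_sum fun j _ => (hy j).trans ?_
            refine mul_le_mul_of_nonneg_left ?_ hC.le
            have := j.2
            have e : (1 / 4 : ℝ) ^ (Λ - 1 - j) = 4 ^ ((j : ℕ) + 1) * (1 / 4) ^ Λ := by
              conv_rhs => rw [show Λ = (j + 1) + (Λ - 1 - j) by omega]
              rw [pow_add (1 / 4 : ℝ), ← mul_assoc, ← mul_pow]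
              norm_num
            rw [e]
            exact mul_le_mul_of_nonneg_right (pow_le_pow_right₀ (by norm_num) (by omega))
              (by positivity)
        _ = _ := by simp
    calc _ ≤ ∑ o, W r o * (1 + 15 * ∑ j : Fin J, yy b (Λ - 1 - j) o) :=
          Finset.sum_le_sum fun o _ => mul_le_mul_of_nonneg_left (a1 o) (W_nonneg h0 h1 o)
      _ ≤ 15 * (J * (C5 * (4 ^ J * (1 / 4) ^ Λ))) + 1 := by rw [a2]; linarith
      _ ≤ _ := Real.add_one_le_exp _

open Classical in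
theorem core_abs (q : ι → ℕ) (hq : ∀ p, 0 < q p)
    (hcop : ∀ p p', p ≠ p' → Nat.Coprime (q p) (q p')) (ω : ι → ℕ → Option K)
    (hper : ∀ p, Function.Periodic (ω p) (q p))
    (hω : ∀ p i, ((range (q p)).filter (fun t => ω p t = some i)).card = 1)
    {r : ι → ℝ} (h0 : ∀ p, 0 ≤ r p) (h1 : ∀ p, r p ≤ 1)
    (hr : ∀ p, r p * (q p - Fintype.card K) = 1) (hkr : ∀ p, Fintype.card K * r p ≤ 1)
    (b : ι → ℕ) (Λ J : ℕ) (hJ : 0 < J) (hJΛ : J ≤ Λ) (U D F : ℝ) (hU : 1 ≤ U)
    (hm1 : ∀ l < Λ, 1 ≤ mu r b l) (hm2 : ∀ l < Λ, mu r b l ≤ 2)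
    (hM : ∀ l ≤ Λ, l * Real.log 4 ≤ ∑ l' ∈ range l, mu r b l')
    (hE : ∀ l < Λ, ∑ p, (if b p = l then (q p : ℝ) else 0) ≤ Real.exp (2 * (U * 4 ^ l)))
    (hTD : 6 * (U * 4 ^ Λ) ≤ D) (hk : (Fintype.card K : ℝ) ≤ D)
    (hs : Real.exp ((2 * (6 * C5 * U / J) * Fintype.card K - (D - 6 * (U * 4 ^ Λ))) /
      (6 * (U * 4 ^ Λ))) * (1 + Fintype.card K * (C5 * (1 / 4) ^ Λ)) ≤ 1 / 2)
    (hF : Real.exp (Fintype.card K * (15 * (J * (C5 * (4 ^ J * (1 / 4) ^ Λ))))) ≤ F)
    (hε : ∑ p, (Fintype.card K * r p) ^ 2 ≤ 1 / (8 * F)) (a N : ℕ) :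
    N / (8 * F) - 2 * Real.exp (13 * D) ≤
      ((range N).filter (fun t => ∀ i, ∃ p, ω p (a + t) = some i)).card := by
  have hC := C5_pos
  have hF1 : 1 ≤ F := le_trans (Real.one_le_exp (by positivity)) hF
  have hq1 : ∀ p, (1 : ℝ) ≤ q p := fun p => by exact_mod_cast hq p
  have hl : ∀ j : Fin J, Λ - 1 - j < Λ := fun j => by omega
  have hΛ : (1 : ℝ) ≤ U * 4 ^ Λ := one_le_mul_of_one_le_of_one_le hU (one_le_pow₀ (by norm_num))
  have ha : (0 : ℝ) ≤ 1 / (2 * F) := by positivity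
  obtain ⟨Q, hQ⟩ : ∃ Q : (K → ι → Bool) → ℝ, Q = QQ (1 / (2 * F))
    (fun (a : Option (Fin J)) x => ee a * VV r b Λ a x) (pp b Λ) (cV U Λ) D := ⟨_, rfl⟩
  have m1 : 1 / (4 * F) ≤ ∑ x : K → ι → Bool, (∏ i, W r (x i)) * Q x := by
    rw [hQ]
    exact model_EQ h0 h1 b Λ J hJ hJΛ U D F hU hm1 hm2 hM hs hF
  have m2 : ∀ x, Q x ≤ 1 := fun x => by rw [hQ]; exact QQ_le_one _ ha _ _ _ _ x
  have m3 : ∀ x i, x i = (fun _ => false) → Q x ≤ 0 := by
    intro x i hx
    rw [hQ]
    refine QQ_le_zero _ ha _ _ _ _ x i (fun a => ?_) (by rw [hx, pp_zero])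
    rw [hx]
    cases a <;> simp [VV, uu_zero]
  have m4 : Mu (disc q ω a N) (fun p => (q p : ℝ)) (fun o => Q (emb o)) (Real.exp (13 * D)) := by
    rw [hQ]
    refine Mu_QQ hq1 emb _ ha ?_ _ _ _ D (6 * (U * 4 ^ Λ)) rfl ?_ ?_ hTD (by linarith)
      (by simpa using hJ) hk ?_ ?_
    · exact one_div_le_one_div_of_le (by norm_num) (by linarith)
    · intro a
      cases a with
      | none => exact le_rfl
      | some j => simp only [cV]; positivity
    · intro a
      cases a with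
      | none => simp only [cV]; positivity
      | some j =>
        simp only [cV]
        have : (4 : ℝ) ^ (Λ - 1 - j) ≤ 4 ^ Λ := pow_le_pow_right₀ (by norm_num) (hl j).le
        gcongr
    · intro i a
      rw [mul_comm (Real.exp _)]
      refine (Mu.const (ee a)).mul ?_
      cases a with
      | none => simpa [VV, cV] using (Mu.const (Δ := disc q ω a N) (q := fun p => (q p : ℝ)) 1)
      | some j =>
        exact Mu_uu hq1 r b _ i U hU (hm1 _ (hl j)) fun l' hl' => hE l' (hl'.trans_lt (hl j))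
    · intro i
      exact (Mu_pp hq1 b Λ i U hU hE).mono hq1 (Real.exp_le_exp.2 (by linarith))
  have m5 := (m4 _ _ (lev_one q hq hcop ω hper hω a N)).abs_le
  simp only [mul_one, disc, LinearMap.coe_mk, AddHom.coe_mk] at m5
  have m6 := model_cmp (fun p => (q p : ℝ)) r (fun p => by linarith [hq1 p]) h0 h1 hr hkr
    (fun x => 1 - Q x) (fun x => sub_nonneg.2 (m2 x))
  have t1 : ∑ x : K → ι → Bool, ∏ i, W r (x i) = 1 := by
    rw [← Fintype.prod_sum (fun (_ : K) x => W r x)]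
    simp [sum_W]
  have t2 : ∑ o : ι → Option K, ∏ p, wt (q p : ℝ) (o p) = 1 := by
    rw [← Fintype.prod_sum (fun p (o : Option K) => wt (q p : ℝ) o)]
    refine Finset.prod_eq_one fun p _ => ?_
    rw [Fintype.sum_option]
    simp only [wt, Finset.sum_const, Finset.card_univ, nsmul_eq_mul]
    ring
  have m7 : 0 ≤ ∑ o : ι → Option K, (∏ p, wt (q p : ℝ) (o p)) * (1 - Q (emb o)) := by
    refine Finset.sum_nonneg fun o _ => mul_nonneg (Finset.prod_nonneg fun p _ => ?_)
      (sub_nonneg.2 (m2 _))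
    have hkq : (Fintype.card K : ℝ) ≤ q p := by
      by_contra h
      have := mul_nonneg (h0 p) (sub_nonneg.2 (not_le.1 h).le)
      nlinarith [hr p]
    cases o p with
    | none =>
      simp only [wt, sub_nonneg]
      exact (div_le_one (by linarith [hq1 p])).2 hkq
    | some i => simp only [wt]; positivity
  simp only [mul_sub, mul_one, Finset.sum_sub_distrib, t1, t2] at m6 m7
  obtain ⟨e, he⟩ : ∃ e, e = ∑ o : ι → Option K, (∏ p, wt (q p : ℝ) (o p)) * Q (emb o) := ⟨_, rfl⟩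
  rw [← he] at m5 m6 m7
  obtain ⟨ε, hε'⟩ : ∃ ε, ε = 1 / (8 * F) := ⟨_, rfl⟩
  have hε0 : 0 < ε := by rw [hε']; positivity
  have hε2 : 1 / (4 * F) = 2 * ε := by rw [hε']; field_simp; norm_num
  rw [← hε'] at hε
  rw [hε2] at m1
  have m8 : ε ≤ e := by
    have s1 := mul_le_mul_of_nonneg_right hε m7
    have s2 : ε ≤ e * (1 - ε) := by nlinarith
    by_contra h
    have h := not_le.1 h
    rcases le_or_gt e 0 with h3 | h3
    · have : ε ≤ 1 / 8 := by
        rw [hε']
        exact one_div_le_one_div_of_le (by norm_num) (by linarith)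
      nlinarith
    · nlinarith
  have m9 : ∑ t ∈ range N, Q (emb fun p => ω p (a + t)) ≤
      ((range N).filter (fun t => ∀ i, ∃ p, ω p (a + t) = some i)).card := by
    rw [Finset.card_filter, Nat.cast_sum]
    refine Finset.sum_le_sum fun t _ => ?_
    split_ifs with h
    · simpa using m2 _
    · push Not at h
      obtain ⟨i, hi⟩ := h
      simpa using m3 _ i (by funext p; simp [emb, hi p])
  have e3 : (N : ℝ) / (8 * F) = N * ε := by rw [hε']; ring
  have m10 := mul_le_mul_of_nonneg_left m8 (Nat.cast_nonneg (α := ℝ) N)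
  rw [abs_le] at m5
  linarith [m5.1]

end Pool.Agent.MP_fdd1d3_nt.PD
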