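import Mathlib
import Pool.Agent.MP_fdd1d3_nt.Mertens
import Pool.Agent.MP_fdd1d3_nt.PD4

set_option autoImplicit false

open Finset

namespace Pool.Agent.MP_fdd1d3_nt.PD

section blocks
variable {ι : Type*} [Fintype ι] [DecidableEq ι]

/-- cumulative mass -/
def cum (q : ι → ℕ) (r : ι → ℝ) (p : ι) : ℝ := ∑ p', if q p' < q p then r p' else 0

/-- block index -/
noncomputable def blk (q : ι → ℕ) (r : ι → ℝ) (p : ι) : ℕ := ⌊cum q r p / Real.log 4⌋₊

omit [DecidableEq ι] in
theorem sum_mu (r : ι → ℝ) (b : ι → ℕ) (l : ℕ) :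
    ∑ l' ∈ range l, mu r b l' = ∑ p, if b p < l then r p else 0 := by
  simp only [mu]
  rw [Finset.sum_comm]
  refine Finset.sum_congr rfl fun p _ => ?_
  simp

theorem log4_pos : 0 < Real.log 4 := Real.log_pos (by norm_num)

omit [DecidableEq ι] in
theorem cum_lt (q : ι → ℕ) (r : ι → ℝ) (h0 : ∀ p, 0 ≤ r p) (p : ι) (l : ℕ) :
    blk q r p < l ↔ cum q r p < l * Real.log 4 := by
  have : 0 ≤ cum q r p := Finset.sum_nonneg fun p' _ => by
    split_ifs
    · exact h0 p'
    · exact le_rfl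
  rw [blk, Nat.floor_lt (div_nonneg this log4_pos.le), div_lt_iff₀ log4_pos]

theorem blk_upper (q : ι → ℕ) (hq : Function.Injective q) (r : ι → ℝ) (η : ℝ) (hη0 : 0 ≤ η)
    (h0 : ∀ p, 0 ≤ r p) (hη : ∀ p, r p ≤ η) (l : ℕ) :
    ∑ l' ∈ range l, mu r (blk q r) l' ≤ l * Real.log 4 + η := by
  rw [sum_mu]
  by_cases h : (univ.filter (fun p => blk q r p < l)).Nonempty
  · obtain ⟨p0, hp0, hmax⟩ := Finset.exists_max_image _ q h
    have a1 := (cum_lt q r h0 p0 l).1 (Finset.mem_filter.1 hp0).2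
    calc _ ≤ ∑ p, ((if q p < q p0 then r p else 0) + if p = p0 then r p else 0) := by
          refine Finset.sum_le_sum fun p _ => ?_
          have := h0 p
          by_cases hp : blk q r p < l
          · have a2 := hmax p (Finset.mem_filter.2 ⟨Finset.mem_univ _, hp⟩)
            rw [if_pos hp]
            rcases a2.lt_or_eq with a3 | a3
            · rw [if_pos a3]
              split_ifs <;> linarith
            · rw [if_pos (hq a3)]
              split_ifs <;> linarith
          · rw [if_neg hp]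
            split_ifs <;> linarith
      _ = cum q r p0 + r p0 := by
          rw [Finset.sum_add_distrib, Finset.sum_ite_eq']
          simp [cum]
      _ ≤ _ := by linarith [hη p0]
  · rw [Finset.not_nonempty_iff_eq_empty] at h
    rw [← Finset.sum_filter, h, Finset.sum_empty]
    have := log4_pos
    positivity

omit [DecidableEq ι] in
theorem blk_lower (q : ι → ℕ) (r : ι → ℝ) (h0 : ∀ p, 0 ≤ r p) (l : ℕ)
    (htot : l * Real.log 4 ≤ ∑ p, r p) :
    l * Real.log 4 ≤ ∑ l' ∈ range l, mu r (blk q r) l' := by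
  rw [sum_mu]
  by_cases h : (univ.filter (fun p => ¬ blk q r p < l)).Nonempty
  · obtain ⟨p0, hp0, hmin⟩ := Finset.exists_min_image _ q h
    have a1 := (Finset.mem_filter.1 hp0).2
    rw [cum_lt q r h0, not_lt] at a1
    refine a1.trans (Finset.sum_le_sum fun p _ => ?_)
    have := h0 p
    by_cases hp : blk q r p < l
    · rw [if_pos hp]
      split_ifs <;> linarith
    · have a2 := hmin p (Finset.mem_filter.2 ⟨Finset.mem_univ _, hp⟩)
      rw [if_neg hp, if_neg (by omega)]
  · refine htot.trans (Finset.sum_le_sum fun p _ => ?_)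
    rw [if_pos]
    by_contra hp
    exact h ⟨p, Finset.mem_filter.2 ⟨Finset.mem_univ _, hp⟩⟩

end blocks

theorem mert (w M : ℕ) (hw : 2 ≤ w) :
    Real.log (M + 1) ≤ 30 * Real.log w * Real.exp (∑ p ∈ PP w M, 1 / (p : ℝ)) := by
  refine (mertens_c w M M hw le_rfl).trans (mul_le_mul_of_nonneg_left ?_ (by positivity))
  have e1 : ∀ s : Finset ℕ, 1 / nn (fun p => p) s = ∏ p ∈ s, 1 / (p : ℝ) := by
    intro s
    simp [nn, Finset.prod_inv_distrib]
  simp only [e1]
  calc _ ≤ ∑ s ∈ (PP w M).powerset, ∏ p ∈ s, 1 / (p : ℝ) :=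
        Finset.sum_le_sum_of_subset_of_nonneg (Finset.filter_subset _ _) fun s _ _ =>
          Finset.prod_nonneg fun p _ => by positivity
    _ = ∏ p ∈ PP w M, (1 + 1 / (p : ℝ)) := (Finset.prod_one_add _).symm
    _ ≤ _ := Real.prod_one_add_le_exp_sum _ fun p => by positivity

theorem num_s (H : ℝ) (hH : 0 ≤ H) :
    Real.exp (1 - 48 * (1 + H) / 2) * (1 + H * (48 * (1 + H))) ≤ 1 / 2 := by
  obtain ⟨M, hM⟩ : ∃ M, M = 24 * (1 + H) := ⟨_, rfl⟩
  have e1 : 48 * (1 + H) = 2 * M := by rw [hM]; ring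
  have a1 := Real.pow_div_factorial_le_exp M (by rw [hM]; positivity) 2
  norm_num [Nat.factorial] at a1
  have a2 : Real.exp 1 ≤ 3 := by linarith [Real.exp_one_lt_d9]
  rw [e1, show 2 * M / 2 = M by ring, Real.exp_sub, div_mul_eq_mul_div,
    div_le_iff₀ (Real.exp_pos M)]
  have a3 : 0 ≤ 1 + H * (2 * M) := by rw [hM]; positivity
  have a4 := mul_le_mul_of_nonneg_right a2 a3
  have a5 : 3 * (1 + H * (2 * M)) ≤ M ^ 2 / 4 := by
    rw [hM]
    nlinarith
  linarith

theorem num_F (H : ℝ) (hH : 1 ≤ H) :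
    16 * Real.exp (15 * ((⌈H⌉₊ : ℝ) * (4 ^ ⌈H⌉₊ * (H * (48 * (1 + H)))))) ≤
      Real.exp (Real.exp (16 * H)) := by
  have a1 : (⌈H⌉₊ : ℝ) ≤ 2 * H := by linarith [Nat.ceil_lt_add_one (show 0 ≤ H by linarith)]
  have a2 : (4 : ℝ) ^ ⌈H⌉₊ ≤ Real.exp (4 * H) := by
    calc (4 : ℝ) ^ ⌈H⌉₊ ≤ Real.exp 2 ^ ⌈H⌉₊ := by
          refine pow_le_pow_left₀ (by norm_num) ?_ _
          have := Real.add_one_le_exp 1
          rw [show (2 : ℝ) = 1 + 1 by norm_num, Real.exp_add]
          nlinarith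
      _ ≤ _ := by
          rw [← Real.exp_nat_mul]
          exact Real.exp_le_exp.2 (by linarith)
  have a4 : 2880 * H ^ 3 ≤ Real.exp (11 * H) := by
    have b1 := Real.pow_div_factorial_le_exp (11 * H) (by linarith) 7
    norm_num [Nat.factorial] at b1
    have b2 : H ^ 3 ≤ H ^ 7 := pow_le_pow_right₀ hH (by norm_num)
    have b3 : (11 * H) ^ 7 = 19487171 * H ^ 7 := by ring
    have b4 : 0 ≤ H ^ 7 := by positivity
    linarith
  have a5 : 15 * ((⌈H⌉₊ : ℝ) * (4 ^ ⌈H⌉₊ * (H * (48 * (1 + H))))) ≤ Real.exp (15 * H) := by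
    calc _ ≤ 15 * ((2 * H) * (Real.exp (4 * H) * (H * (48 * (H + H))))) := by gcongr
      _ = Real.exp (4 * H) * (2880 * H ^ 3) := by ring
      _ ≤ Real.exp (4 * H) * Real.exp (11 * H) := by gcongr
      _ = _ := by rw [← Real.exp_add]; congr 1; ring
  have a6 : 16 ≤ Real.exp (15 * H) := by linarith [Real.add_one_le_exp (15 * H)]
  have a7 : 2 * Real.exp (15 * H) ≤ Real.exp (16 * H) := by
    rw [show 16 * H = H + 15 * H by ring, Real.exp_add]
    exact mul_le_mul_of_nonneg_right (by linarith [Real.add_one_le_exp H]) (Real.exp_pos _).le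
  calc _ ≤ Real.exp (Real.exp (15 * H)) * Real.exp (Real.exp (15 * H)) := by
        refine mul_le_mul ?_ (Real.exp_le_exp.2 a5) (Real.exp_pos _).le (Real.exp_pos _).le
        linarith [Real.add_one_le_exp (Real.exp (15 * H))]
    _ ≤ _ := by
        rw [← Real.exp_add]
        exact Real.exp_le_exp.2 (by linarith)

theorem num_M (H : ℝ) (hH : 960 ≤ H) :
    720 * (48 * (1 + H)) * 4 ^ ⌈H⌉₊ ≤ Real.exp (16 * H) := by
  have a1 : (⌈H⌉₊ : ℝ) ≤ 2 * H := by linarith [Nat.ceil_lt_add_one (show 0 ≤ H by linarith)]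
  have a2 : (4 : ℝ) ^ ⌈H⌉₊ ≤ Real.exp (4 * H) := by
    calc (4 : ℝ) ^ ⌈H⌉₊ ≤ Real.exp 2 ^ ⌈H⌉₊ := by
          refine pow_le_pow_left₀ (by norm_num) ?_ _
          have := Real.add_one_le_exp 1
          rw [show (2 : ℝ) = 1 + 1 by norm_num, Real.exp_add]
          nlinarith
      _ ≤ _ := by
          rw [← Real.exp_nat_mul]
          exact Real.exp_le_exp.2 (by linarith)
  have a3 := Real.pow_div_factorial_le_exp (12 * H) (by linarith) 2
  norm_num [Nat.factorial] at a3
  have a4 : 720 * (48 * (1 + H)) ≤ Real.exp (12 * H) := by nlinarith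
  rw [show 16 * H = 12 * H + 4 * H by ring, Real.exp_add]
  exact mul_le_mul a4 a2 (by positivity) (Real.exp_pos _).le

open Classical in
theorem core : ∃ A : ℝ, 1 ≤ A ∧ ∀ g : ℝ, 1 ≤ g → ∀ (w Y : ℕ) (D : ℝ) (S : Finset ℕ),
    Real.exp (A * g) ≤ Real.log w → Real.log w ^ 2 ≤ D → S.card * Real.log w ≤ g * D →
    2 * Real.exp (Real.exp (A * g)) * (S.card : ℝ) ^ 2 ≤ w → Real.exp D ≤ Y + 1 →
    ∀ ω : PP w Y → ℕ → Option S,
    (∀ p, Function.Periodic (ω p) p) →
    (∀ (p : PP w Y) i, ((range p).filter (fun t => ω p t = some i)).card = 1) →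
    ∀ a N : ℕ, Real.exp (14 * D) ≤ N → Real.exp (-Real.exp (A * g)) * N ≤
      ((range N).filter (fun t => ∀ i, ∃ p, ω p (a + t) = some i)).card := by
  have hC5 : 1 ≤ C5 := Real.one_le_exp (by positivity)
  refine ⟨16 * (2880 * C5), by linarith, fun g hg => ?_⟩
  obtain ⟨H, hH⟩ : ∃ H, H = 2880 * C5 * g := ⟨_, rfl⟩
  have hHg : 2880 * g ≤ H := by rw [hH]; nlinarith
  have hH1 : 1 ≤ H := by linarith
  obtain ⟨M, hM⟩ : ∃ M, M = 48 * (1 + H) := ⟨_, rfl⟩
  have hM1 : 1 ≤ M := by rw [hM]; linarith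
  obtain ⟨J, hJ⟩ : ∃ J, J = ⌈H⌉₊ := ⟨_, rfl⟩
  have hJH : H ≤ J := by rw [hJ]; exact Nat.le_ceil H
  have hJ0 : 0 < J := by
    have : (0 : ℝ) < J := by linarith
    exact_mod_cast this
  obtain ⟨F, hF⟩ : ∃ F, F = Real.exp (15 * ((J : ℝ) * (4 ^ J * (H * M)))) := ⟨_, rfl⟩
  have hF1 : 1 ≤ F := by rw [hF]; exact Real.one_le_exp (by positivity)
  have hFA : 16 * F ≤ Real.exp (Real.exp (16 * (2880 * C5) * g)) := by
    rw [hF, hJ, hM, mul_assoc 16, ← hH]
    exact num_F H hH1
  have h4J : (1 : ℝ) ≤ 4 ^ J := one_le_pow₀ (by norm_num)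
  intro w Y D S hw hD hk hkw hY ω hper hω a N hN
  have hMJ : 720 * M * 4 ^ J ≤ Real.exp (16 * (2880 * C5) * g) := by
    rw [hJ, hM, mul_assoc 16, ← hH]
    exact num_M H (by linarith)
  obtain ⟨L, hL⟩ : ∃ L, L = Real.log w := ⟨_, rfl⟩
  rw [← hL] at hw hD hk
  have hgL : 32 * g ≤ L := by
    have := Real.add_one_le_exp (16 * (2880 * C5) * g)
    rw [mul_assoc 16, ← hH] at this hw
    linarith
  have hL1 : 32 ≤ L := by linarith
  have hw0 : (0 : ℝ) < w := by
    rcases Nat.eq_zero_or_pos w with rfl | h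
    · simp at hL
      linarith
    · exact_mod_cast h
  have hw1 : (33 : ℝ) ≤ w := by
    have := Real.add_one_le_exp L
    rw [hL, Real.exp_log hw0] at this
    linarith
  have hw2 : 2 ≤ w := by
    have : (2 : ℝ) ≤ w := by linarith
    exact_mod_cast this
  obtain ⟨k, hkd⟩ : ∃ k : ℝ, k = S.card := ⟨_, rfl⟩
  have hk0 : 0 ≤ k := by rw [hkd]; positivity
  have hkk : k ≤ k ^ 2 := by
    rw [hkd]
    exact_mod_cast Nat.le_self_pow (by norm_num) _
  have hcard : (Fintype.card S : ℝ) = k := by rw [Fintype.card_coe, hkd]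
  rw [← hkd] at hk hkw
  have hkw1 : 32 * F * k ^ 2 ≤ w := by
    have := mul_le_mul_of_nonneg_right hFA (sq_nonneg k)
    linarith
  have hkw2 : 2 * k ≤ w := by nlinarith [sq_nonneg k]
  have hD1 : 720 * M * 4 ^ J * L ≤ D := by
    have := mul_le_mul_of_nonneg_right (hMJ.trans hw) (show 0 ≤ L by linarith)
    linarith
  have hD3 : 1 + L ≤ D := by nlinarith
  have hD2 : 32 * F ≤ Real.exp D := by
    have a1 := Real.exp_le_exp.2 hD3
    have a2 := Real.exp_le_exp.2 hw
    have a3 := Real.add_one_le_exp 1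
    rw [Real.exp_add] at a1
    nlinarith [Real.exp_pos L]
  have hD0 : 0 < D := by linarith
  have hkD : k ≤ D := by
    have : g ≤ L := by linarith
    nlinarith
  obtain ⟨Λ, hΛ1, hΛ2⟩ := exists_nat_pow_near (x := D / (720 * M * L)) (y := 4)
    (h4J.trans (by rw [le_div_iff₀ (by positivity)]; linarith)) (by norm_num)
  have hJΛ : J ≤ Λ := by
    have a1 : (4 : ℝ) ^ J ≤ D / (720 * M * L) := by rw [le_div_iff₀ (by positivity)]; linarith
    have := (pow_lt_pow_iff_right₀ (by norm_num : (1 : ℝ) < 4)).1 (a1.trans_lt hΛ2)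
    omega
  rw [le_div_iff₀ (by positivity)] at hΛ1
  rw [div_lt_iff₀ (by positivity), pow_succ] at hΛ2
  have h4Λ : (1 : ℝ) ≤ 4 ^ Λ := one_le_pow₀ (by norm_num)
  obtain ⟨T, hT⟩ : ∃ T, T = 6 * (120 * L * 4 ^ Λ) := ⟨_, rfl⟩
  have hT0 : 0 < T := by rw [hT]; positivity
  have hTM : T * M ≤ D := by rw [hT]; linarith
  have hTD : T ≤ D := by nlinarith
  have hkΛ : k * (1 / 4) ^ Λ ≤ 2880 * g * M := by
    rw [one_div, inv_pow, ← div_eq_mul_inv, div_le_iff₀ (by positivity)]
    refine le_of_mul_le_mul_right ?_ (show 0 < L by linarith)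
    have := mul_le_mul_of_nonneg_left hΛ2.le (show 0 ≤ g by linarith)
    linarith
  have hkH : k * (C5 * (1 / 4) ^ Λ) ≤ H * M := by
    have := mul_le_mul_of_nonneg_left hkΛ (show 0 ≤ C5 by linarith)
    rw [hH]
    linarith
  set q : PP w Y → ℕ := fun p => (p : ℕ) with hq
  have hqP : ∀ p : PP w Y, (w < q p ∧ q p ≤ Y) ∧ (q p).Prime := fun p => (mem_PP _ _ _).1 p.2
  have hqw : ∀ p, (w : ℝ) ≤ q p := fun p => by exact_mod_cast (hqP p).1.1.le
  set r : PP w Y → ℝ := fun p => 1 / ((q p : ℝ) - k) with hr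
  have hqk : ∀ p, 0 < (q p : ℝ) - k := fun p => by linarith [hqw p]
  have r0 : ∀ p, 0 ≤ r p := fun p => (one_div_pos.2 (hqk p)).le
  have r1 : ∀ p, 1 / (q p : ℝ) ≤ r p := fun p => one_div_le_one_div_of_le (hqk p) (by linarith)
  have r2 : ∀ p, r p ≤ 2 * (1 / (q p : ℝ)) := fun p => by
    have := hqw p
    rw [mul_one_div, div_le_div_iff₀ (hqk p) (by linarith)]
    linarith
  have r3 : ∀ p, r p ≤ 2 * (1 / (w : ℝ)) := fun p => (r2 p).trans
    (mul_le_mul_of_nonneg_left (one_div_le_one_div_of_le hw0 (hqw p)) (by norm_num))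
  have r4 : 2 * (1 / (w : ℝ)) ≤ 1 / 10 := by
    rw [mul_one_div, div_le_div_iff₀ hw0 (by norm_num)]
    linarith
  have l4 : Real.log 4 = 2 * Real.log 2 := by
    rw [show (4 : ℝ) = 2 ^ 2 by norm_num, Real.log_pow]; norm_num
  have l2 := Real.log_two_gt_d9
  have l3 := Real.log_two_lt_d9
  have e4 : ∀ l : ℕ, Real.exp (l * Real.log 4) = 4 ^ l := fun l => by
    rw [Real.exp_nat_mul, Real.exp_log (by norm_num)]
  have htot : Λ * Real.log 4 ≤ ∑ p, r p := by
    have a1 := mert w Y hw2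
    have a2 : D ≤ Real.log (Y + 1) := by
      rw [Real.le_log_iff_exp_le (by positivity)]
      exact hY
    have a3 : ∑ p ∈ PP w Y, 1 / (p : ℝ) ≤ ∑ p, r p := by
      rw [← Finset.sum_coe_sort]
      exact Finset.sum_le_sum fun p _ => r1 p
    have a4 := Real.exp_le_exp.2 a3
    rw [← hL] at a1
    rw [← Real.exp_le_exp, e4]
    refine le_trans (le_of_mul_le_mul_left ?_ (show 0 < 30 * L by linarith)) a4
    have : 0 ≤ L * 4 ^ Λ := by positivity
    linarith
  have hup := fun l => blk_upper q Subtype.val_injective r (1 / 10) (by norm_num) r0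
    (fun p => (r3 p).trans r4) l
  have hlo : ∀ l ≤ Λ, l * Real.log 4 ≤ ∑ l' ∈ range l, mu r (blk q r) l' := fun l hl =>
    blk_lower q r r0 l (le_trans (mul_le_mul_of_nonneg_right (by exact_mod_cast hl)
      log4_pos.le) htot)
  have key := core_abs q (fun p => (hqP p).2.pos)
    (fun p p' h => (Nat.coprime_primes (hqP p).2 (hqP p').2).2 fun h1 => h (Subtype.ext h1))
    ω hper hω r0 (fun p => by linarith [r3 p]) (fun p => by
      rw [hcard]
      exact one_div_mul_cancel (hqk p).ne') (fun p => by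
      rw [hcard]
      have := mul_le_mul_of_nonneg_left (r3 p) hk0
      refine this.trans ?_
      rw [mul_one_div, ← mul_div_assoc, div_le_one hw0]
      linarith)
    (blk q r) Λ J hJ0 hJΛ (120 * L) D F (by linarith) ?_ ?_ hlo ?_ (by rw [← hT]; exact hTD)
    (by rw [hcard]; exact hkD) ?_ ?_ ?_ a N
  · refine le_trans ?_ key
    have a1 : Real.exp (-Real.exp (16 * (2880 * C5) * g)) ≤ 1 / (16 * F) := by
      rw [Real.exp_neg, ← one_div]
      exact one_div_le_one_div_of_le (by positivity) hFA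
    have a2 : 32 * F * Real.exp (13 * D) ≤ N := by
      refine le_trans ?_ hN
      rw [show 14 * D = D + 13 * D by ring, Real.exp_add]
      exact mul_le_mul_of_nonneg_right hD2 (Real.exp_pos _).le
    have a3 : 2 * Real.exp (13 * D) ≤ N / (16 * F) := by
      rw [le_div_iff₀ (by positivity)]
      linarith
    have a4 : (N : ℝ) / (8 * F) = 2 * (N / (16 * F)) := by field_simp; ring
    have a5 := mul_le_mul_of_nonneg_right a1 (Nat.cast_nonneg (α := ℝ) N)
    rw [one_div_mul_eq_div] at a5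
    linarith
  · intro l hl
    have a1 := hup l
    have a2 := hlo (l + 1) hl
    rw [Finset.sum_range_succ] at a2
    push_cast at a2
    linarith
  · intro l hl
    have a1 := hup (l + 1)
    have a2 := hlo l hl.le
    rw [Finset.sum_range_succ] at a1
    push_cast at a1
    linarith
  · intro l _
    obtain ⟨V, hV⟩ : ∃ V, V = Real.exp (120 * L * 4 ^ l) := ⟨_, rfl⟩
    have hV0 : 0 < V := by rw [hV]; exact Real.exp_pos _
    have a1 : ∀ p, blk q r p = l → (q p : ℝ) ≤ V := by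
      intro p hp
      have b1 := (cum_lt q r r0 p (l + 1)).1 (by omega)
      have hp1 := (hqP p).2.pos
      have b2 := mert w (q p - 1) hw2
      have b3 : ((q p - 1 : ℕ) : ℝ) + 1 = q p := by
        rw [Nat.cast_sub hp1]
        simp
      have b4 : ∑ p' ∈ PP w (q p - 1), 1 / (p' : ℝ) ≤ cum q r p := by
        calc _ ≤ ∑ p' ∈ (PP w Y).filter (fun p' => p' < q p), 1 / (p' : ℝ) := by
              refine Finset.sum_le_sum_of_subset_of_nonneg ?_ fun _ _ _ => by positivity
              intro p' hp'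
              rw [mem_PP] at hp'
              have := (hqP p).1.2
              rw [Finset.mem_filter, mem_PP]
              exact ⟨⟨⟨hp'.1.1, by omega⟩, hp'.2⟩, by omega⟩
          _ ≤ _ := by
              rw [Finset.sum_filter, ← Finset.sum_coe_sort]
              refine Finset.sum_le_sum fun p' _ => ?_
              by_cases h : q p' < q p
              · rw [if_pos h, if_pos h]
                exact r1 p'
              · rw [if_neg h, if_neg h]
      have b5 := Real.exp_le_exp.2 (b4.trans b1.le)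
      rw [e4, pow_succ] at b5
      rw [b3, ← hL] at b2
      rw [hV, ← Real.log_le_iff_le_exp (by exact_mod_cast hp1)]
      have := mul_le_mul_of_nonneg_left b5 (show 0 ≤ 30 * L by linarith)
      linarith
    rw [two_mul, Real.exp_add, ← hV]
    calc _ ≤ ∑ p : PP w Y, (if (p : ℕ) ∈ Icc 1 ⌊V⌋₊ then V else 0) := by
          refine Finset.sum_le_sum fun p _ => ?_
          by_cases hp : blk q r p = l
          · rw [if_pos hp, if_pos (Finset.mem_Icc.2 ⟨(hqP p).2.pos, Nat.le_floor (a1 p hp)⟩)]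
            exact a1 p hp
          · rw [if_neg hp]
            split_ifs <;> linarith
      _ = ∑ p ∈ PP w Y ∩ Icc 1 ⌊V⌋₊, V := by
          rw [Finset.sum_coe_sort (PP w Y) (fun p => if p ∈ Icc 1 ⌊V⌋₊ then V else 0),
            Finset.sum_ite_mem]
      _ ≤ ∑ p ∈ Icc 1 ⌊V⌋₊, V :=
          Finset.sum_le_sum_of_subset_of_nonneg Finset.inter_subset_right fun _ _ _ => hV0.le
      _ ≤ _ := by
          simp only [Finset.sum_const, Nat.card_Icc, add_tsub_cancel_right, nsmul_eq_mul]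
          exact mul_le_mul_of_nonneg_right (Nat.floor_le hV0.le) hV0.le
  · rw [hcard, ← hT]
    refine le_trans ?_ (num_s H (by linarith))
    rw [← hM]
    refine mul_le_mul (Real.exp_le_exp.2 ?_) (by linarith) (by positivity) (Real.exp_pos _).le
    have hJ' : (0 : ℝ) < J := by linarith
    have a1 : 2 * (6 * C5 * (120 * L) / J) * k ≤ D / 2 := by
      have e : 2 * (6 * C5 * (120 * L) / J) * k = 1440 * C5 * (k * L) / J := by ring
      rw [e, div_le_iff₀ hJ']
      have b1 := mul_le_mul_of_nonneg_left hk (show 0 ≤ 1440 * C5 by positivity)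
      have b2 := mul_le_mul_of_nonneg_left hJH hD0.le
      rw [hH] at b2
      linarith
    rw [div_le_iff₀ hT0]
    linarith
  · rw [hcard, hF]
    refine Real.exp_le_exp.2 ?_
    have := mul_le_mul_of_nonneg_left hkH (show (0 : ℝ) ≤ 15 * (J * 4 ^ J) by positivity)
    linarith
  · rw [hcard]
    calc _ ≤ ∑ p : PP w Y, 4 * k ^ 2 * (1 / (q p : ℝ)) ^ 2 := by
          refine Finset.sum_le_sum fun p _ => ?_
          calc (k * r p) ^ 2 ≤ (k * (2 * (1 / (q p : ℝ)))) ^ 2 :=
                pow_le_pow_left₀ (mul_nonneg hk0 (r0 p))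
                  (mul_le_mul_of_nonneg_left (r2 p) hk0) 2
            _ = _ := by ring
      _ ≤ 4 * k ^ 2 * (1 / (w : ℝ)) := by
          rw [← Finset.mul_sum]
          refine mul_le_mul_of_nonneg_left ?_ (by positivity)
          refine le_trans ?_ (inv_sq_tail w Y (by omega))
          rw [Finset.sum_coe_sort (PP w Y) (fun p : ℕ => (1 / (p : ℝ)) ^ 2)]
          exact Finset.sum_le_sum_of_subset_of_nonneg (Finset.filter_subset _ _)
            fun _ _ _ => by positivity
      _ ≤ _ := by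
          rw [mul_one_div, div_le_div_iff₀ hw0 (by positivity)]
          linarith

end Pool.Agent.MP_fdd1d3_nt.PD
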