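import Mathlib
import Pool.Agent.MP_fdd1d3_nt.Assembly
import Pool.Agent.MP_fdd1d3_nt.PD5

set_option autoImplicit false

open Finset

namespace Pool.Agent.MP_fdd1d3_nt.PD

/-- the multipliers that survive the small primes -/
def surv (z y b : ℕ) : Finset ℕ := (Icc 1 y).filter (fun k => ∀ p ∈ PP 0 z, ¬ p ∣ k * b + 1)

theorem primorial_eq (z : ℕ) : primorial z = ∏ p ∈ PP 0 z, p := by
  rw [primorial]
  refine Finset.prod_congr ?_ fun _ _ => rfl
  ext p
  simp only [Finset.mem_filter, Finset.mem_range, mem_PP]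
  constructor
  · rintro ⟨h1, h2⟩
    exact ⟨⟨h2.pos, by omega⟩, h2⟩
  · rintro ⟨⟨_, h1⟩, h2⟩
    exact ⟨by omega, h2⟩

theorem count_b (z k : ℕ) :
    ∑ b ∈ range (primorial z), (if ∀ p ∈ PP 0 z, ¬ p ∣ k * b + 1 then (1 : ℝ) else 0) ≤
      primorial z * ((∏ p ∈ PP 0 z, (1 - 1 / (p : ℝ))) *
        ∏ p ∈ PP 0 z, (1 + if p ∣ k then 2 / (p : ℝ) else 0)) := by
  have hP : ∀ p : PP 0 z, (p : ℕ).Prime := fun p => ((mem_PP _ _ _).1 p.2).2
  have key := period_sum_prod (univ : Finset (PP 0 z)) (fun p => (p : ℕ)) (fun p => (hP p).pos)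
    (fun p p' h => (Nat.coprime_primes (hP p) (hP p')).2 fun h1 => h (Subtype.ext h1))
    (fun p t => if (p : ℕ) ∣ k * t + 1 then (0 : ℝ) else 1) (fun p t => by
      have : (p : ℕ) ∣ k * (t + p) + 1 ↔ (p : ℕ) ∣ k * t + 1 := by
        rw [show k * (t + p) + 1 = p * k + (k * t + 1) by ring]
        exact Nat.dvd_add_right (Dvd.intro _ rfl)
      simp only [this])
  rw [Finset.prod_coe_sort (PP 0 z) (fun p => p), ← primorial_eq] at key
  rw [Finset.prod_coe_sort (PP 0 z)
    (fun p => ∑ t ∈ range p, if p ∣ k * t + 1 then (0 : ℝ) else 1)] at key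
  have e1 : ∀ b, (if ∀ p ∈ PP 0 z, ¬ p ∣ k * b + 1 then (1 : ℝ) else 0) =
      ∏ p : PP 0 z, (if (p : ℕ) ∣ k * b + 1 then (0 : ℝ) else 1) := by
    intro b
    split_ifs with h
    · exact (Finset.prod_eq_one fun (p : PP 0 z) _ => if_neg (h p p.2)).symm
    · push Not at h
      obtain ⟨p, hp, h⟩ := h
      symm
      refine Finset.prod_eq_zero (i := ⟨p, hp⟩) (Finset.mem_univ _) ?_
      exact if_pos h
  simp only [e1]
  rw [key, primorial_eq, Nat.cast_prod, ← Finset.prod_mul_distrib, ← Finset.prod_mul_distrib]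
  refine Finset.prod_le_prod (fun p _ => Finset.sum_nonneg fun t _ => by split_ifs <;> norm_num)
    fun p hp => ?_
  have hp' := ((mem_PP _ _ _).1 hp).2
  have h2 : (2 : ℝ) ≤ p := by exact_mod_cast hp'.two_le
  have e2 : ∑ t ∈ range p, (if p ∣ k * t + 1 then (0 : ℝ) else 1) =
      p - ((range p).filter (fun t => p ∣ k * t + 1)).card := by
    rw [Finset.card_filter, Nat.cast_sum, eq_sub_iff_add_eq, ← Finset.sum_add_distrib]
    rw [Finset.sum_congr rfl (g := fun _ => (1 : ℝ)) fun t _ => by split_ifs <;> simp]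
    simp
  rw [e2]
  by_cases hk : p ∣ k
  · rw [if_pos hk]
    have e3 : (p : ℝ) * ((1 - 1 / p) * (1 + 2 / p)) = p + (p - 2) / p := by
      field_simp
      ring
    have : 0 ≤ ((p : ℝ) - 2) / p := div_nonneg (by linarith) (by linarith)
    rw [e3]
    linarith [Nat.cast_nonneg (α := ℝ) ((range p).filter (fun t => p ∣ k * t + 1)).card]
  · rw [if_neg hk, root_count p k 1 hp' hk]
    have e3 : (p : ℝ) * ((1 - 1 / p) * (1 + 0)) = p - 1 := by
      field_simp
      ring
    rw [e3]
    simp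

theorem sum_k (z y : ℕ) :
    ∑ k ∈ Icc 1 y, ∏ p ∈ PP 0 z, (1 + if p ∣ k then 2 / (p : ℝ) else 0) ≤ 9 * y := by
  simp only [Finset.prod_one_add]
  rw [Finset.sum_comm]
  calc _ ≤ ∑ s ∈ (PP 0 z).powerset, (y : ℝ) * ∏ p ∈ s, 2 * (1 / (p : ℝ)) ^ 2 := by
        refine Finset.sum_le_sum fun s hs => ?_
        have hs' : ∀ p ∈ s, p.Prime := fun p hp =>
          ((mem_PP _ _ _).1 (Finset.mem_powerset.1 hs hp)).2
        have hm : 0 < ∏ p ∈ s, p := Finset.prod_pos fun p hp => (hs' p hp).pos
        calc _ ≤ ∑ k ∈ Ioc 0 y, (if (∏ p ∈ s, p) ∣ k then ∏ p ∈ s, 2 / (p : ℝ) else 0) := by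
              refine Finset.sum_le_sum fun k _ => ?_
              by_cases h : ∀ p ∈ s, p ∣ k
              · rw [if_pos (Finset.prod_primes_dvd k (fun p hp => (hs' p hp).prime) h)]
                exact (Finset.prod_congr rfl fun p hp => if_pos (h p hp)).le
              · push Not at h
                obtain ⟨p, hp, h⟩ := h
                rw [Finset.prod_eq_zero hp (if_neg h)]
                split_ifs
                · exact Finset.prod_nonneg fun _ _ => by positivity
                · exact le_rfl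
          _ = ((y / ∏ p ∈ s, p : ℕ) : ℝ) * ∏ p ∈ s, 2 / (p : ℝ) := by
              rw [← Finset.sum_filter, Finset.sum_const, Nat.Ioc_filter_dvd_card_eq_div,
                nsmul_eq_mul]
          _ ≤ (y / ((∏ p ∈ s, p : ℕ) : ℝ)) * ∏ p ∈ s, 2 / (p : ℝ) :=
              mul_le_mul_of_nonneg_right Nat.cast_div_le
                (Finset.prod_nonneg fun _ _ => by positivity)
          _ = _ := by
              rw [Nat.cast_prod, div_eq_mul_inv, ← Finset.prod_inv_distrib, mul_assoc,
                ← Finset.prod_mul_distrib]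
              congr 1
              refine Finset.prod_congr rfl fun p _ => ?_
              ring
    _ = (y : ℝ) * ∏ p ∈ PP 0 z, (1 + 2 * (1 / (p : ℝ)) ^ 2) := by
        rw [Finset.prod_one_add, Finset.mul_sum]
    _ ≤ (y : ℝ) * 9 := by
        refine mul_le_mul_of_nonneg_left ?_ (Nat.cast_nonneg _)
        refine (Real.prod_one_add_le_exp_sum _ fun p => by positivity).trans ?_
        have a1 : ∑ p ∈ PP 0 z, (1 / (p : ℝ)) ^ 2 ≤ 1 := by
          have := inv_sq_tail 1 z one_pos
          simp only [Nat.cast_one, div_one] at this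
          refine le_trans (Finset.sum_le_sum_of_subset_of_nonneg ?_ fun _ _ _ => by positivity) this
          intro p hp
          rw [mem_PP] at hp
          exact Finset.mem_Ioc.2 ⟨hp.2.one_lt, hp.1.2⟩
        rw [← Finset.mul_sum]
        calc _ ≤ Real.exp (1 + 1) := Real.exp_le_exp.2 (by linarith)
          _ ≤ 9 := by
              rw [Real.exp_add]
              nlinarith [Real.exp_one_lt_d9, Real.exp_pos 1]
    _ = _ := by ring

theorem V_le (z : ℕ) : (∏ p ∈ PP 0 z, (1 - 1 / (p : ℝ))) * Real.log z ≤ 21 := by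
  rcases Nat.eq_zero_or_pos z with rfl | hz
  · simp
  have a1 := mert 2 z le_rfl
  have a2 : ∏ p ∈ PP 0 z, (1 - 1 / (p : ℝ)) ≤ Real.exp (-∑ p ∈ PP 2 z, 1 / (p : ℝ)) := by
    calc _ ≤ ∏ p ∈ PP 0 z, Real.exp (-(1 / (p : ℝ))) := by
          refine Finset.prod_le_prod (fun p hp => ?_) fun p _ => by
            linarith [Real.add_one_le_exp (-(1 / (p : ℝ)))]
          have : (1 : ℝ) ≤ p := by exact_mod_cast ((mem_PP _ _ _).1 hp).1.1
          exact sub_nonneg.2 ((div_le_one (by linarith)).2 this)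
      _ ≤ _ := by
          rw [← Real.exp_sum, Finset.sum_neg_distrib]
          refine Real.exp_le_exp.2 (neg_le_neg
            (Finset.sum_le_sum_of_subset_of_nonneg ?_ fun _ _ _ => by positivity))
          intro p hp
          rw [mem_PP] at hp ⊢
          exact ⟨⟨by omega, hp.1.2⟩, hp.2⟩
  have a3 : Real.log z ≤ Real.log (z + 1) :=
    Real.log_le_log (by exact_mod_cast hz) (by linarith)
  have l3 := Real.log_two_lt_d9
  have a4 : Real.log z ≤ 21 * Real.exp (∑ p ∈ PP 2 z, 1 / (p : ℝ)) := by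
    refine (a3.trans a1).trans (mul_le_mul_of_nonneg_right ?_ (Real.exp_pos _).le)
    push_cast
    linarith
  calc _ ≤ Real.exp (-∑ p ∈ PP 2 z, 1 / (p : ℝ)) * (21 * Real.exp (∑ p ∈ PP 2 z, 1 / (p : ℝ))) :=
        mul_le_mul a2 a4 (Real.log_natCast_nonneg z) (Real.exp_pos _).le
    _ = 21 := by
        rw [mul_left_comm, ← Real.exp_add]
        simp

theorem good_b (z y : ℕ) (hy : 0 < y) :
    (primorial z : ℝ) / 2 ≤ ((range (primorial z)).filter
      (fun b => (surv z y b).card * Real.log z ≤ 400 * y)).card := by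
  have a1 : ∑ b ∈ range (primorial z), ((surv z y b).card : ℝ) * Real.log z ≤
      primorial z * (189 * y) := by
    rw [← Finset.sum_mul]
    have b1 : ∑ b ∈ range (primorial z), ((surv z y b).card : ℝ) ≤
        primorial z * ((∏ p ∈ PP 0 z, (1 - 1 / (p : ℝ))) * (9 * y)) := by
      simp only [surv, Finset.card_filter, Nat.cast_sum]
      rw [Finset.sum_comm]
      have hV : 0 ≤ ∏ p ∈ PP 0 z, (1 - 1 / (p : ℝ)) := Finset.prod_nonneg fun p hp => by
        have : (1 : ℝ) ≤ p := by exact_mod_cast ((mem_PP _ _ _).1 hp).1.1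
        exact sub_nonneg.2 ((div_le_one (by linarith)).2 this)
      refine le_trans (Finset.sum_le_sum fun k _ => le_trans (le_of_eq ?_) (count_b z k)) ?_
      · refine Finset.sum_congr rfl fun b _ => ?_
        split_ifs <;> simp
      · rw [← Finset.mul_sum, ← Finset.mul_sum]
        exact mul_le_mul_of_nonneg_left (mul_le_mul_of_nonneg_left (sum_k z y) hV)
          (Nat.cast_nonneg _)
    have b2 := mul_le_mul_of_nonneg_right b1 (Real.log_natCast_nonneg z)
    have b3 := mul_le_mul_of_nonneg_left (V_le z)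
      (show (0 : ℝ) ≤ primorial z * (9 * y) by positivity)
    linarith
  have a2 := Finset.card_filter_add_card_filter_not (s := range (primorial z))
    (fun b => (surv z y b).card * Real.log z ≤ 400 * y)
  rw [Finset.card_range] at a2
  have a3 : (((range (primorial z)).filter
      (fun b => ¬ (surv z y b).card * Real.log z ≤ 400 * y)).card : ℝ) * (400 * y) ≤
      primorial z * (189 * y) := by
    refine le_trans ?_ a1
    rw [← nsmul_eq_mul, ← Finset.sum_const]
    refine le_trans (Finset.sum_le_sum fun b hb => (not_le.1 (Finset.mem_filter.1 hb).2).le) ?_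
    exact Finset.sum_le_sum_of_subset_of_nonneg (Finset.filter_subset _ _) fun b _ _ =>
      mul_nonneg (Nat.cast_nonneg _) (Real.log_natCast_nonneg z)
  have hy' : (0 : ℝ) < y := by exact_mod_cast hy
  have a4 := congrArg (Nat.cast : ℕ → ℝ) a2
  push_cast at a4
  have a5 : (((range (primorial z)).filter
      (fun b => ¬ (surv z y b).card * Real.log z ≤ 400 * y)).card : ℝ) * 400 ≤
      primorial z * 189 := by
    refine le_of_mul_le_mul_right ?_ hy'
    linarith
  have : (0 : ℝ) ≤ primorial z := Nat.cast_nonneg _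
  linarith

open Classical in
theorem count_n (c : ℝ) (z y w Y N X : ℕ) (hc : 0 ≤ c) (hy : 0 < y) (hzw : z ≤ w) (hyw : y ≤ w)
    (hzN : z ≤ N) (hYN : Y ≤ N) (hN : 0 < N) (hX : 2 * (primorial z * N) ≤ X)
    (h : ∀ S : Finset ℕ, S ⊆ Icc 1 y → S.card * Real.log z ≤ 400 * y →
      ∀ ω : PP w Y → ℕ → Option S, (∀ p, Function.Periodic (ω p) p) →
      (∀ (p : PP w Y) i, ((range p).filter (fun t => ω p t = some i)).card = 1) →
      c * N ≤ ((range N).filter (fun t => ∀ i, ∃ p, ω p (N + t) = some i)).card) :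
    c * (primorial z * N) / 2 ≤
      ((Icc 1 X).filter (fun n => y < Nat.nth (fun k => (k * n + 1).Prime) 0)).card := by
  obtain ⟨W, hW⟩ : ∃ W, W = primorial z := ⟨_, rfl⟩
  have hW0 : 0 < W := by rw [hW]; exact primorial_pos z
  have hb := good_b z y hy
  rw [← hW] at hb hX ⊢
  set B := (range W).filter (fun b => (surv z y b).card * Real.log z ≤ 400 * y) with hB
  set G : ℕ → Finset ℕ := fun b => (range N).filter
    (fun t => y < Nat.nth (fun k => (k * (W * (N + t) + b) + 1).Prime) 0) with hG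
  have a1 : ∀ b ∈ B, c * N ≤ (G b).card := by
    intro b hb
    have hst : ∀ p : PP w Y, ∃ ω : ℕ → Option (surv z y b), Function.Periodic ω p ∧
        (∀ i, ((range p).filter (fun t => ω t = some i)).card = 1) ∧
        ∀ t i, ω t = some i → (p : ℕ) ∣ i * (W * t + b) + 1 := by
      intro p
      have hp := (mem_PP _ _ _).1 p.2
      refine exists_state _ p W b hp.2 ?_ fun k hk => ?_
      · rw [hW, hp.2.dvd_primorial_iff]
        omega
      · have := Finset.mem_Icc.1 (Finset.mem_filter.1 hk).1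
        omega
    choose ω hper hω hdvd using hst
    refine (h (surv z y b) (Finset.filter_subset _ _) (Finset.mem_filter.1 hb).2 ω hper hω).trans ?_
    refine Nat.cast_le.2 (Finset.card_le_card fun t ht => ?_)
    rw [Finset.mem_filter] at ht
    refine Finset.mem_filter.2 ⟨ht.1, ?_⟩
    have h4 : N + t ≤ W * (N + t) := Nat.le_mul_of_pos_left _ hW0
    have hprime := nth_prime (W * (N + t) + b) (by omega)
    generalize Nat.nth (fun k => (k * (W * (N + t) + b) + 1).Prime) 0 = k at hprime ⊢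
    by_contra hk
    have hk0 : 0 < k := by
      rcases Nat.eq_zero_or_pos k with rfl | h0
      · simp at hprime
        exact absurd hprime Nat.not_prime_one
      · exact h0
    have h5 : W * (N + t) + b ≤ k * (W * (N + t) + b) := Nat.le_mul_of_pos_left _ hk0
    by_cases hkS : k ∈ surv z y b
    · obtain ⟨p, hp⟩ := ht.2 ⟨k, hkS⟩
      have hp' := (mem_PP _ _ _).1 p.2
      have h2 := (Nat.prime_dvd_prime_iff_eq hp'.2 hprime).1 (hdvd p _ _ hp)
      omega
    · simp only [surv, Finset.mem_filter, Finset.mem_Icc, not_and, not_forall, not_not] at hkS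
      obtain ⟨p, hp, hpk⟩ := hkS ⟨hk0, not_lt.1 hk⟩
      have hp' := (mem_PP _ _ _).1 hp
      have h2 : p ∣ k * (W * (N + t) + b) + 1 := by
        rw [show k * (W * (N + t) + b) + 1 = W * (k * (N + t)) + (k * b + 1) by ring, hW]
        exact dvd_add ((hp'.2.dvd_primorial_iff.2 hp'.1.2).mul_right _) hpk
      have h3 := (Nat.prime_dvd_prime_iff_eq hp'.2 hprime).1 h2
      omega
  have a2 : (B.sigma G).card ≤
      ((Icc 1 X).filter (fun n => y < Nat.nth (fun k => (k * n + 1).Prime) 0)).card := by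
    refine Finset.card_le_card_of_injOn (fun x => W * (N + x.2) + x.1) ?_ ?_
    · rintro ⟨b, t⟩ hx
      simp only [Finset.coe_sigma, Set.mem_sigma_iff, Finset.mem_coe, hB, hG, Finset.mem_filter,
        Finset.mem_range] at hx
      simp only [Finset.mem_coe, Finset.mem_filter, Finset.mem_Icc]
      have h4 : N + t ≤ W * (N + t) := Nat.le_mul_of_pos_left _ hW0
      have h5 : W * (N + t + 1) ≤ W * (2 * N) := Nat.mul_le_mul_left _ (by omega)
      refine ⟨⟨by omega, ?_⟩, hx.2.2⟩
      nlinarith [hx.1.1]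
    · rintro ⟨b, t⟩ hx ⟨b', t'⟩ hx' he
      simp only [Finset.coe_sigma, Set.mem_sigma_iff, Finset.mem_coe, hB, Finset.mem_filter,
        Finset.mem_range] at hx hx'
      simp only at he
      have e1 : b = b' := by
        have := congrArg (· % W) he
        simpa [Nat.mul_add_mod, Nat.mod_eq_of_lt hx.1.1, Nat.mod_eq_of_lt hx'.1.1] using this
      subst e1
      have e2 : N + t = N + t' := Nat.eq_of_mul_eq_mul_left hW0 (by omega)
      have e3 : t = t' := by omega
      rw [e3]
  rw [Finset.card_sigma] at a2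
  have a3 : (B.card : ℝ) * (c * N) ≤ ∑ b ∈ B, ((G b).card : ℝ) := by
    rw [← nsmul_eq_mul, ← Finset.sum_const]
    exact Finset.sum_le_sum a1
  have a4 : ((∑ b ∈ B, (G b).card : ℕ) : ℝ) ≤ _ := Nat.cast_le.2 a2
  rw [Nat.cast_sum] at a4
  have a5 := mul_le_mul_of_nonneg_right hb (mul_nonneg hc (Nat.cast_nonneg (α := ℝ) N))
  linarith

open Classical Filter in
theorem density : ∃ A : ℝ, 0 < A ∧ ∀ᶠ X : ℕ in atTop, ∀ lam : ℝ, 1 ≤ lam →
    Real.exp (A * lam) ≤ Real.log (Real.log X) →
    Real.exp (-Real.exp (A * lam)) * X ≤ ((Icc 1 X).filter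
      (fun n => lam * Real.log X < Nat.nth (fun k => (k * n + 1).Prime) 0)).card := by
  obtain ⟨A, hA, hcore⟩ := core
  refine ⟨48000 * A + 2, by linarith, ?_⟩
  have tL : Tendsto (fun X : ℕ => Real.log X) atTop atTop :=
    Real.tendsto_log_atTop.comp tendsto_natCast_atTop_atTop
  have ev1 := tL.eventually ((Real.isLittleO_pow_log_id_atTop (n := 2)).bound
    (c := 1 / 720) (by positivity))
  have ev2 := tL.eventually_ge_atTop (10 ^ 9)
  filter_upwards [ev1, ev2, eventually_gt_atTop 0] with X h1 hL0 hX0 lam hlam hr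
  have hC0 := hcore (48000 * lam) (by linarith)
  obtain ⟨L, hL⟩ : ∃ L, L = Real.log X := ⟨_, rfl⟩
  rw [← hL] at h1 hL0 hr ⊢
  have hX : Real.exp L = X := by rw [hL, Real.exp_log (by exact_mod_cast hX0)]
  simp only [id, Real.norm_eq_abs] at h1
  rw [abs_of_nonneg (sq_nonneg _), abs_of_nonneg (by linarith)] at h1
  have c1 : 1 ≤ Real.exp (A * (48000 * lam)) := Real.one_le_exp (by positivity)
  have c3 : Real.exp (A * (48000 * lam)) + 3 ≤ Real.exp ((48000 * A + 2) * lam) := by
    have c2 : 4 ≤ Real.exp (2 * lam) := by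
      have := Real.add_one_le_exp lam
      rw [two_mul, Real.exp_add]
      nlinarith
    rw [show (48000 * A + 2) * lam = 2 * lam + A * (48000 * lam) by ring, Real.exp_add]
    nlinarith
  have c5 : Real.exp (A * (48000 * lam)) ≤ Real.log L := by linarith
  have c6 : Real.exp (Real.exp (A * (48000 * lam))) ≤ L := by
    rwa [← Real.le_log_iff_exp_le (by linarith)]
  have c7 : lam ≤ L := by
    have b1 := Real.add_one_le_exp (A * (48000 * lam))
    have b2 := Real.add_one_le_exp (Real.exp (A * (48000 * lam)))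
    nlinarith
  obtain ⟨z, hz⟩ : ∃ z, z = ⌊L / 10⌋₊ := ⟨_, rfl⟩
  have hz1 : (z : ℝ) ≤ L / 10 := by rw [hz]; exact Nat.floor_le (by linarith)
  have hz2 : L / 10 < z + 1 := by rw [hz]; exact Nat.lt_floor_add_one _
  have hz3 : L ≤ 20 * z := by linarith
  have hz0 : (1 : ℝ) ≤ z := by linarith
  obtain ⟨y, hy⟩ : ∃ y, y = ⌊lam * L⌋₊ := ⟨_, rfl⟩
  have hy1 : (y : ℝ) ≤ lam * L := by rw [hy]; exact Nat.floor_le (by positivity)
  have hy0 : 0 < y := by rw [hy]; exact Nat.floor_pos.2 (by nlinarith)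
  have hy2 : (y : ℝ) ≤ L * L := hy1.trans (mul_le_mul_of_nonneg_right c7 (by linarith))
  have hy3 : 2 * L * (y : ℝ) ^ 2 ≤ (z : ℝ) ^ 6 := by
    calc 2 * L * (y : ℝ) ^ 2 ≤ 2 * L * (L * L) ^ 2 := by gcongr
      _ = 2 * L ^ 5 := by ring
      _ ≤ 2 * (20 * z) ^ 5 := by gcongr
      _ = 6400000 * z ^ 5 := by ring
      _ ≤ z * z ^ 5 := by gcongr; linarith
      _ = _ := by ring
  have hlz : Real.log L ≤ 6 * Real.log z := by
    have b1 : L ≤ (z : ℝ) ^ 6 := by
      have : (1 : ℝ) ≤ (y : ℝ) ^ 2 := one_le_pow₀ (by exact_mod_cast hy0)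
      nlinarith
    have := Real.log_le_log (by linarith) b1
    rw [Real.log_pow] at this
    exact_mod_cast this
  have hlz2 : (6 * Real.log z) ^ 2 ≤ L / 20 := by
    have b1 : Real.log z ≤ Real.log L := Real.log_le_log (by linarith) (by linarith)
    have b2 := pow_le_pow_left₀ (Real.log_natCast_nonneg z) b1 2
    linarith
  obtain ⟨W, hW⟩ : ∃ W, W = primorial z := ⟨_, rfl⟩
  have hW0 : 0 < W := by rw [hW]; exact primorial_pos z
  have hW0' : (0 : ℝ) < W := by exact_mod_cast hW0
  have hW1 : (W : ℝ) ≤ Real.exp (L / 5) := by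
    have b1 : (W : ℝ) ≤ 4 ^ z := by rw [hW]; exact_mod_cast primorial_le_four_pow z
    calc (W : ℝ) ≤ Real.exp 2 ^ z := by
          refine b1.trans (pow_le_pow_left₀ (by norm_num) ?_ _)
          have := Real.add_one_le_exp 1
          rw [show (2 : ℝ) = 1 + 1 by norm_num, Real.exp_add]
          nlinarith
      _ ≤ _ := by
          rw [← Real.exp_nat_mul]
          exact Real.exp_le_exp.2 (by linarith)
  obtain ⟨N, hN⟩ : ∃ N, N = X / (2 * W) := ⟨_, rfl⟩
  have hN1 : 2 * (W * N) ≤ X := by rw [hN, ← mul_assoc]; exact Nat.mul_div_le _ _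
  have hN2 : (X : ℝ) < 2 * W * (N + 1) := by
    have : X < 2 * W * (N + 1) := by rw [hN]; exact Nat.lt_mul_div_succ _ (by omega)
    exact_mod_cast this
  have hE1 : 1 ≤ Real.exp (14 * (L / 20)) := Real.one_le_exp (by linarith)
  have hN3 : Real.exp (14 * (L / 20)) ≤ N := by
    have b1 : 4 ≤ Real.exp (L / 10) := by linarith [Real.add_one_le_exp (L / 10)]
    have b2 : (X : ℝ) = Real.exp (L / 10) * Real.exp (L / 5) * Real.exp (14 * (L / 20)) := by
      rw [← hX, ← Real.exp_add, ← Real.exp_add]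
      congr 1
      ring
    have b3 : 4 * W * Real.exp (14 * (L / 20)) ≤ X := by rw [b2]; gcongr
    have b4 : 2 * Real.exp (14 * (L / 20)) ≤ N + 1 := by
      refine le_of_mul_le_mul_left ?_ (show (0 : ℝ) < 2 * W by linarith)
      linarith
    linarith
  have hN0 : (1 : ℝ) ≤ N := hE1.trans hN3
  have hlw : Real.log ((z ^ 6 : ℕ) : ℝ) = 6 * Real.log z := by
    rw [Nat.cast_pow, Real.log_pow]
    norm_num
  have hyy : (y : ℝ) ≤ (y : ℝ) ^ 2 := by exact_mod_cast Nat.le_self_pow (by norm_num) y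
  have key := count_n (Real.exp (-Real.exp (A * (48000 * lam)))) z y (z ^ 6)
    ⌊Real.exp (L / 20)⌋₊ N X (Real.exp_pos _).le hy0 (Nat.le_self_pow (by norm_num) z)
    (by
      have : (y : ℝ) ≤ ((z ^ 6 : ℕ) : ℝ) := by
        push_cast
        nlinarith [sq_nonneg (y : ℝ)]
      exact_mod_cast this)
    (by
      have : (z : ℝ) ≤ N := by linarith [Real.add_one_le_exp (14 * (L / 20))]
      exact_mod_cast this)
    (Nat.floor_le_of_le ((Real.exp_le_exp.2 (by linarith)).trans hN3))
    (by exact_mod_cast (show (0 : ℝ) < N by linarith)) (by rw [← hW]; exact hN1)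
    (fun S hS hc ω hper hω => hC0 (z ^ 6) _ (L / 20) S (by rw [hlw]; linarith)
      (by rw [hlw]; exact hlz2)
      (by rw [hlw]; linarith)
      (by
        have b1 : (S.card : ℝ) ≤ y := by
          have := Finset.card_le_card hS
          rw [Nat.card_Icc] at this
          exact_mod_cast (by omega : S.card ≤ y)
        push_cast
        refine le_trans ?_ hy3
        gcongr)
      (Nat.lt_floor_add_one _).le ω hper hω N N hN3)
  rw [← hW] at key
  have e : (Icc 1 X).filter (fun n => lam * L < Nat.nth (fun k => (k * n + 1).Prime) 0) =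
      (Icc 1 X).filter (fun n => y < Nat.nth (fun k => (k * n + 1).Prime) 0) := by
    refine Finset.filter_congr fun n _ => ?_
    rw [hy, Nat.floor_lt (by positivity)]
  rw [e]
  refine le_trans ?_ key
  have b1 : 8 * Real.exp (-Real.exp ((48000 * A + 2) * lam)) ≤
      Real.exp (-Real.exp (A * (48000 * lam))) := by
    have c4 : 8 ≤ Real.exp 3 := by
      have := Real.add_one_le_exp 1
      rw [show (3 : ℝ) = 1 + (1 + 1) by norm_num, Real.exp_add, Real.exp_add]
      nlinarith
    calc _ ≤ Real.exp 3 * Real.exp (-Real.exp ((48000 * A + 2) * lam)) := by gcongr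
      _ ≤ _ := by
          rw [← Real.exp_add]
          exact Real.exp_le_exp.2 (by linarith)
  have b2 : (X : ℝ) ≤ 4 * (W * N) := by nlinarith
  have b3 := mul_le_mul b1 b2 (Nat.cast_nonneg _) (Real.exp_pos _).le
  linarith

end Pool.Agent.MP_fdd1d3_nt.PD
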